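import Mathlib
import Pool.Agent.Helper941.Hyp.Resp

set_option autoImplicit false

namespace Pool.Agent.Helper941.Hyp

open Encodable Denumerable Nat.Partrec Pool.Agent.Helper941 Pool.Agent.Helper941.IsoProb
open Pool.Agent.Helper941.Zeta Pool.Agent.Helper941.Dim

variable {pa : ℕ → ℕ} {B : Str} {G F : ℕ → ℕ}

/-- the relations with nonzero index do not depend on the root predicate -/
theorem rel_ne {b c : Bool} {i p q : ℕ} (hi : i ≠ 0) : Rel pa b i p q ↔ Rel pa c i p q := by
  unfold Dim.Rel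
  simp [hi]

theorem PIso.shift (hG : PIso pa B G) (hF : Flow pa F) : PIso pa B fun p => G (sh F p) where
  rel := fun i p q hi hp hq => by
    rw [sh_rel hF, rel_ne (c := false) hi]
    exact hG.rel _ _ _ hi (sh_valid hF hp) (sh_valid hF hq)
  inj := fun p q hp hq h => by
    have := hG.inj _ _ (sh_valid hF hp) (sh_valid hF hq) h
    rw [← sh_sh F p, this, sh_sh]
  surj := fun z => by
    obtain ⟨p, hp, h⟩ := hG.surj z
    exact ⟨sh F p, sh_valid hF hp, by rw [sh_sh]; exact h⟩

/-- isomorphism onto `B` of the reducts without the relation `0` -/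
def RedIso (pa : ℕ → ℕ) (B : Str) (f : ℕ ≃ ℕ) : Prop :=
  ∀ i x y, i ≠ 0 → (Rel pa false i (el pa x) (el pa y) ↔ B i (f x) (f y))

theorem PIso.of_iso {f : ℕ ≃ ℕ} (h : RedIso pa B f) : PIso pa B fun p => f (idx pa p) where
  rel := fun i p q hi hp hq => by
    have := h i (idx pa p) (idx pa q) hi
    rw [el_idx hp, el_idx hq] at this
    exact this
  inj := fun p q hp hq e => by
    have := f.injective e
    rw [← el_idx hp, ← el_idx hq, this]
  surj := fun z => ⟨el pa (f.symm z), el_valid pa _, by simp [idx_el]⟩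

theorem PIso.toIso (h : PIso pa B G) : ∃ f : ℕ ≃ ℕ, RedIso pa B f ∧ ∀ n, f n = G (el pa n) := by
  refine ⟨Equiv.ofBijective (fun n => G (el pa n)) ⟨?_, ?_⟩, ?_, ?_⟩
  · intro m n e
    have := h.inj _ _ (el_valid pa m) (el_valid pa n) e
    rw [← idx_el pa m, this, idx_el]
  · intro z
    obtain ⟨p, hp, e⟩ := h.surj z
    exact ⟨idx pa p, by show G (el pa (idx pa p)) = z; rw [el_idx hp, e]⟩
  · intro i x y hi
    exact h.rel i _ _ hi (el_valid pa x) (el_valid pa y)
  · intro n
    rfl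

/-- walking along the coordinates -/
theorem walk_comp (hpa : Computable pa) (hBc : IsComp B) (hG : PIso pa B G)
    (hF : Flow pa F) (hY : Computable fun v => G (Nat.pair v (F v))) :
    Computable fun n => G (sh F (el pa n)) := by
  let P : ℕ → ℕ → Prop := fun n m =>
    ent m 0 = G (Nat.pair (el pa n).unpair.1 (F (el pa n).unpair.1)) ∧
    ∀ u < (el pa n).unpair.2,
      ((el pa n).unpair.2.testBit u = true → B (Nat.pair 2 u) (ent m u) (ent m (u + 1))) ∧
      (¬ (el pa n).unpair.2.testBit u = true → ent m (u + 1) = ent m u)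
  have hel : Computable (el pa) := c_el hpa
  have hP : ComputablePred fun p : ℕ × ℕ => P p.1 p.2 := by
    have hn : Computable fun p : ℕ × ℕ => el pa p.1 := hel.comp (c_fst c_id)
    have hb : ComputablePred fun p : (ℕ × ℕ) × ℕ =>
        (el pa p.1.1).unpair.2.testBit p.2 = true :=
      p_testBit (c_up2 (hel.comp (c_fst (c_fst c_id)))) (c_snd c_id)
    have he0 : Computable fun p : (ℕ × ℕ) × ℕ => ent p.1.2 p.2 :=
      c_ent (c_snd (c_fst c_id)) (c_snd c_id)
    have he1 : Computable fun p : (ℕ × ℕ) × ℕ => ent p.1.2 (p.2 + 1) :=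
      c_ent (c_snd (c_fst c_id)) (c_succ (c_snd c_id))
    have hBB : ComputablePred fun p : (ℕ × ℕ) × ℕ =>
        B (Nat.pair 2 p.2) (ent p.1.2 p.2) (ent p.1.2 (p.2 + 1)) :=
      computablePred_comp (P := fun q : ℕ × ℕ × ℕ => B q.1 q.2.1 q.2.2) hBc
        (c_pair (c_npair (c_const 2) (c_snd c_id)) (c_pair he0 he1))
    exact p_and (p_eq (c_ent (c_snd c_id) (c_const 0)) (hY.comp (c_up1 hn)))
      (p_ball (c_up2 hn) (p_and (p_imp hb hBB) (p_imp (p_not hb) (p_eq he1 he0))))
  have hval : ∀ n u, Valid pa (Nat.pair (el pa n).unpair.1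
      (F (el pa n).unpair.1 ^^^ ((el pa n).unpair.2 % 2 ^ u))) := by
    intro n u w hw
    rw [Nat.unpair_pair] at hw ⊢
    rw [Nat.testBit_xor, Nat.testBit_mod_two_pow] at hw
    by_cases h1 : (F (el pa n).unpair.1).testBit w = true
    · exact hF.child _ _ h1
    · simp only [Bool.not_eq_true] at h1
      rw [h1] at hw
      simp only [Bool.false_bne, Bool.and_eq_true, decide_eq_true_eq] at hw
      exact el_valid pa n w hw.2
  have hstep : ∀ n u, (el pa n).unpair.2.testBit u = true →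
      B (Nat.pair 2 u) (G (Nat.pair (el pa n).unpair.1
        (F (el pa n).unpair.1 ^^^ ((el pa n).unpair.2 % 2 ^ u))))
        (G (Nat.pair (el pa n).unpair.1
        (F (el pa n).unpair.1 ^^^ ((el pa n).unpair.2 % 2 ^ (u + 1))))) := by
    intro n u hu
    refine (hG.rel _ _ _ (pair_ne_zero (by omega)) (hval n u) (hval n (u + 1))).1 (rel_two.2 ?_)
    obtain ⟨h1, h2⟩ := el_valid pa n u hu
    rw [Nat.unpair_pair, Nat.unpair_pair]
    refine ⟨h1, h2.symm, h2.symm, ?_⟩
    rw [low_succ, if_pos hu, Nat.xor_assoc]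
  have hst2 : ∀ n u, ¬ (el pa n).unpair.2.testBit u = true →
      (el pa n).unpair.2 % 2 ^ (u + 1) = (el pa n).unpair.2 % 2 ^ u := by
    intro n u hu
    rw [low_succ, if_neg hu]
  have hex : ∀ n, ∃ m, P n m := by
    intro n
    obtain ⟨m, hm⟩ := exists_ent ((el pa n).unpair.2 + 1) fun u =>
      G (Nat.pair (el pa n).unpair.1 (F (el pa n).unpair.1 ^^^ ((el pa n).unpair.2 % 2 ^ u)))
    refine ⟨m, ?_, fun u hu => ?_⟩
    · rw [hm 0 (by omega)]
      simp [Nat.mod_one]
    · rw [hm u (by omega), hm (u + 1) (by omega)]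
      exact ⟨hstep n u, fun h => by rw [hst2 n u h]⟩
  have huniq : ∀ n m, P n m → ∀ u ≤ (el pa n).unpair.2, ent m u =
      G (Nat.pair (el pa n).unpair.1
        (F (el pa n).unpair.1 ^^^ ((el pa n).unpair.2 % 2 ^ u))) := by
    intro n m hm u
    induction u with
    | zero =>
      intro _
      rw [hm.1]
      simp [Nat.mod_one]
    | succ u ih =>
      intro hu
      have h1 := ih (by omega)
      by_cases h2 : (el pa n).unpair.2.testBit u = true
      · have h3 := (hm.2 u (by omega)).1 h2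
        rw [h1] at h3
        obtain ⟨q, hq, h4⟩ := hG.surj (ent m (u + 1))
        rw [← h4] at h3 ⊢
        have h5 := rel_two.1 ((hG.rel _ _ _ (pair_ne_zero (by omega)) (hval n u) hq).2 h3)
        have h6 := rel_two.1 ((hG.rel _ _ _ (pair_ne_zero (by omega)) (hval n u) (hval n (u + 1))).2 (hstep n u h2))
        congr 1
        refine unpair_inj ?_ ?_
        · rw [h5.2.2.1, h6.2.2.1]
        · rw [h5.2.2.2, h6.2.2.2]
      · rw [(hm.2 u (by omega)).2 h2, h1, hst2 n u h2]
  have hc := c_least hP hex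
  refine (c_ent hc (c_up2 hel)).of_eq fun n => ?_
  have h1 : P n (sInf {m | P n m}) := Nat.sInf_mem (s := {m | P n m}) (hex n)
  rw [huniq n _ h1 _ (le_refl _), Nat.mod_eq_of_lt Nat.lt_two_pow_self, Nat.xor_comm]
  rfl

section
variable {T : ℕ → Prop} {pr g : ℕ → ℕ}

/-- the reduct without the relation `0` is computably categorical -/
theorem cc (hT : ComputablePred T) (hpr : Computable pr) (hTH : TH T pr) {B : Str}
    (hBc : IsComp B) {f : ℕ ≃ ℕ} (hf : RedIso (con T pr).pa B f) :
    ∃ h : ℕ ≃ ℕ, RedIso (con T pr).pa B h ∧ Computable h := by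
  have hS := con_spec T pr
  have hG := PIso.of_iso hf
  set G : ℕ → ℕ := fun p => f (idx (con T pr).pa p) with hGdef
  -- the code of the structure
  obtain ⟨c, hc⟩ : ∃ c : Code, ∀ a, (fun a : ℕ => B a.unpair.1 a.unpair.2.unpair.1
      a.unpair.2.unpair.2) a ↔ (Code.eval c (encode a)).Dom := by
    refine sigma1_code (ComputablePred.sigma ?_)
    exact computablePred_comp (P := fun q : ℕ × ℕ × ℕ => B q.1 q.2.1 q.2.2) hBc
      (c_pair (c_up1 c_id) (c_pair (c_up1 (c_up2 c_id)) (c_up2 (c_up2 c_id))))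
  set e := encode c with he
  have hBe : ∀ i x y, B i x y ↔
      (Code.eval (ofNat Code e) (Nat.pair i (Nat.pair x y))).Dom := by
    intro i x y
    have := hc (Nat.pair i (Nat.pair x y))
    simp only [Nat.unpair_pair, Encodable.encode_nat] at this
    rw [this, he, ofNat_encode]
  obtain ⟨g, hg⟩ := exists_tp (d := con T pr) hS.O_le
  obtain ⟨N, H⟩ := exists_rsp hS hTH hG hBe hg
  obtain ⟨E, hNE, hER, hE⟩ := H.no_events hS hTH
  obtain ⟨F, hF, hFs⟩ := H.main hS hTH hER hE
  have hpa : Computable (con T pr).pa := con_pa hT hpr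
  have hR : ComputablePred (RR (con T pr) g e N) :=
    p_and (p_le (c_const N) c_id) (p_and (p_vis hT hpr e)
      (p_not (p_eq (con_O hT hpr c_id (c_const e)) (c_const 2))))
  -- computing the base points
  have hY : Computable fun v => G (Nat.pair v (F v)) := by
    let Q : ℕ → ℕ → Prop := fun v s => ∃ s' < s, ∃ s'' < s', RR (con T pr) g e N s ∧
      RR (con T pr) g e N s' ∧ RR (con T pr) g e N s'' ∧ v ≤ s'' ∧ E ≤ s''
    have hQ : ComputablePred fun p : ℕ × ℕ => Q p.1 p.2 := by
      have h1 : ComputablePred fun p : ((ℕ × ℕ) × ℕ) × ℕ => RR (con T pr) g e N p.1.1.2 :=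
        computablePred_comp hR (c_snd (c_fst (c_fst c_id)))
      have h2 : ComputablePred fun p : ((ℕ × ℕ) × ℕ) × ℕ => RR (con T pr) g e N p.1.2 :=
        computablePred_comp hR (c_snd (c_fst c_id))
      have h3 : ComputablePred fun p : ((ℕ × ℕ) × ℕ) × ℕ => RR (con T pr) g e N p.2 :=
        computablePred_comp hR (c_snd c_id)
      have h4 : ComputablePred fun p : ((ℕ × ℕ) × ℕ) × ℕ => p.1.1.1 ≤ p.2 :=
        p_le (c_fst (c_fst (c_fst c_id))) (c_snd c_id)
      have h5 : ComputablePred fun p : ((ℕ × ℕ) × ℕ) × ℕ => E ≤ p.2 :=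
        p_le (c_const E) (c_snd c_id)
      exact p_bex (c_snd c_id) (p_bex (c_snd c_id) (p_and h1 (p_and h2 (p_and h3
        (p_and h4 h5)))))
    have hQg : ∀ v s, Q v s → Good (RR (con T pr) g e N) E v s := by
      rintro v s ⟨s', h1, s'', h2, h3, h4, h5, h6, h7⟩
      obtain ⟨a, h8, h9⟩ := exists_pv h4 h3 h1
      obtain ⟨b, h10, h11⟩ := exists_pv h5 h8.1 (by omega)
      exact ⟨a, b, h10, h8, by omega, by omega⟩
    have hQe : ∀ v, ∃ s, Q v s := by
      intro v
      obtain ⟨s, _, s', s'', h1, h2, h3, h4⟩ := H.exists_good E v 0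
      exact ⟨s, s', h2.2.2.1, s'', h1.2.2.1, h2.2.1, h2.1, h1.1, h3, h4⟩
    have hsl := c_least hQ hQe
    have hC : Computable fun v => (con T pr).C (sInf {s | Q v s}) e - 1 :=
      c_sub (con_C hT hpr hsl (c_const e)) (c_const 1)
    refine c_modify (c_yv hC c_id) (MM (con T pr) e E) fun v hv => ?_
    have hU : ¬ UU (con T pr) g e v := fun h => by
      have := H.U E v hER h
      omega
    have h1 : Q v (sInf {s | Q v s}) := Nat.sInf_mem (s := {s | Q v s}) (hQe v)
    set s := sInf {s | Q v s} with hs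
    have h2 := hQg v s h1
    have h3 := hFs v hU s h2
    rw [← h3]
    obtain ⟨s', s'', h4, h5, h6, h7⟩ := h2
    have h8 := H.ltM _ _ h5
    have h9 := h4.2.2.1
    have h10 := (hS.C_ne (hS.O_ne h5.2.1.2.2)).1
    exact (crd_spec hG (fa_sound hBe (h10.2.1.1 v (by
      show v < MM (con T pr) e s
      omega)))).2
  obtain ⟨f', h1, h2⟩ := (hG.shift hF).toIso
  exact ⟨f', h1, (walk_comp hpa hBc hG hF hY).of_eq fun n => (h2 n).symm⟩

end

end Pool.Agent.Helper941.Hyp
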