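import Mathlib
import Pool.Agent.Helper941.Hyp.Sig

set_option autoImplicit false
set_option maxHeartbeats 400000

namespace Pool.Agent.Helper941.Hyp

open Encodable Denumerable Nat.Partrec Pool.Agent.Helper941 Pool.Agent.Helper941.IsoProb
open Pool.Agent.Helper941.Zeta

variable {α β : Type} [Primcodable α] [Primcodable β]

/-- initial segments of a function -/
def seg (f : ℕ → ℕ) (n : ℕ) : List ℕ := (List.range n).map f

theorem seg_len (f : ℕ → ℕ) (n : ℕ) : (seg f n).length = n := by simp [seg]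

theorem gt_seg (f : ℕ → ℕ) {n i : ℕ} (h : i < n) : gt (seg f n) i = f i := gt_range f h

theorem tk_seg (f : ℕ → ℕ) {n m : ℕ} (h : m ≤ n) : tk (seg f n) m = seg f m := tk_range f h

/-- `Σ¹₁` predicates with a function parameter -/
def SigF (P : (ℕ → ℕ) → α → Prop) : Prop :=
  ∃ R : α × List ℕ × List ℕ → Prop, ComputablePred R ∧
    ∀ g a, P g a ↔ ∃ f : ℕ → ℕ, ∀ n, R (a, seg g n, seg f n)

def DelF (P : (ℕ → ℕ) → α → Prop) : Prop := SigF P ∧ SigF fun g a => ¬ P g a

/-- general form of definitions -/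
theorem sigF_gen {P : (ℕ → ℕ) → α → Prop} {R : α × ℕ × List ℕ × List ℕ → Prop}
    (hR : ComputablePred R)
    (h : ∀ g a, P g a ↔ ∃ f : ℕ → ℕ, ∀ n k, R (a, n, seg g k, seg f k)) : SigF P := by
  refine ⟨fun p => ∀ n < p.2.2.length, ∀ k < p.2.2.length,
    R (p.1, n, tk p.2.1 k, tk p.2.2 k), ?_, fun g a => ?_⟩
  · have hl : Computable fun p : α × List ℕ × List ℕ => p.2.2.length :=
      Computable.list_length.comp (c_snd (c_snd c_id))
    have h1 : ComputablePred fun q : ((α × List ℕ × List ℕ) × ℕ) × ℕ =>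
        R (q.1.1.1, q.1.2, tk q.1.1.2.1 q.2, tk q.1.1.2.2 q.2) :=
      computablePred_comp hR (c_pair (c_fst (c_fst (c_fst c_id))) (c_pair (c_snd (c_fst c_id))
        (c_pair (c_tk (c_fst (c_snd (c_fst (c_fst c_id)))) (c_snd c_id))
          (c_tk (c_snd (c_snd (c_fst (c_fst c_id)))) (c_snd c_id)))))
    exact p_ball hl (p_ball (hl.comp Computable.fst) h1)
  · rw [h]
    refine exists_congr fun f => ?_
    constructor
    · intro h1 m n hn k hk
      simp only [seg_len] at hn hk
      simp only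
      rw [tk_seg g (by omega), tk_seg f (by omega)]
      exact h1 n k
    · intro h1 n k
      have h2 := h1 (n + k + 1) n (by simp only [seg_len]; omega) k
        (by simp only [seg_len]; omega)
      simp only at h2
      rwa [tk_seg g (by omega), tk_seg f (by omega)] at h2

theorem SigF.of_iff {P Q : (ℕ → ℕ) → α → Prop} (h : SigF P) (e : ∀ g a, Q g a ↔ P g a) :
    SigF Q := by
  have : Q = P := funext fun g => funext fun a => propext (e g a)
  rw [this]; exact h

theorem SigF.comp {P : (ℕ → ℕ) → β → Prop} (h : SigF P) {f : α → β} (hf : Computable f) :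
    SigF fun g a => P g (f a) := by
  obtain ⟨R, hR, e⟩ := h
  exact ⟨fun p => R (f p.1, p.2), computablePred_comp hR
    (c_pair (hf.comp Computable.fst) Computable.snd), fun g a => e g (f a)⟩

theorem SigF.of_computable {P : α → Prop} (h : ComputablePred P) : SigF fun _ a => P a :=
  ⟨fun p => P p.1, computablePred_comp h Computable.fst,
    fun _ _ => ⟨fun h => ⟨fun _ => 0, fun _ => h⟩, fun ⟨_, h⟩ => h 0⟩⟩

theorem SigF.of_sigma {P : α → Prop} (h : Sigma11 P) : SigF fun _ a => P a := by
  obtain ⟨R, hR, e⟩ := h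
  exact ⟨fun p => R (p.1, p.2.2), computablePred_comp hR
    (c_pair Computable.fst (c_snd (c_snd c_id))), fun _ a => e a⟩

/-- values of the parameter -/
theorem SigF.atom {x : α → ℕ} (hx : Computable x) {P : α × ℕ → Prop} (hP : ComputablePred P) :
    SigF fun g a => P (a, g (x a)) := by
  refine ⟨fun p => x p.1 < p.2.1.length → P (p.1, gt p.2.1 (x p.1)), ?_, fun g a => ?_⟩
  · have h1 : Computable fun p : α × List ℕ × List ℕ => x p.1 := hx.comp Computable.fst
    exact p_imp (p_lt h1 (Computable.list_length.comp (c_fst (c_snd c_id))))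
      (computablePred_comp hP (c_pair Computable.fst (c_gt (c_fst (c_snd c_id)) h1)))
  · constructor
    · intro h
      refine ⟨fun _ => 0, fun n hn => ?_⟩
      simp only [seg_len] at hn
      simp only
      rw [gt_seg g hn]
      exact h
    · rintro ⟨f, hf⟩
      have := hf (x a + 1) (by simp only [seg_len]; omega)
      simp only at this
      rwa [gt_seg g (by omega)] at this

theorem cl_seg (f : ℕ → ℕ) {i m n : ℕ} (h : Nat.pair i m ≤ n) :
    cl (seg f n) i m = seg (fun k => f (Nat.pair i k)) m := cl_range f h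

theorem SigF.and {P Q : (ℕ → ℕ) → α → Prop} (h : SigF P) (h' : SigF Q) :
    SigF fun g a => P g a ∧ Q g a := by
  obtain ⟨R, hR, e⟩ := h
  obtain ⟨R', hR', e'⟩ := h'
  refine sigF_gen (R := fun q => Nat.pair 0 q.2.1 + Nat.pair 1 q.2.1 ≤ q.2.2.2.length →
    q.2.1 ≤ q.2.2.1.length → R (q.1, tk q.2.2.1 q.2.1, cl q.2.2.2 0 q.2.1) ∧
      R' (q.1, tk q.2.2.1 q.2.1, cl q.2.2.2 1 q.2.1)) ?_ fun g a => ?_
  · have hn : Computable fun q : α × ℕ × List ℕ × List ℕ => q.2.1 := c_fst (c_snd c_id)
    have hg : Computable fun q : α × ℕ × List ℕ × List ℕ => q.2.2.1 :=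
      c_fst (c_snd (c_snd c_id))
    have hf : Computable fun q : α × ℕ × List ℕ × List ℕ => q.2.2.2 :=
      c_snd (c_snd (c_snd c_id))
    refine p_imp (p_le (c_add (c_npair (c_const 0) hn) (c_npair (c_const 1) hn))
      (Computable.list_length.comp hf)) (p_imp (p_le hn (Computable.list_length.comp hg))
      (p_and ?_ ?_))
    · exact computablePred_comp hR (c_pair (c_fst c_id) (c_pair (c_tk hg hn)
        (c_cl hf (c_const 0) hn)))
    · exact computablePred_comp hR' (c_pair (c_fst c_id) (c_pair (c_tk hg hn)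
        (c_cl hf (c_const 1) hn)))
  · rw [e, e']
    constructor
    · rintro ⟨⟨f, hf⟩, ⟨f', hf'⟩⟩
      refine ⟨fun x => if x.unpair.1 = 0 then f x.unpair.2 else f' x.unpair.2,
        fun n k h1 h2 => ?_⟩
      simp only [seg_len] at h1 h2
      simp only
      rw [tk_seg g h2, cl_seg _ (by omega), cl_seg _ (by omega)]
      simp only [Nat.unpair_pair]
      exact ⟨hf n, hf' n⟩
    · rintro ⟨f, hf⟩
      have key : ∀ n, R (a, seg g n, seg (fun k => f (Nat.pair 0 k)) n) ∧
          R' (a, seg g n, seg (fun k => f (Nat.pair 1 k)) n) := by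
        intro n
        have := hf n (n + Nat.pair 0 n + Nat.pair 1 n) (by simp only [seg_len]; omega)
          (by simp only [seg_len]; omega)
        simp only at this
        rwa [tk_seg g (by omega), cl_seg _ (by omega), cl_seg _ (by omega)] at this
      exact ⟨⟨_, fun n => (key n).1⟩, ⟨_, fun n => (key n).2⟩⟩

theorem SigF.all {P : (ℕ → ℕ) → α × ℕ → Prop} (h : SigF P) :
    SigF fun g a => ∀ y, P g (a, y) := by
  obtain ⟨R, hR, e⟩ := h
  refine sigF_gen (R := fun q => q.2.1 ≤ q.2.2.2.length → q.2.1 ≤ q.2.2.1.length →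
    R ((q.1, q.2.1.unpair.1), tk q.2.2.1 q.2.1.unpair.2,
      cl q.2.2.2 q.2.1.unpair.1 q.2.1.unpair.2)) ?_ fun g a => ?_
  · have hn : Computable fun q : α × ℕ × List ℕ × List ℕ => q.2.1 := c_fst (c_snd c_id)
    have hg : Computable fun q : α × ℕ × List ℕ × List ℕ => q.2.2.1 :=
      c_fst (c_snd (c_snd c_id))
    have hf : Computable fun q : α × ℕ × List ℕ × List ℕ => q.2.2.2 :=
      c_snd (c_snd (c_snd c_id))
    exact p_imp (p_le hn (Computable.list_length.comp hf))
      (p_imp (p_le hn (Computable.list_length.comp hg))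
      (computablePred_comp hR (c_pair (c_pair (c_fst c_id) (c_up1 hn))
        (c_pair (c_tk hg (c_up2 hn)) (c_cl hf (c_up1 hn) (c_up2 hn))))))
  · constructor
    · intro h1
      have h2 : ∀ y, ∃ f : ℕ → ℕ, ∀ n, R ((a, y), seg g n, seg f n) :=
        fun y => (e _ _).1 (h1 y)
      choose f hf using h2
      refine ⟨fun x => f x.unpair.1 x.unpair.2, fun n k h3 h4 => ?_⟩
      simp only [seg_len] at h3 h4
      simp only
      have := Nat.unpair_right_le n
      rw [tk_seg g (by omega), cl_seg _ (by rw [Nat.pair_unpair]; exact h3)]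
      simp only [Nat.unpair_pair]
      exact hf _ _
    · rintro ⟨f, hf⟩ y
      refine (e _ _).2 ⟨fun k => f (Nat.pair y k), fun n => ?_⟩
      have := hf (Nat.pair y n) (Nat.pair y n) (by simp only [seg_len]; omega)
        (by simp only [seg_len]; omega)
      simp only [Nat.unpair_pair] at this
      have h5 := Nat.right_le_pair y n
      rwa [tk_seg g h5, cl_seg _ (le_refl _)] at this

theorem tl_seg (f : ℕ → ℕ) (n : ℕ) : tl (seg f (n + 1)) n = seg (fun k => f (k + 1)) n :=
  tl_range f n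

theorem tl_seg' (f : ℕ → ℕ) {n k : ℕ} (h : n + 1 ≤ k) :
    tl (seg f k) n = seg (fun k => f (k + 1)) n := by
  unfold tl seg
  refine List.map_congr_left fun i hi => ?_
  have hi' : i < n := List.mem_range.1 hi
  exact gt_range f (by omega)

theorem SigF.ex {P : (ℕ → ℕ) → α × ℕ → Prop} (h : SigF P) :
    SigF fun g a => ∃ y, P g (a, y) := by
  obtain ⟨R, hR, e⟩ := h
  refine sigF_gen (R := fun q => q.2.1 + 1 ≤ q.2.2.2.length → q.2.1 ≤ q.2.2.1.length →
    R ((q.1, gt q.2.2.2 0), tk q.2.2.1 q.2.1, tl q.2.2.2 q.2.1)) ?_ fun g a => ?_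
  · have hn : Computable fun q : α × ℕ × List ℕ × List ℕ => q.2.1 := c_fst (c_snd c_id)
    have hg : Computable fun q : α × ℕ × List ℕ × List ℕ => q.2.2.1 :=
      c_fst (c_snd (c_snd c_id))
    have hf : Computable fun q : α × ℕ × List ℕ × List ℕ => q.2.2.2 :=
      c_snd (c_snd (c_snd c_id))
    exact p_imp (p_le (c_succ hn) (Computable.list_length.comp hf))
      (p_imp (p_le hn (Computable.list_length.comp hg))
      (computablePred_comp hR (c_pair (c_pair (c_fst c_id) (c_gt hf (c_const 0)))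
        (c_pair (c_tk hg hn) (c_tl hf hn)))))
  · constructor
    · rintro ⟨y, hy⟩
      obtain ⟨f, hf⟩ := (e _ _).1 hy
      refine ⟨fun x => Nat.casesOn x y f, fun n k h1 h2 => ?_⟩
      simp only [seg_len] at h1 h2
      simp only
      rw [gt_seg _ (by omega), tk_seg g h2, tl_seg' _ h1]
      exact hf n
    · rintro ⟨f, hf⟩
      refine ⟨f 0, (e _ _).2 ⟨fun k => f (k + 1), fun n => ?_⟩⟩
      have := hf n (n + 1) (by simp only [seg_len]; omega) (by simp only [seg_len]; omega)
      simp only at this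
      rwa [gt_seg _ (by omega), tk_seg g (by omega), tl_seg' _ (by omega)] at this

theorem SigF.or {P Q : (ℕ → ℕ) → α → Prop} (h : SigF P) (h' : SigF Q) :
    SigF fun g a => P g a ∨ Q g a := by
  obtain ⟨R, hR, e⟩ := h
  obtain ⟨R', hR', e'⟩ := h'
  have h1 : SigF fun (g : ℕ → ℕ) (p : α × ℕ) =>
      (p.2 = 0 → P g p.1) ∧ (¬ p.2 = 0 → Q g p.1) := by
    refine ⟨fun q => (q.1.2 = 0 → R (q.1.1, q.2)) ∧ (¬ q.1.2 = 0 → R' (q.1.1, q.2)), ?_,
      fun g a => ?_⟩
    · have h3 : ComputablePred fun q : (α × ℕ) × List ℕ × List ℕ => q.1.2 = 0 :=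
        p_eq (c_snd (c_fst c_id)) (c_const 0)
      exact p_and (p_imp h3 (computablePred_comp hR (c_pair (c_fst (c_fst c_id)) (c_snd c_id))))
        (p_imp (p_not h3) (computablePred_comp hR' (c_pair (c_fst (c_fst c_id)) (c_snd c_id))))
    · obtain ⟨a, y⟩ := a
      simp only
      rw [e, e']
      by_cases hy : y = 0
      · simp [hy]
      · simp [hy]
  refine (SigF.ex h1).of_iff fun g a => ?_
  constructor
  · rintro (h2 | h2)
    · exact ⟨0, fun _ => h2, fun h => (h rfl).elim⟩
    · exact ⟨1, fun h => absurd h (by simp), fun _ => h2⟩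
  · rintro ⟨y, h2, h3⟩
    by_cases hy : y = 0
    · exact Or.inl (h2 hy)
    · exact Or.inr (h3 hy)

/-- function quantifier -/
theorem SigF.exf {P : (ℕ → ℕ) → α → Prop} (h : SigF P) : Sigma11 fun a => ∃ g, P g a := by
  obtain ⟨R, hR, e⟩ := h
  refine sigma11_gen (R := fun q => R (q.1, cl q.2.2 0 q.2.1, cl q.2.2 1 q.2.1))
    (u := fun p => Nat.pair 0 p.2 + Nat.pair 1 p.2) ?_ ?_ fun a => ?_
  · have hn : Computable fun q : α × ℕ × List ℕ => q.2.1 := c_fst (c_snd c_id)
    have hf : Computable fun q : α × ℕ × List ℕ => q.2.2 := c_snd (c_snd c_id)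
    exact computablePred_comp hR (c_pair (c_fst c_id) (c_pair (c_cl hf (c_const 0) hn)
      (c_cl hf (c_const 1) hn)))
  · exact c_add (c_npair (c_const 0) (c_snd c_id)) (c_npair (c_const 1) (c_snd c_id))
  · constructor
    · rintro ⟨g, hg⟩
      obtain ⟨f, hf⟩ := (e _ _).1 hg
      refine ⟨fun x => if x.unpair.1 = 0 then g x.unpair.2 else f x.unpair.2, fun n => ?_⟩
      simp only
      rw [cl_range _ (by omega), cl_range _ (by omega)]
      simp only [Nat.unpair_pair]
      exact hf n
    · rintro ⟨f, hf⟩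
      refine ⟨fun k => f (Nat.pair 0 k), (e _ _).2 ⟨fun k => f (Nat.pair 1 k), fun n => ?_⟩⟩
      have := hf n
      simp only at this
      rwa [cl_range _ (by omega), cl_range _ (by omega)] at this

/-! ### the calculus of `DelF` -/

theorem DelF.of_iff {P Q : (ℕ → ℕ) → α → Prop} (h : DelF P) (e : ∀ g a, Q g a ↔ P g a) :
    DelF Q := by
  have : Q = P := funext fun g => funext fun a => propext (e g a)
  rw [this]; exact h

theorem DelF.of_computable {P : α → Prop} (h : ComputablePred P) : DelF fun _ a => P a :=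
  ⟨SigF.of_computable h, SigF.of_computable (p_not h)⟩

theorem DelF.of_delta {P : α → Prop} (h : Delta11 P) : DelF fun _ a => P a :=
  ⟨SigF.of_sigma h.1, SigF.of_sigma h.2⟩

theorem DelF.atom {x : α → ℕ} (hx : Computable x) {P : α × ℕ → Prop} (hP : ComputablePred P) :
    DelF fun g a => P (a, g (x a)) := ⟨SigF.atom hx hP, SigF.atom hx (p_not hP)⟩

theorem DelF.comp {P : (ℕ → ℕ) → β → Prop} (h : DelF P) {f : α → β} (hf : Computable f) :
    DelF fun g a => P g (f a) := ⟨h.1.comp hf, h.2.comp hf⟩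

theorem DelF.not {P : (ℕ → ℕ) → α → Prop} (h : DelF P) : DelF fun g a => ¬ P g a :=
  ⟨h.2, h.1.of_iff fun _ _ => not_not⟩

theorem DelF.and {P Q : (ℕ → ℕ) → α → Prop} (h : DelF P) (h' : DelF Q) :
    DelF fun g a => P g a ∧ Q g a :=
  ⟨h.1.and h'.1, (h.2.or h'.2).of_iff fun _ _ => not_and_or⟩

theorem DelF.or {P Q : (ℕ → ℕ) → α → Prop} (h : DelF P) (h' : DelF Q) :
    DelF fun g a => P g a ∨ Q g a :=
  ⟨h.1.or h'.1, (h.2.and h'.2).of_iff fun _ _ => not_or⟩

theorem DelF.imp {P Q : (ℕ → ℕ) → α → Prop} (h : DelF P) (h' : DelF Q) :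
    DelF fun g a => P g a → Q g a := (h.not.or h').of_iff fun _ _ => imp_iff_not_or

theorem DelF.iff {P Q : (ℕ → ℕ) → α → Prop} (h : DelF P) (h' : DelF Q) :
    DelF fun g a => (P g a ↔ Q g a) := ((h.imp h').and (h'.imp h)).of_iff fun _ _ => iff_def

theorem DelF.ex {P : (ℕ → ℕ) → α × ℕ → Prop} (h : DelF P) :
    DelF fun g a => ∃ y, P g (a, y) :=
  ⟨h.1.ex, (h.2.all).of_iff fun _ _ => by push Not; rfl⟩

theorem DelF.all {P : (ℕ → ℕ) → α × ℕ → Prop} (h : DelF P) :
    DelF fun g a => ∀ y, P g (a, y) :=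
  ⟨h.1.all, (h.2.ex).of_iff fun _ _ => by push Not; rfl⟩

theorem DelF.ex' {P : (ℕ → ℕ) → α × β → Prop} (h : DelF P) :
    DelF fun g a => ∃ y, P g (a, y) := by
  by_cases hβ : Nonempty β
  · obtain ⟨b0⟩ := hβ
    have h1 : DelF fun (g : ℕ → ℕ) (p : α × ℕ) => (decode (α := β) p.2).isSome = true ∧
        P g (p.1, (decode (α := β) p.2).getD b0) := by
      refine (DelF.of_computable ?_).and (h.comp ?_)
      · refine ComputablePred.computable_iff.2
          ⟨fun p : α × ℕ => (decode (α := β) p.2).isSome, ?_, rfl⟩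
        exact (Primrec.option_isSome.to_comp).comp (Computable.decode.comp Computable.snd)
      · refine Computable.pair Computable.fst ?_
        exact (Primrec.option_getD.to_comp).comp (Computable.decode.comp Computable.snd)
          (Computable.const b0)
    refine h1.ex.of_iff fun g a => ?_
    constructor
    · rintro ⟨y, hy⟩
      exact ⟨encode y, by simpa using hy⟩
    · rintro ⟨k, _, hk⟩
      exact ⟨_, hk⟩
  · refine (DelF.of_computable (P := fun _ : α => False) ?_).of_iff fun g a => ?_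
    · exact ComputablePred.computable_iff.2 ⟨fun _ => false, Computable.const _, by funext a; simp⟩
    · simp only [iff_false]
      rintro ⟨y, _⟩
      exact hβ ⟨y⟩

theorem DelF.all' {P : (ℕ → ℕ) → α × β → Prop} (h : DelF P) :
    DelF fun g a => ∀ y, P g (a, y) :=
  (h.not.ex').not.of_iff fun g a => by push Not; rfl

end Pool.Agent.Helper941.Hyp
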