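import Mathlib
import Pool.Agent.Helper941.Hyp.SigF
import Pool.Agent.Helper941.Dim.Tree2

set_option autoImplicit false
set_option maxHeartbeats 400000

namespace Pool.Agent.Helper941.Hyp

open Encodable Denumerable Nat.Partrec Pool.Agent.Helper941 Pool.Agent.Helper941.IsoProb
open Pool.Agent.Helper941.Zeta Pool.Agent.Helper941.Dim

/-- the Kleene–Brouwer ordering of finite sequences -/
def kb : List ℕ → List ℕ → Prop
  | [], _ => False
  | _ :: _, [] => True
  | a :: l, b :: l' => a < b ∨ (a = b ∧ kb l l')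

theorem kb_irrefl : ∀ l : List ℕ, ¬ kb l l
  | [] => fun h => h
  | a :: l => by
    intro h
    rcases h with h | ⟨_, h⟩
    · omega
    · exact kb_irrefl l h

theorem kb_trans : ∀ {l m n : List ℕ}, kb l m → kb m n → kb l n
  | [], _, _ => fun h => h.elim
  | _ :: _, [], _ => fun _ h => h.elim
  | _ :: _, _ :: _, [] => fun _ _ => trivial
  | a :: l, b :: m, c :: n => by
    rintro (h | ⟨rfl, h⟩) (h' | ⟨rfl, h'⟩)
    · exact Or.inl (h.trans h')
    · exact Or.inl h
    · exact Or.inl h'
    · exact Or.inr ⟨rfl, kb_trans h h'⟩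

theorem kb_tri : ∀ l m : List ℕ, kb l m ∨ l = m ∨ kb m l
  | [], [] => Or.inr (Or.inl rfl)
  | [], _ :: _ => Or.inr (Or.inr trivial)
  | _ :: _, [] => Or.inl trivial
  | a :: l, b :: m => by
    rcases lt_trichotomy a b with h | rfl | h
    · exact Or.inl (Or.inl h)
    · rcases kb_tri l m with h | rfl | h
      · exact Or.inl (Or.inr ⟨rfl, h⟩)
      · exact Or.inr (Or.inl rfl)
      · exact Or.inr (Or.inr (Or.inr ⟨rfl, h⟩))
    · exact Or.inr (Or.inr (Or.inl h))

theorem kb_append (k : List ℕ) (l m : List ℕ) : kb (k ++ l) (k ++ m) ↔ kb l m := by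
  induction k with
  | nil => rfl
  | cons a k ih =>
    show (a < a ∨ (a = a ∧ kb (k ++ l) (k ++ m))) ↔ _
    rw [ih]
    simp

theorem kb_iff : ∀ l m : List ℕ, kb l m ↔ ∃ n < l.length, (∀ i < n, gt l i = gt m i) ∧
    (n = m.length ∨ (n < m.length ∧ gt l n < gt m n))
  | [], _ => by simp [kb]
  | a :: l, [] => by
    refine ⟨fun _ => ⟨0, by simp, fun i hi => by omega, Or.inl rfl⟩, fun _ => trivial⟩
  | a :: l, b :: m => by
    have e : ∀ (x : ℕ) (k : List ℕ) (i : ℕ), gt (x :: k) (i + 1) = gt k i := fun x k i => by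
      simp [gt]
    have e0 : ∀ (x : ℕ) (k : List ℕ), gt (x :: k) 0 = x := fun x k => by simp [gt]
    show (a < b ∨ (a = b ∧ kb l m)) ↔ _
    rw [kb_iff l m]
    constructor
    · rintro (h | ⟨rfl, n, hn, h1, h2⟩)
      · exact ⟨0, by simp, fun i hi => by omega, Or.inr ⟨by simp, by rw [e0, e0]; exact h⟩⟩
      · refine ⟨n + 1, by simp; exact hn, fun i hi => ?_, ?_⟩
        · cases i with
          | zero => rw [e0, e0]
          | succ i => rw [e, e]; exact h1 i (by omega)
        · rcases h2 with h2 | ⟨h2, h3⟩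
          · left; simp [h2]
          · right; rw [e, e]; exact ⟨by simp; exact h2, h3⟩
    · rintro ⟨n, hn, h1, h2⟩
      cases n with
      | zero =>
        rcases h2 with h2 | ⟨_, h3⟩
        · simp at h2
        · rw [e0, e0] at h3
          exact Or.inl h3
      | succ n =>
        have h3 := h1 0 (by omega)
        rw [e0, e0] at h3
        refine Or.inr ⟨h3, n, by simpa using hn, fun i hi => ?_, ?_⟩
        · have := h1 (i + 1) (by omega)
          rwa [e, e] at this
        · rw [e, e] at h2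
          simpa using h2

theorem p_kb {α : Type} [Primcodable α] {f g : α → List ℕ} (hf : Computable f)
    (hg : Computable g) : ComputablePred fun a => kb (f a) (g a) := by
  have h1 : ComputablePred fun p : α × ℕ => ¬ ((∀ i < p.2, gt (f p.1) i = gt (g p.1) i) ∧
      (p.2 = (g p.1).length ∨ (p.2 < (g p.1).length ∧ gt (f p.1) p.2 < gt (g p.1) p.2))) := by
    refine p_not (p_and ?_ ?_)
    · have e1 : Computable fun q : (α × ℕ) × ℕ => gt (f q.1.1) q.2 :=
        c_gt (hf.comp (c_fst (c_fst c_id))) (c_snd c_id)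
      have e2 : Computable fun q : (α × ℕ) × ℕ => gt (g q.1.1) q.2 :=
        c_gt (hg.comp (c_fst (c_fst c_id))) (c_snd c_id)
      exact p_ball (c_snd c_id) (p_eq e1 e2)
    · have e0 : Computable fun p : α × ℕ => (g p.1).length :=
        Computable.list_length.comp (hg.comp (c_fst c_id))
      have e1 : Computable fun p : α × ℕ => gt (f p.1) p.2 :=
        c_gt (hf.comp (c_fst c_id)) (c_snd c_id)
      have e2 : Computable fun p : α × ℕ => gt (g p.1) p.2 :=
        c_gt (hg.comp (c_fst c_id)) (c_snd c_id)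
      exact p_or (p_eq (c_snd c_id) e0) (p_and (p_lt (c_snd c_id) e0) (p_lt e1 e2))
  have h2 := p_not (p_ball (P := fun a n => ¬ ((∀ i < n, gt (f a) i = gt (g a) i) ∧
      (n = (g a).length ∨ (n < (g a).length ∧ gt (f a) n < gt (g a) n))))
    (Computable.list_length.comp hf) h1)
  refine h2.of_eq fun a => ?_
  rw [kb_iff]
  push Not
  rfl

/-- a tree of finite sequences -/
def IsTr (T : List ℕ → Prop) : Prop := ∀ l m, T (l ++ m) → T l

/-- the Kleene–Brouwer ordering on the codes of sequences, the nodes of `T` coming first -/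
def kbr (T : List ℕ → Prop) (x y : ℕ) : Prop :=
  (T (ofNat (List ℕ) x) ∧ T (ofNat (List ℕ) y) ∧ kb (ofNat (List ℕ) x) (ofNat (List ℕ) y)) ∨
  (T (ofNat (List ℕ) x) ∧ ¬ T (ofNat (List ℕ) y)) ∨
  (¬ T (ofNat (List ℕ) x) ∧ ¬ T (ofNat (List ℕ) y) ∧ x < y)

variable {T : List ℕ → Prop}

theorem kbr_trans {x y z : ℕ} (h : kbr T x y) (h' : kbr T y z) : kbr T x z := by
  unfold kbr at *
  rcases h with ⟨h1, h2, h3⟩ | ⟨h1, h2⟩ | ⟨h1, h2, h3⟩
  · rcases h' with ⟨h4, h5, h6⟩ | ⟨h4, h5⟩ | ⟨h4, h5, h6⟩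
    · exact Or.inl ⟨h1, h5, kb_trans h3 h6⟩
    · exact Or.inr (Or.inl ⟨h1, h5⟩)
    · exact (h4 h2).elim
  · rcases h' with ⟨h4, h5, h6⟩ | ⟨h4, h5⟩ | ⟨h4, h5, h6⟩
    · exact (h2 h4).elim
    · exact (h2 h4).elim
    · exact Or.inr (Or.inl ⟨h1, h5⟩)
  · rcases h' with ⟨h4, h5, h6⟩ | ⟨h4, h5⟩ | ⟨h4, h5, h6⟩
    · exact (h2 h4).elim
    · exact (h2 h4).elim
    · exact Or.inr (Or.inr ⟨h1, h5, h3.trans h6⟩)

theorem kbr_tri (x y : ℕ) : kbr T x y ∨ x = y ∨ kbr T y x := by
  unfold kbr
  by_cases hx : T (ofNat (List ℕ) x)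
  · by_cases hy : T (ofNat (List ℕ) y)
    · rcases kb_tri (ofNat (List ℕ) x) (ofNat (List ℕ) y) with h | h | h
      · exact Or.inl (Or.inl ⟨hx, hy, h⟩)
      · refine Or.inr (Or.inl ?_)
        rw [← encode_ofNat (α := List ℕ) x, h, encode_ofNat]
      · exact Or.inr (Or.inr (Or.inl ⟨hy, hx, h⟩))
    · exact Or.inl (Or.inr (Or.inl ⟨hx, hy⟩))
  · by_cases hy : T (ofNat (List ℕ) y)
    · exact Or.inr (Or.inr (Or.inr (Or.inl ⟨hy, hx⟩)))
    · rcases lt_trichotomy x y with h | h | h
      · exact Or.inl (Or.inr (Or.inr ⟨hx, hy, h⟩))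
      · exact Or.inr (Or.inl h)
      · exact Or.inr (Or.inr (Or.inr (Or.inr ⟨hy, hx, h⟩)))

/-- one-step extensions in `T` -/
def Ex1 (T : List ℕ → Prop) (l' l : List ℕ) : Prop := T l' ∧ ∃ a, l' = l ++ [a]

theorem ex1_wf (hT : IsTr T) (h : ¬ ∃ f : ℕ → ℕ, ∀ n, T (seg f n)) : WellFounded (Ex1 T) := by
  rw [wellFounded_iff_isEmpty_descending_chain]
  refine ⟨fun ⟨x, hx⟩ => h ?_⟩
  have h1 : ∀ n, ∃ a, x (n + 1) = x n ++ [a] := fun n => (hx n).2
  choose a ha using h1
  refine ⟨fun i => gt (x (i + 1)) i, fun n => ?_⟩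
  have h2 : ∀ n, n ≤ (x n).length := by
    intro n
    induction n with
    | zero => omega
    | succ n ih => rw [ha, List.length_append]; simp; omega
  have h3 : ∀ m n i, i < (x n).length → gt (x (n + m)) i = gt (x n) i := by
    intro m n i hi
    induction m with
    | zero => rfl
    | succ m ih =>
      have h4 : i < (x (n + m)).length := by
        clear ih
        induction m with
        | zero => exact hi
        | succ m ih => rw [← Nat.add_assoc, ha, List.length_append]; simp; omega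
      rw [← Nat.add_assoc, ha, ← ih]
      unfold gt
      rw [List.getElem?_append_left h4]
  have h5 : seg (fun i => gt (x (i + 1)) i) n <+: x (n + 1) := by
    rw [List.prefix_iff_eq_take]
    have h6 := h2 (n + 1)
    refine List.ext_getElem ?_ fun i hi hi' => ?_
    · rw [List.length_take, seg_len]
      omega
    · rw [seg_len] at hi
      have h7 : (seg (fun i => gt (x (i + 1)) i) n)[i]'(by rw [seg_len]; exact hi) =
          gt (x (i + 1)) i := by simp [seg]
      rw [List.getElem_take, h7]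
      have h8 := h3 (n - i) (i + 1) i (by have := h2 (i + 1); omega)
      rw [show i + 1 + (n - i) = n + 1 by omega] at h8
      rw [← h8]
      unfold gt
      rw [List.getElem?_eq_getElem (by omega)]
      rfl
  obtain ⟨k, hk⟩ := h5
  have h9 := (hx n).1
  rw [← hk] at h9
  exact hT _ _ h9

theorem kb_acc (hT : IsTr T) (h : ¬ ∃ f : ℕ → ℕ, ∀ n, T (seg f n)) (l : List ℕ) :
    ∀ m, T (l ++ m) → Acc (fun m' m => T (l ++ m') ∧ kb m' m) m := by
  induction l using (ex1_wf hT h).induction with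
  | h l ih =>
    have h1 : ∀ a m, T (l ++ a :: m) → Acc (fun m' m => T (l ++ m') ∧ kb m' m) (a :: m) := by
      intro a
      induction a using Nat.strong_induction_on with
      | h a iha =>
        intro m hm
        have h2 : T (l ++ [a]) := by
          have : l ++ a :: m = (l ++ [a]) ++ m := by simp
          rw [this] at hm
          exact hT _ _ hm
        have h3 := ih (l ++ [a]) ⟨h2, a, rfl⟩ m (by simpa using hm)
        induction h3 with
        | intro m _ ihm =>
          refine Acc.intro _ ?_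
          rintro (_ | ⟨b, m'⟩) ⟨h4, h5⟩
          · exact h5.elim
          · rcases h5 with h5 | ⟨rfl, h5⟩
            · exact iha b h5 m' h4
            · have h6 : T (l ++ [b] ++ m') := by simpa using h4
              exact ihm m' ⟨h6, h5⟩ h4
    intro m hm
    cases m with
    | nil =>
      refine Acc.intro _ ?_
      rintro (_ | ⟨b, m'⟩) ⟨h4, h5⟩
      · exact h5.elim
      · exact h1 b m' h4
    | cons a m => exact h1 a m hm

theorem kbr_wf (hT : IsTr T) (h : ¬ ∃ f : ℕ → ℕ, ∀ n, T (seg f n)) : WellFounded (kbr T) := by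
  have h1 : ∀ m : List ℕ, T m → Acc (kbr T) (encode m) := by
    intro m hm
    have h2 : Acc (fun m' m => T ([] ++ m') ∧ kb m' m) m := kb_acc hT h [] m hm
    induction h2 with
    | intro m _ ih =>
      refine Acc.intro _ fun x hx => ?_
      unfold kbr at hx
      rw [ofNat_encode] at hx
      rcases hx with ⟨h3, _, h4⟩ | ⟨_, h4⟩ | ⟨_, h4, _⟩
      · have := ih (ofNat (List ℕ) x) ⟨h3, h4⟩ h3
        rwa [encode_ofNat] at this
      · exact (h4 hm).elim
      · exact (h4 hm).elim
  refine ⟨fun x => ?_⟩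
  by_cases hx : T (ofNat (List ℕ) x)
  · have := h1 _ hx
    rwa [encode_ofNat] at this
  · induction x using Nat.strong_induction_on with
    | h x ih =>
      refine Acc.intro _ fun y hy => ?_
      rcases hy with ⟨_, h4, _⟩ | ⟨h3, _⟩ | ⟨h3, _, h4⟩
      · exact (hx h4).elim
      · have := h1 _ h3
        rwa [encode_ofNat] at this
      · exact ih y h4 h3

theorem kbr_wo (hT : IsTr T) (h : ¬ ∃ f : ℕ → ℕ, ∀ n, T (seg f n)) :
    IsWellOrder ℕ (kbr T) where
  wf := kbr_wf hT h
  trichotomous := fun x y h1 h2 => by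
    rcases kbr_tri (T := T) x y with h | h | h
    · exact (h1 h).elim
    · exact h
    · exact (h2 h).elim

theorem kbr_desc {f : ℕ → ℕ} (h : ∀ n, T (seg f n)) (n : ℕ) :
    kbr T (encode (seg f (n + 1))) (encode (seg f n)) := by
  refine Or.inl ⟨by rw [ofNat_encode]; exact h _, by rw [ofNat_encode]; exact h _, ?_⟩
  rw [ofNat_encode, ofNat_encode]
  have : seg f (n + 1) = seg f n ++ [f n] := by
    unfold seg
    rw [List.range_succ, List.map_append]
    rfl
  rw [this]
  conv => arg 2; rw [← List.append_nil (seg f n)]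
  rw [kb_append]
  trivial

/-! ### the universal family -/

theorem tk_tk {l : List ℕ} {m n : ℕ} (h : m ≤ n) : tk (tk l n) m = tk l m := by
  unfold tk
  refine List.map_congr_left fun i hi => ?_
  have hi' : i < m := List.mem_range.1 hi
  exact gt_range _ (by omega)

theorem tk_append {l m : List ℕ} {n : ℕ} (h : n ≤ l.length) : tk (l ++ m) n = tk l n := by
  unfold tk
  refine List.map_congr_left fun i hi => ?_
  have hi' : i < n := List.mem_range.1 hi
  unfold gt
  rw [List.getElem?_append_left (by omega)]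

theorem isTr_UT (e x : ℕ) : IsTr (UT e x) := by
  intro l m h k hk hh
  refine h k (by rw [List.length_append]; omega) ?_
  rw [tk_append (by omega)]
  exact haltsIn_mono _ _ (by rw [List.length_append]; omega) hh

/-- the universal family of linear orderings -/
def ordE (e : ℕ) : ℕ → ℕ → Prop := kbr (UT e e)

theorem ordE_wo {e : ℕ} (h : ¬ UU1 e e) : IsWellOrder ℕ (ordE e) := kbr_wo (isTr_UT e e) h

theorem ordE_desc {e : ℕ} (h : UU1 e e) : ∃ x : ℕ → ℕ, ∀ n, ordE e (x (n + 1)) (x n) := by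
  obtain ⟨f, hf⟩ := h
  exact ⟨fun n => encode (seg f n), fun n => kbr_desc hf n⟩

theorem p_UT {α : Type} [Primcodable α] {e x : α → ℕ} {l : α → List ℕ} (he : Computable e)
    (hx : Computable x) (hl : Computable l) : ComputablePred fun a => UT (e a) (x a) (l a) := by
  have hl' : Computable fun a => (l a).length := Computable.list_length.comp hl
  have h1 : Computable fun p : α × ℕ => Nat.pair (x p.1) (encode (tk (l p.1) p.2)) :=
    c_npair (hx.comp (c_fst c_id)) (Computable.encode.comp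
      (c_tk (hl.comp (c_fst c_id)) (c_snd c_id)))
  have h2 := c_halts (α := α × ℕ) (a := fun p => e p.1)
    (b := fun p => Nat.pair (x p.1) (encode (tk (l p.1) p.2))) (c := fun p => (l p.1).length)
    (he.comp (c_fst c_id)) h1 (hl'.comp (c_fst c_id))
  exact p_ball (c_succ hl') (p_not (p_of_bool h2))

theorem p_ordE : ComputablePred fun p : ℕ × ℕ × ℕ => ordE p.1 p.2.1 p.2.2 := by
  have hx : Computable fun p : ℕ × ℕ × ℕ => ofNat (List ℕ) p.2.1 :=
    (Computable.ofNat (List ℕ)).comp (c_fst (c_snd c_id))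
  have hy : Computable fun p : ℕ × ℕ × ℕ => ofNat (List ℕ) p.2.2 :=
    (Computable.ofNat (List ℕ)).comp (c_snd (c_snd c_id))
  have h1 : ComputablePred fun p : ℕ × ℕ × ℕ => UT p.1 p.1 (ofNat (List ℕ) p.2.1) :=
    p_UT (c_fst c_id) (c_fst c_id) hx
  have h2 : ComputablePred fun p : ℕ × ℕ × ℕ => UT p.1 p.1 (ofNat (List ℕ) p.2.2) :=
    p_UT (c_fst c_id) (c_fst c_id) hy
  have h3 : ComputablePred fun p : ℕ × ℕ × ℕ =>
      kb (ofNat (List ℕ) p.2.1) (ofNat (List ℕ) p.2.2) := p_kb hx hy
  have h4 : ComputablePred fun p : ℕ × ℕ × ℕ => p.2.1 < p.2.2 :=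
    p_lt (c_fst (c_snd c_id)) (c_snd (c_snd c_id))
  exact p_or (p_and h1 (p_and h2 h3)) (p_or (p_and h1 (p_not h2))
    (p_and (p_not h1) (p_and (p_not h2) h4)))

theorem not_sigma_diag : ¬ Sigma11 fun e => ¬ UU1 e e := by
  intro h
  obtain ⟨e, he⟩ := universal11 h
  have := he e
  tauto

end Pool.Agent.Helper941.Hyp
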