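import Mathlib
import Pool.Agent.Helper941.Hyp.KB

set_option autoImplicit false
set_option maxHeartbeats 400000

namespace Pool.Agent.Helper941.Hyp

open Encodable Denumerable Nat.Partrec Pool.Agent.Helper941 Pool.Agent.Helper941.IsoProb
open Pool.Agent.Helper941.Zeta Pool.Agent.Helper941.Dim

/-! ### simulations of trees -/

/-- the tree `S` above `l` is simulated in the tree `S'` above `m` -/
def Sim (S S' : List ℕ → Prop) (l m : List ℕ) : Prop :=
  ∃ g : ℕ → ℕ, g (encode (l, m)) = 1 ∧ ∀ q : List ℕ × List ℕ, g (encode q) = 1 →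
    ∀ a, S (q.1 ++ [a]) → ∃ b, S' (q.2 ++ [b]) ∧ g (encode (q.1 ++ [a], q.2 ++ [b])) = 1

variable {S S' : List ℕ → Prop}

theorem sim_iff {l m : List ℕ} : Sim S S' l m ↔ ∀ a, S (l ++ [a]) →
    ∃ b, S' (m ++ [b]) ∧ Sim S S' (l ++ [a]) (m ++ [b]) := by
  classical
  have key : ∀ {l m : List ℕ}, Sim S S' l m → ∀ a, S (l ++ [a]) →
      ∃ b, S' (m ++ [b]) ∧ Sim S S' (l ++ [a]) (m ++ [b]) := by
    rintro l m ⟨g, h1, h2⟩ a ha
    obtain ⟨b, hb, hb'⟩ := h2 (l, m) h1 a ha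
    exact ⟨b, hb, g, hb', h2⟩
  refine ⟨key, fun h => ?_⟩
  let G : List ℕ × List ℕ → Prop := fun q => Sim S S' q.1 q.2 ∨ q = (l, m)
  have hG : ∀ q, (fun n => if G (ofNat (List ℕ × List ℕ) n) then 1 else 0) (encode q) = 1 ↔
      G q := by
    intro q
    simp only [ofNat_encode]
    by_cases h : G q <;> simp [h]
  refine ⟨fun n => if G (ofNat (List ℕ × List ℕ) n) then 1 else 0, (hG _).2 (Or.inr rfl),
    fun q hq a ha => ?_⟩
  rcases (hG q).1 hq with h1 | rfl
  · obtain ⟨b, hb, hb'⟩ := key h1 a ha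
    exact ⟨b, hb, (hG _).2 (Or.inl hb')⟩
  · obtain ⟨b, hb, hb'⟩ := h a ha
    exact ⟨b, hb, (hG _).2 (Or.inl hb')⟩

theorem seg_succ (f : ℕ → ℕ) (n : ℕ) : seg f (n + 1) = seg f n ++ [f n] := by
  unfold seg
  rw [List.range_succ, List.map_append]
  rfl

/-- simulations preserve paths -/
theorem sim_path {l m : List ℕ} (h : Sim S S' l m) {f : ℕ → ℕ}
    (hf : ∀ n, S (l ++ seg f n)) : ∃ f' : ℕ → ℕ, ∀ n, S' (m ++ seg f' (n + 1)) := by
  have step : ∀ n m', ∃ b, Sim S S' (l ++ seg f n) m' →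
      (S' (m' ++ [b]) ∧ Sim S S' (l ++ seg f (n + 1)) (m' ++ [b])) := by
    intro n m'
    by_cases hs : Sim S S' (l ++ seg f n) m'
    · have h1 := hf (n + 1)
      rw [seg_succ, ← List.append_assoc] at h1
      obtain ⟨b, hb, hb'⟩ := sim_iff.1 hs (f n) h1
      refine ⟨b, fun _ => ⟨hb, ?_⟩⟩
      rw [seg_succ, ← List.append_assoc]
      exact hb'
    · exact ⟨0, fun h => (hs h).elim⟩
  choose F hF using step
  let M : ℕ → List ℕ := fun n => Nat.rec m (fun n m' => m' ++ [F n m']) n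
  have hM : ∀ n, Sim S S' (l ++ seg f n) (M n) := by
    intro n
    induction n with
    | zero =>
      have : seg f 0 = [] := rfl
      rw [this, List.append_nil]
      exact h
    | succ n ih => exact (hF n _ ih).2
  have hM' : ∀ n, M n = m ++ seg (fun n => F n (M n)) n := by
    intro n
    induction n with
    | zero =>
      have : seg (fun n => F n (M n)) 0 = [] := rfl
      rw [this, List.append_nil]
      rfl
    | succ n ih =>
      rw [seg_succ, ← List.append_assoc, ← ih]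
  refine ⟨fun n => F n (M n), fun n => ?_⟩
  rw [← hM']
  exact (hF n _ (hM n)).1

/-- comparability -/
theorem sim_comp (hT : IsTr S) (h : ¬ ∃ f : ℕ → ℕ, ∀ n, S (seg f n)) (l : List ℕ) :
    ∀ m, Sim S S' l m ∨ ∃ a, S (l ++ [a]) ∧ Sim S' S m (l ++ [a]) := by
  induction l using (ex1_wf hT h).induction with
  | h l ih =>
    intro m
    by_cases hc : ∀ a, S (l ++ [a]) → ∃ b, S' (m ++ [b]) ∧ Sim S S' (l ++ [a]) (m ++ [b])
    · exact Or.inl (sim_iff.2 hc)
    · push Not at hc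
      obtain ⟨a, ha, hb⟩ := hc
      refine Or.inr ⟨a, ha, sim_iff.2 fun b hb' => ?_⟩
      exact (ih (l ++ [a]) ⟨ha, a, rfl⟩ (m ++ [b])).resolve_left (hb b hb')

/-! ### complexity -/

variable {α : Type} [Primcodable α]

theorem sigma_UU1 {x y : α → ℕ} (hx : Computable x) (hy : Computable y) :
    Sigma11 fun a => UU1 (x a) (y a) :=
  ⟨fun p => UT (x p.1) (y p.1) p.2, p_UT (hx.comp (c_fst c_id)) (hy.comp (c_fst c_id))
    (c_snd c_id), fun _ => Iff.rfl⟩

theorem sigma_Sim {x y z : α → ℕ} {l m : α → List ℕ} (hx : Computable x) (hy : Computable y)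
    (hz : Computable z) (hl : Computable l) (hm : Computable m) :
    Sigma11 fun a => Sim (UT (x a) (z a)) (UT (y a) (z a)) (l a) (m a) := by
  have h1 : DelF fun (g : ℕ → ℕ) (a : α) => g (encode (l a, m a)) = 1 :=
    DelF.atom (Computable.encode.comp (c_pair hl hm)) (P := fun z : α × ℕ => z.2 = 1)
      (p_eq (c_snd c_id) (c_const 1))
  have hE : ∀ {γ : Type} [Primcodable γ] {u v : γ → List ℕ} {w : γ → ℕ} (_ : Computable u)
      (_ : Computable v) (_ : Computable w),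
      Computable fun c => u c ++ [w c] := by
    intro γ _ u v w hu _ hw
    exact (Primrec.list_append.to_comp).comp hu (Computable.list_cons.comp hw (c_const []))
  -- the inner statement
  have h2 : DelF fun (g : ℕ → ℕ) (p : ((α × List ℕ × List ℕ) × ℕ) × ℕ) =>
      UT (y p.1.1.1) (z p.1.1.1) (p.1.1.2.2 ++ [p.2]) ∧
        g (encode (p.1.1.2.1 ++ [p.1.2], p.1.1.2.2 ++ [p.2])) = 1 := by
    have e1 : Computable fun p : ((α × List ℕ × List ℕ) × ℕ) × ℕ => p.1.1.1 :=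
      c_fst (c_fst (c_fst c_id))
    have e2 : Computable fun p : ((α × List ℕ × List ℕ) × ℕ) × ℕ => p.1.1.2.1 :=
      c_fst (c_snd (c_fst (c_fst c_id)))
    have e3 : Computable fun p : ((α × List ℕ × List ℕ) × ℕ) × ℕ => p.1.1.2.2 :=
      c_snd (c_snd (c_fst (c_fst c_id)))
    have e4 : Computable fun p : ((α × List ℕ × List ℕ) × ℕ) × ℕ => p.1.1.2.1 ++ [p.1.2] :=
      hE e2 e2 (c_snd (c_fst c_id))
    have e5 : Computable fun p : ((α × List ℕ × List ℕ) × ℕ) × ℕ => p.1.1.2.2 ++ [p.2] :=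
      hE e3 e3 (c_snd c_id)
    exact (DelF.of_computable (p_UT (hy.comp e1) (hz.comp e1) e5)).and
      (DelF.atom (x := fun p : ((α × List ℕ × List ℕ) × ℕ) × ℕ =>
        encode (p.1.1.2.1 ++ [p.1.2], p.1.1.2.2 ++ [p.2]))
        (Computable.encode.comp (c_pair e4 e5)) (P := fun z => z.2 = 1)
        (p_eq (c_snd c_id) (c_const 1)))
  have h3 : DelF fun (g : ℕ → ℕ) (p : (α × List ℕ × List ℕ) × ℕ) => ∃ b,
      UT (y p.1.1) (z p.1.1) (p.1.2.2 ++ [b]) ∧
        g (encode (p.1.2.1 ++ [p.2], p.1.2.2 ++ [b])) = 1 := DelF.ex h2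
  have h4 : DelF fun (_ : ℕ → ℕ) (p : (α × List ℕ × List ℕ) × ℕ) =>
      UT (x p.1.1) (z p.1.1) (p.1.2.1 ++ [p.2]) := by
    have e1 : Computable fun p : (α × List ℕ × List ℕ) × ℕ => p.1.1 := c_fst (c_fst c_id)
    have e2 : Computable fun p : (α × List ℕ × List ℕ) × ℕ => p.1.2.1 :=
      c_fst (c_snd (c_fst c_id))
    exact DelF.of_computable (p_UT (hx.comp e1) (hz.comp e1) (hE e2 e2 (c_snd c_id)))
  have h5 : DelF fun (g : ℕ → ℕ) (p : α × List ℕ × List ℕ) => ∀ a,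
      UT (x p.1) (z p.1) (p.2.1 ++ [a]) → ∃ b, UT (y p.1) (z p.1) (p.2.2 ++ [b]) ∧
        g (encode (p.2.1 ++ [a], p.2.2 ++ [b])) = 1 :=
    DelF.all (P := fun (g : ℕ → ℕ) (p : (α × List ℕ × List ℕ) × ℕ) =>
      UT (x p.1.1) (z p.1.1) (p.1.2.1 ++ [p.2]) → ∃ b,
      UT (y p.1.1) (z p.1.1) (p.1.2.2 ++ [b]) ∧
        g (encode (p.1.2.1 ++ [p.2], p.1.2.2 ++ [b])) = 1) (h4.imp h3)
  have h6 : DelF fun (g : ℕ → ℕ) (p : α × List ℕ × List ℕ) => g (encode p.2) = 1 :=
    DelF.atom (x := fun p : α × List ℕ × List ℕ => encode p.2)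
      (Computable.encode.comp (c_snd c_id)) (P := fun z => z.2 = 1)
      (p_eq (c_snd c_id) (c_const 1))
  have h7 : DelF fun (g : ℕ → ℕ) (a : α) => ∀ q : List ℕ × List ℕ, g (encode q) = 1 →
      ∀ c, UT (x a) (z a) (q.1 ++ [c]) → ∃ b, UT (y a) (z a) (q.2 ++ [b]) ∧
        g (encode (q.1 ++ [c], q.2 ++ [b])) = 1 :=
    DelF.all' (P := fun (g : ℕ → ℕ) (p : α × List ℕ × List ℕ) => g (encode p.2) = 1 →
      ∀ c, UT (x p.1) (z p.1) (p.2.1 ++ [c]) → ∃ b, UT (y p.1) (z p.1) (p.2.2 ++ [b]) ∧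
        g (encode (p.2.1 ++ [c], p.2.2 ++ [b])) = 1) (h6.imp h5)
  exact (h1.and h7).1.exf

/-! ### a `Σ¹₁` class without `Δ¹₁` members -/

def N0 (e : ℕ) : Prop := UU1 e.unpair.1 e ∨
  ∃ a, UT e.unpair.1 e ([] ++ [a]) ∧ Sim (UT e.unpair.2 e) (UT e.unpair.1 e) [] ([] ++ [a])

def N1 (e : ℕ) : Prop := UU1 e.unpair.2 e ∨ Sim (UT e.unpair.1 e) (UT e.unpair.2 e) [] []

theorem sigma_N0 : Sigma11 N0 := by
  have hE : Computable fun p : ℕ × ℕ => ([] : List ℕ) ++ [p.2] :=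
    (Primrec.list_append.to_comp).comp (c_const []) (Computable.list_cons.comp (c_snd c_id)
      (c_const []))
  have h1 : Sigma11 fun p : ℕ × ℕ => UT p.1.unpair.1 p.1 ([] ++ [p.2]) :=
    Sigma11.of_computable (p_UT (c_up1 (c_fst c_id)) (c_fst c_id) hE)
  have h2 : Sigma11 fun p : ℕ × ℕ =>
      Sim (UT p.1.unpair.2 p.1) (UT p.1.unpair.1 p.1) [] ([] ++ [p.2]) :=
    sigma_Sim (c_up2 (c_fst c_id)) (c_up1 (c_fst c_id)) (c_fst c_id) (c_const []) hE
  exact (sigma_UU1 (c_up1 c_id) c_id).or (h1.and h2).ex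

theorem sigma_N1 : Sigma11 N1 :=
  (sigma_UU1 (c_up2 c_id) c_id).or
    (sigma_Sim (c_up1 c_id) (c_up2 c_id) c_id (c_const []) (c_const []))

theorem n0_or_n1 (e : ℕ) : N0 e ∨ N1 e := by
  by_cases h0 : UU1 e.unpair.1 e
  · exact Or.inl (Or.inl h0)
  · rcases sim_comp (S := UT e.unpair.1 e) (S' := UT e.unpair.2 e) (isTr_UT _ _) h0 [] []
      with h | h
    · exact Or.inr (Or.inr h)
    · exact Or.inl (Or.inr h)

/-- the class -/
def Fc (X : ℕ → ℕ) : Prop := ∀ e, (X e = 0 ∧ N0 e) ∨ (X e ≠ 0 ∧ N1 e)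

theorem exists_Fc : ∃ X, Fc X := by
  classical
  refine ⟨fun e => if N0 e then 0 else 1, fun e => ?_⟩
  by_cases h : N0 e
  · exact Or.inl ⟨by simp [h], h⟩
  · exact Or.inr ⟨by simp [h], (n0_or_n1 e).resolve_left h⟩

theorem not_Fc {X : ℕ → ℕ} (hX : Delta11 fun p : ℕ × ℕ => X p.1 = p.2) : ¬ Fc X := by
  intro hF
  have h0 : Delta11 fun x : ℕ => X x = 0 := hX.comp (c_pair c_id (c_const 0))
  obtain ⟨e0, he0⟩ := universal11 h0.not.1
  obtain ⟨e1, he1⟩ := universal11 h0.1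
  set e := Nat.pair e0 e1 with he
  have E0 : ¬ X e = 0 ↔ UU1 e.unpair.1 e := by
    rw [he, Nat.unpair_pair]; exact he0 _
  have E1 : X e = 0 ↔ UU1 e.unpair.2 e := by
    rw [he, Nat.unpair_pair]; exact he1 _
  have path : ∀ {x : ℕ} {m : List ℕ}, (∃ f : ℕ → ℕ, ∀ n, UT x e (m ++ seg f (n + 1))) →
      UU1 x e := by
    rintro x m ⟨f, hf⟩
    -- prepend `m`
    refine ⟨fun i => if i < m.length then gt m i else f (i - m.length), fun n => ?_⟩
    have h1 : UT x e (m ++ seg f (n + 1)) := hf n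
    have h2 : (List.range n).map (fun i => if i < m.length then gt m i else
        f (i - m.length)) = (m ++ seg f (n + 1)).take n := by
      refine List.ext_getElem (by simp [seg]; omega) fun i hi hi' => ?_
      simp only [List.length_map, List.length_range] at hi
      rw [List.getElem_map, List.getElem_range, List.getElem_take]
      by_cases h3 : i < m.length
      · rw [if_pos h3, List.getElem_append_left h3]
        simp [gt, h3]
      · rw [if_neg h3, List.getElem_append_right (by omega)]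
        simp [seg]
    rw [h2]
    have h3 : m ++ seg f (n + 1) = (m ++ seg f (n + 1)).take n ++
        (m ++ seg f (n + 1)).drop n := (List.take_append_drop _ _).symm
    rw [h3] at h1
    exact isTr_UT _ _ _ _ h1
  have nil : ∀ {x : ℕ}, UU1 x e → ∃ f : ℕ → ℕ, ∀ n, UT x e ([] ++ seg f n) := fun h => h
  rcases hF e with ⟨h1, h2⟩ | ⟨h1, h2⟩
  · rcases h2 with h2 | ⟨a, _, h2⟩
    · exact E0.2 h2 h1
    · obtain ⟨f, hf⟩ := nil (E1.1 h1)
      obtain ⟨f', hf'⟩ := sim_path h2 hf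
      exact E0.2 (path ⟨f', hf'⟩) h1
  · rcases h2 with h2 | h2
    · exact h1 (E1.2 h2)
    · obtain ⟨f, hf⟩ := nil (E0.1 h1)
      obtain ⟨f', hf'⟩ := sim_path h2 hf
      exact h1 (E1.2 (path ⟨f', hf'⟩))

theorem sigF_Fc : SigF fun (g : ℕ → ℕ) (_ : Unit) => Fc g := by
  have h1 : SigF fun (g : ℕ → ℕ) (p : Unit × ℕ) => g p.2 = 0 :=
    SigF.atom (x := fun p : Unit × ℕ => p.2) (c_snd c_id) (P := fun z => z.2 = 0)
      (p_eq (c_snd c_id) (c_const 0))
  have h2 : SigF fun (g : ℕ → ℕ) (p : Unit × ℕ) => g p.2 ≠ 0 :=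
    SigF.atom (x := fun p : Unit × ℕ => p.2) (c_snd c_id) (P := fun z => z.2 ≠ 0)
      (p_not (p_eq (c_snd c_id) (c_const 0)))
  have h3 : SigF fun (_ : ℕ → ℕ) (p : Unit × ℕ) => N0 p.2 :=
    SigF.of_sigma (sigma_N0.comp (c_snd c_id))
  have h4 : SigF fun (_ : ℕ → ℕ) (p : Unit × ℕ) => N1 p.2 :=
    SigF.of_sigma (sigma_N1.comp (c_snd c_id))
  exact SigF.all (P := fun (g : ℕ → ℕ) (p : Unit × ℕ) => (g p.2 = 0 ∧ N0 p.2) ∨
    (g p.2 ≠ 0 ∧ N1 p.2)) ((h1.and h3).or (h2.and h4))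

/-- Kleene: there is a computable tree with a path but without a `Δ¹₁` path -/
theorem kleene : ∃ T : List ℕ → Prop, ComputablePred T ∧ IsTr T ∧
    (∃ f : ℕ → ℕ, ∀ n, T (seg f n)) ∧
    ∀ f : ℕ → ℕ, (Delta11 fun p : ℕ × ℕ => f p.1 = p.2) → ¬ ∀ n, T (seg f n) := by
  obtain ⟨R, hR, h⟩ := sigF_Fc
  let m1 : List ℕ → List ℕ := fun l => l.map fun x => x.unpair.1
  let m2 : List ℕ → List ℕ := fun l => l.map fun x => x.unpair.2
  have hm1 : Computable m1 := (Primrec.list_map Primrec.id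
    ((Primrec.fst.comp (Primrec.unpair.comp Primrec.snd)).to₂)).to_comp
  have hm2 : Computable m2 := (Primrec.list_map Primrec.id
    ((Primrec.snd.comp (Primrec.unpair.comp Primrec.snd)).to₂)).to_comp
  have hT : ComputablePred fun l : List ℕ => ∀ m < l.length + 1,
      R ((), m1 (tk l m), m2 (tk l m)) := by
    have e1 : Computable fun p : List ℕ × ℕ => tk p.1 p.2 := c_tk (c_fst c_id) (c_snd c_id)
    exact p_ball (c_succ (Computable.list_length.comp c_id))
      (computablePred_comp hR (c_pair (c_const ()) (c_pair (hm1.comp e1) (hm2.comp e1))))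
  have key : ∀ f : ℕ → ℕ, (∀ n, ∀ m < (seg f n).length + 1,
      R ((), m1 (tk (seg f n) m), m2 (tk (seg f n) m))) ↔
      ∀ n, R ((), seg (fun i => (f i).unpair.1) n, seg (fun i => (f i).unpair.2) n) := by
    intro f
    have e : ∀ n m, m ≤ n → m1 (tk (seg f n) m) = seg (fun i => (f i).unpair.1) m ∧
        m2 (tk (seg f n) m) = seg (fun i => (f i).unpair.2) m := by
      intro n m hm
      rw [tk_seg f hm]
      constructor
      · show List.map _ _ = _
        unfold seg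
        rw [List.map_map]
        rfl
      · show List.map _ _ = _
        unfold seg
        rw [List.map_map]
        rfl
    constructor
    · intro h1 n
      have := h1 n n (by rw [seg_len]; omega)
      rwa [(e n n (le_refl n)).1, (e n n (le_refl n)).2] at this
    · intro h1 n m hm
      rw [seg_len] at hm
      rw [(e n m (by omega)).1, (e n m (by omega)).2]
      exact h1 m
  refine ⟨fun l => ∀ m < l.length + 1, R ((), m1 (tk l m), m2 (tk l m)), hT, ?_, ?_, ?_⟩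
  · intro l k hl m hm
    have := hl m (by rw [List.length_append]; omega)
    rwa [tk_append (by omega)] at this
  · obtain ⟨X, hX⟩ := exists_Fc
    obtain ⟨f, hf⟩ := (h X ()).1 hX
    refine ⟨fun i => Nat.pair (X i) (f i), (key _).2 ?_⟩
    simp only [Nat.unpair_pair]
    exact hf
  · intro f hf hp
    have h1 := (key f).1 hp
    have h2 : Fc fun i => (f i).unpair.1 := (h _ ()).2 ⟨_, h1⟩
    refine not_Fc ?_ h2
    have h3 : Delta11 fun p : (ℕ × ℕ) × ℕ => f p.1.1 = p.2 :=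
      hf.comp (c_pair (c_fst (c_fst c_id)) (c_snd c_id))
    have h4 : Delta11 fun p : (ℕ × ℕ) × ℕ => p.2.unpair.1 = p.1.2 :=
      Delta11.of_computable (p_eq (c_up1 (c_snd c_id)) (c_snd (c_fst c_id)))
    refine (h3.and h4).ex.of_iff fun p => ?_
    constructor
    · intro e
      exact ⟨f p.1, rfl, e⟩
    · rintro ⟨y, e1, e2⟩
      have e1' : f p.1 = y := e1
      rw [e1']
      exact e2

end Pool.Agent.Helper941.Hyp
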