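import Mathlib
import Pool.Agent.Helper941.Hyp.Defs

set_option autoImplicit false

namespace Pool.Agent.Helper941.Hyp

variable {ar : ℕ → ℕ}

/-- `f` is an isomorphism from `A` onto `B`. -/
def IsIsoMap (A B : Struct ar) (f : ℕ ≃ ℕ) : Prop := ∀ i v, A i v ↔ B i fun k => f (v k)

/-- `A` is computably categorical: any two computable copies of `A` are isomorphic by a
computable isomorphism. -/
def CompCat (A : Struct ar) : Prop :=
  ∀ B C : Struct ar, IsComputable B → IsComputable C → Iso A B → Iso A C →
    ∃ f : ℕ ≃ ℕ, IsIsoMap B C f ∧ Computable f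

open Classical in
/-- the characteristic function of `X` -/
noncomputable def chi (X : ℕ → Prop) (n : ℕ) : ℕ := if X n then 1 else 0

/-- The predicates which are `Σ¹₁` relative to `X`, in normal form: `P a` holds iff there is a
function `f` such that the computable predicate `R` holds of `a` and all pairs consisting of
the initial segments of length `n` of the characteristic function of `X` and of `f`. -/
def Sigma11In {α : Type} [Primcodable α] (X : ℕ → Prop) (P : α → Prop) : Prop :=
  ∃ R : α × List ℕ × List ℕ → Prop, ComputablePred R ∧
    ∀ a, P a ↔ ∃ f : ℕ → ℕ, ∀ n, R (a, (List.range n).map (chi X), (List.range n).map f)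

/-- The predicates which are `Δ¹₁` relative to `X` (hyperarithmetic in `X`). -/
def Delta11In {α : Type} [Primcodable α] (X : ℕ → Prop) (P : α → Prop) : Prop :=
  Sigma11In X P ∧ Sigma11In X fun a => ¬ P a

/-- `A` is relatively hyperarithmetically categorical: for every copy `B` of `A` some
isomorphism from `A` onto `B` is hyperarithmetic in the atomic diagram of `B`. -/
def RelHypCat (A : Struct ar) : Prop :=
  ∀ B : Struct ar, Iso A B → ∃ f : ℕ ≃ ℕ, IsIsoMap A B f ∧
    Delta11In (Diag B) fun p : ℕ × ℕ => f p.1 = p.2

end Pool.Agent.Helper941.Hyp
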