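import Mathlib
import Pool.Agent.Helper941.Hyp.Ind
import Pool.Agent.Helper941.Hyp.SigF
import Pool.Agent.Helper941.Hyp.RelDefs

set_option autoImplicit false
set_option maxHeartbeats 400000

namespace Pool.Agent.Helper941.Hyp

open Encodable Denumerable Nat.Partrec Pool.Agent.Helper941 Pool.Agent.Helper941.IsoProb
open Pool.Agent.Helper941.Zeta Pool.Agent.Helper941.Dim

variable {pa t : ℕ → ℕ} {C : ℕ → Prop}

/-- the relations twisted by the set `C` -/
def RelC (pa : ℕ → ℕ) (C : ℕ → Prop) (i p q : ℕ) : Prop :=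
  (i.unpair.1 ≠ 3 ∧ Rel pa false i p q) ∨
  (i.unpair.1 = 3 ∧ 1 ≤ i.unpair.2 ∧ p.unpair.1 = pa i.unpair.2 ∧ q.unpair.1 = i.unpair.2 ∧
    (p.unpair.2.testBit i.unpair.2 = par q.unpair.2 ↔ ¬ C i.unpair.2))

/-- twisted flows -/
structure TFlow (pa : ℕ → ℕ) (C : ℕ → Prop) (t : ℕ → ℕ) : Prop where
  child : ∀ v u, (t v).testBit u = true → 1 ≤ u ∧ pa u = v
  par : ∀ u, 1 ≤ u → ((t (pa u)).testBit u = par (t u) ↔ ¬ C u)

theorem TFlow.valid (h : TFlow pa C t) {p : ℕ} (hp : Valid pa p) : Valid pa (sh t p) := by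
  intro u hu
  rw [sh_snd, Nat.testBit_xor] at hu
  rw [sh_fst]
  by_cases h1 : p.unpair.2.testBit u = true
  · exact hp u h1
  · simp only [Bool.not_eq_true] at h1
    rw [h1] at hu
    exact h.child _ _ (by simpa using hu)

theorem bool_aux {a b c d : Bool} {P : Prop} (h : c = d ↔ ¬ P) :
    a = b ↔ ((a ^^ c) = (b ^^ d) ↔ ¬ P) := by
  rw [← h]
  cases a <;> cases b <;> cases c <;> cases d <;> simp

theorem TFlow.rel (h : TFlow pa C t) {i p q : ℕ} (hi : i ≠ 0) :
    Rel pa false i p q ↔ RelC pa C i (sh t p) (sh t q) := by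
  have hinj : sh t p = sh t q ↔ p = q := by
    constructor
    · intro e
      rw [← sh_sh t p, e, sh_sh]
    · rintro rfl; rfl
  by_cases h3 : i.unpair.1 = 3
  · have hi' : i = Nat.pair 3 i.unpair.2 := by rw [← h3, Nat.pair_unpair]
    unfold RelC
    rw [sh_fst, sh_fst, sh_snd, sh_snd]
    set u := i.unpair.2 with hu
    rw [hi', rel_three]
    simp only [Nat.unpair_pair, ne_eq, not_true_eq_false, false_and, true_and, false_or]
    refine and_congr_right fun h1 => and_congr_right fun h2 => and_congr_right fun h4 => ?_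
    rw [h2, h4, Nat.testBit_xor, par_xor]
    exact bool_aux (h.par u h1)
  · have e : RelC pa C i (sh t p) (sh t q) ↔ Rel pa false i (sh t p) (sh t q) := by
      unfold RelC
      simp [h3]
    rw [e]
    unfold Dim.Rel
    refine or_congr ?_ (or_congr ?_ (or_congr ?_ ?_))
    · simp [hi]
    · rw [hinj, sh_fst]
    · rw [sh_fst, sh_fst, sh_snd, sh_snd]
      constructor
      · rintro ⟨h1, h2, h3, h4, h5⟩
        refine ⟨h1, h2, h3, h4, ?_⟩
        rw [h5, h3, h4, Nat.xor_assoc, Nat.xor_assoc, Nat.xor_comm (2 ^ _)]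
      · rintro ⟨h1, h2, h3, h4, h5⟩
        refine ⟨h1, h2, h3, h4, ?_⟩
        rw [h3, h4] at h5
        rw [Nat.xor_assoc, Nat.xor_comm (t _) (2 ^ _), ← Nat.xor_assoc] at h5
        exact Nat.xor_left_injective h5
    · simp [h3]

/-- the structure and its twisted copies -/
def AZ (pa : ℕ → ℕ) : Str := fun i x y => i ≠ 0 ∧ Rel pa false i (el pa x) (el pa y)

def TZ (pa : ℕ → ℕ) (C : ℕ → Prop) : Str := fun i x y =>
  i ≠ 0 ∧ RelC pa C i (el pa x) (el pa y)

theorem TFlow.iso (h : TFlow pa C t) : Iso (toS (AZ pa)) (toS (TZ pa C)) := by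
  have h0 : PIso pa (TZ pa C) fun p => idx pa (sh t p) := by
    refine ⟨fun i p q hi hp hq => ?_, fun p q hp hq e => ?_, fun z => ?_⟩
    · rw [h.rel hi]
      unfold TZ
      rw [el_idx (h.valid hp), el_idx (h.valid hq)]
      simp [hi]
    · have e1 : sh t p = sh t q := by
        rw [← el_idx (h.valid hp), e, el_idx (h.valid hq)]
      rw [← sh_sh t p, e1, sh_sh]
    · refine ⟨sh t (el pa z), h.valid (el_valid pa z), ?_⟩
      rw [sh_sh, idx_el]
  obtain ⟨f, h1, _⟩ := h0.toIso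
  refine iso_toS.2 ⟨f, fun i x y => ?_⟩
  by_cases hi : i = 0
  · subst hi
    unfold AZ TZ
    simp
  · rw [← h1 i x y hi]
    unfold AZ
    simp [hi]

/-- isomorphisms give twisted flows -/
theorem tflow_of_iso {f : ℕ ≃ ℕ} (hf : ∀ i x y, AZ pa i x y ↔ TZ pa C i (f x) (f y)) :
    TFlow pa C fun v => (el pa (f (idx pa (Nat.pair v 0)))).unpair.2 := by
  have hrel : ∀ i p q, i ≠ 0 → Valid pa p → Valid pa q →
      (Rel pa false i p q ↔ RelC pa C i (el pa (f (idx pa p))) (el pa (f (idx pa q)))) := by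
    intro i p q hi hp hq
    have := hf i (idx pa p) (idx pa q)
    unfold AZ TZ at this
    rw [el_idx hp, el_idx hq] at this
    simpa [hi] using this
  have hb : ∀ v, (el pa (f (idx pa (Nat.pair v 0)))).unpair.1 = v := by
    intro v
    have h1 := (hrel (Nat.pair 1 v) _ _ (pair_ne_zero (by omega)) (valid_base _ v)
      (valid_base _ v)).1 (rel_one.2 ⟨rfl, by rw [Nat.unpair_pair]⟩)
    rcases h1 with ⟨_, h1⟩ | ⟨h1, _⟩
    · exact (rel_one.1 h1).2
    · rw [Nat.unpair_pair] at h1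
      simp at h1
  constructor
  · intro v u hu
    have := el_valid pa (f (idx pa (Nat.pair v 0))) u hu
    rwa [hb] at this
  · intro u hu
    have h1 := (hrel (Nat.pair 3 u) (Nat.pair (pa u) 0) (Nat.pair u 0)
      (pair_ne_zero (by omega)) (valid_base _ _) (valid_base _ _)).1 (rel_three.2 (by
        rw [Nat.unpair_pair, Nat.unpair_pair]
        exact ⟨hu, rfl, rfl, by rw [Nat.zero_testBit]; rfl⟩))
    rcases h1 with ⟨h1, _⟩ | ⟨_, _, _, _, h1⟩
    · rw [Nat.unpair_pair] at h1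
      simp at h1
    · rw [Nat.unpair_pair] at h1
      exact h1

/-! ### complexity of the twisted copies -/

theorem az_comp (hpa : Computable pa) : IsComp (AZ pa) := by
  have hel : Computable (el pa) := c_el hpa
  have hi : Computable fun q : ℕ × ℕ × ℕ => q.1 := c_fst c_id
  have h1 : ComputablePred fun q : ℕ × ℕ × ℕ =>
      Rel pa false q.1 (el pa q.2.1) (el pa q.2.2) :=
    computablePred_comp (P := fun q : ℕ × ℕ × ℕ => Rel pa false q.1 q.2.1 q.2.2)
      (p_rel hpa false) (c_pair hi (c_pair (hel.comp (c_fst (c_snd c_id)))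
        (hel.comp (c_snd (c_snd c_id)))))
  exact p_and (p_not (p_eq hi (c_const 0))) h1

theorem tz_delta (hpa : Computable pa) (hC : Delta11 C) :
    Delta11 fun q : ℕ × ℕ × ℕ => TZ pa C q.1 q.2.1 q.2.2 := by
  have hel : Computable (el pa) := c_el hpa
  have hi : Computable fun q : ℕ × ℕ × ℕ => q.1 := c_fst c_id
  have hp : Computable fun q : ℕ × ℕ × ℕ => el pa q.2.1 := hel.comp (c_fst (c_snd c_id))
  have hq : Computable fun q : ℕ × ℕ × ℕ => el pa q.2.2 := hel.comp (c_snd (c_snd c_id))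
  have h1 : Delta11 fun q : ℕ × ℕ × ℕ => Rel pa false q.1 (el pa q.2.1) (el pa q.2.2) :=
    Delta11.of_computable (computablePred_comp
      (P := fun q : ℕ × ℕ × ℕ => Rel pa false q.1 q.2.1 q.2.2)
      (p_rel hpa false) (c_pair hi (c_pair hp hq)))
  have h2 : Delta11 fun q : ℕ × ℕ × ℕ => q.1 ≠ 0 :=
    Delta11.of_computable (p_not (p_eq hi (c_const 0)))
  have h3 : Delta11 fun q : ℕ × ℕ × ℕ => q.1.unpair.1 = 3 :=
    Delta11.of_computable (p_eq (c_up1 hi) (c_const 3))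
  have h4 : Delta11 fun q : ℕ × ℕ × ℕ => 1 ≤ q.1.unpair.2 ∧
      (el pa q.2.1).unpair.1 = pa q.1.unpair.2 ∧ (el pa q.2.2).unpair.1 = q.1.unpair.2 :=
    Delta11.of_computable (p_and (p_le (c_const 1) (c_up2 hi)) (p_and
      (p_eq (c_up1 hp) (hpa.comp (c_up2 hi))) (p_eq (c_up1 hq) (c_up2 hi))))
  have h5 : Delta11 fun q : ℕ × ℕ × ℕ =>
      (el pa q.2.1).unpair.2.testBit q.1.unpair.2 = par (el pa q.2.2).unpair.2 :=
    Delta11.of_computable (p_eqb (c_testBit (c_up2 hp) (c_up2 hi)) (c_par (c_up2 hq)))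
  have h6 : Delta11 fun q : ℕ × ℕ × ℕ => C q.1.unpair.2 := hC.comp (c_up2 hi)
  refine (h2.and ((h3.not.and h1).or (h3.and (h4.and (h5.iff h6.not))))).of_iff fun q => ?_
  unfold TZ RelC
  tauto

theorem diag_delta {B : Str} (hB : Delta11 fun q : ℕ × ℕ × ℕ => B q.1 q.2.1 q.2.2) :
    Delta11 (Diag (toS B)) := by
  have hl : Computable fun x : ℕ => ofNat (List ℕ) x.unpair.2 :=
    (Computable.ofNat (List ℕ)).comp (c_up2 c_id)
  have h1 : Delta11 fun x : ℕ => (ofNat (List ℕ) x.unpair.2).length = 2 :=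
    Delta11.of_computable (p_eq (Computable.list_length.comp hl) (c_const 2))
  have h2 : Delta11 fun x : ℕ => B x.unpair.1 (gt (ofNat (List ℕ) x.unpair.2) 0)
      (gt (ofNat (List ℕ) x.unpair.2) 1) :=
    hB.comp (c_pair (c_up1 c_id) (c_pair (c_gt hl (c_const 0)) (c_gt hl (c_const 1))))
  exact (h1.and h2).of_iff fun x => diag_iff B x

/-! ### transitivity of hyperarithmetic reducibility -/

theorem delF_chi {α : Type} [Primcodable α] {X : ℕ → Prop} (hX : Delta11 X) :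
    DelF fun (g : ℕ → ℕ) (_ : α) => g = chi X := by
  have h1 : DelF fun (g : ℕ → ℕ) (p : α × ℕ) => g p.2 = 1 :=
    DelF.atom (x := fun p : α × ℕ => p.2) (c_snd c_id) (P := fun z => z.2 = 1)
      (p_eq (c_snd c_id) (c_const 1))
  have h0 : DelF fun (g : ℕ → ℕ) (p : α × ℕ) => g p.2 = 0 :=
    DelF.atom (x := fun p : α × ℕ => p.2) (c_snd c_id) (P := fun z => z.2 = 0)
      (p_eq (c_snd c_id) (c_const 0))
  have h2 : DelF fun (_ : ℕ → ℕ) (p : α × ℕ) => X p.2 := DelF.of_delta (hX.comp (c_snd c_id))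
  have h3 : DelF fun (g : ℕ → ℕ) (_ : α) => ∀ n, (X n → g n = 1) ∧ (¬ X n → g n = 0) :=
    DelF.all (P := fun (g : ℕ → ℕ) (p : α × ℕ) => (X p.2 → g p.2 = 1) ∧
      (¬ X p.2 → g p.2 = 0)) ((h2.imp h1).and (h2.not.imp h0))
  refine h3.of_iff fun g _ => ?_
  constructor
  · rintro rfl n
    unfold chi
    exact ⟨fun h => if_pos h, fun h => if_neg h⟩
  · intro h
    funext n
    unfold chi
    split_ifs with hn
    · exact (h n).1 hn
    · exact (h n).2 hn

theorem sigma_of_in {α : Type} [Primcodable α] {X : ℕ → Prop} (hX : Delta11 X)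
    {P : α → Prop} (h : Sigma11In X P) : Sigma11 P := by
  obtain ⟨R, hR, e⟩ := h
  have h1 : SigF fun (g : ℕ → ℕ) (a : α) => ∃ f : ℕ → ℕ, ∀ n, R (a, seg g n, seg f n) :=
    ⟨R, hR, fun _ _ => Iff.rfl⟩
  refine ((delF_chi hX).1.and h1).exf.of_iff fun a => ?_
  rw [e]
  constructor
  · intro h2
    exact ⟨chi X, rfl, h2⟩
  · rintro ⟨g, rfl, h2⟩
    exact h2

theorem delta_of_in {α : Type} [Primcodable α] {X : ℕ → Prop} (hX : Delta11 X)
    {P : α → Prop} (h : Delta11In X P) : Delta11 P :=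
  ⟨sigma_of_in hX h.1, sigma_of_in hX h.2⟩

end Pool.Agent.Helper941.Hyp
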