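import Mathlib
import Pool.Agent.Helper941.Hyp.Tw
import Pool.Agent.Helper941.Hyp.Kl
import Pool.Agent.Helper941.Dim.Flip

set_option autoImplicit false
set_option maxHeartbeats 400000

namespace Pool.Agent.Helper941.Hyp

open Encodable Denumerable Nat.Partrec Pool.Agent.Helper941 Pool.Agent.Helper941.IsoProb
open Pool.Agent.Helper941.Zeta Pool.Agent.Helper941.Dim

/-- chains of nodes give paths of labels -/
theorem path_of_chain {T : ℕ → Prop} {pr : ℕ → ℕ} {d : Dat} (hS : Spec T pr d)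
    (hT : TH T pr) {a : ℕ → ℕ} (h0 : a 0 = 0)
    (hp : ∀ k, 1 ≤ a (k + 1) ∧ d.pa (a (k + 1)) = a k) :
    IsPath T pr fun k => d.J (a k) - 1 := by
  have hJ : ∀ k, d.J (a (k + 1)) ≠ 0 := by
    intro k hc
    obtain ⟨h2, h3⟩ := hp (k + 1)
    by_cases h4 : d.J (a (k + 1 + 1)) = 0
    · have h5 := hS.leaf h2 h4
      have := (hp k).1
      omega
    · obtain ⟨j, hj⟩ : ∃ j, d.J (a (k + 1 + 1)) = j + 1 :=
        ⟨d.J (a (k + 1 + 1)) - 1, by omega⟩
      obtain ⟨_, _, _, h5, _⟩ := hS.child hT h2 hj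
      have := h5.1
      rw [h3, hc] at this
      omega
  have hc : ∀ k, 1 ≤ d.J (a (k + 1)) - 1 ∧ T (d.J (a (k + 1)) - 1) ∧
      pr (d.J (a (k + 1)) - 1) = d.J (a k) - 1 := by
    intro k
    have h2 := hJ k
    obtain ⟨h3, h4, _, h5, _⟩ := hS.child hT (hp k).1
      (show d.J (a (k + 1)) = (d.J (a (k + 1)) - 1) + 1 by omega)
    refine ⟨h3, h4, ?_⟩
    have := h5.1
    rw [(hp k).2] at this
    omega
  refine ⟨?_, fun k => (hc k).1, fun k => (hc k).2.2, fun k => (hc k).2.1⟩
  show d.J (a 0) - 1 = 0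
  rw [h0, hS.zero.1]

/-! ### the tree consisting of infinitely many copies of a tree -/

section
variable (T0 : List ℕ → Prop)

def TX (j : ℕ) : Prop := T0 (pre j (len j - 1))

variable {T0}

theorem th_TX (htr : IsTr T0) (hnil : T0 []) : TH (TX T0) prn where
  zero := by
    unfold TX
    rw [len_zero]
    exact hnil
  up := by
    intro j hj h
    have h1 := len_prn hj
    unfold TX at *
    by_cases h2 : len (prn j) = 0
    · rw [h2]
      exact hnil
    · obtain ⟨n, hn⟩ : ∃ n, len (prn j) = n + 1 := ⟨len (prn j) - 1, by omega⟩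
      have h3 : len j - 1 = n + 1 := by omega
      rw [h3] at h
      rw [hn, Nat.add_sub_cancel]
      have h4 : pre j (n + 1) = pre (prn j) n ++ [dig j (n + 1)] := by
        unfold pre
        rw [List.range_succ, List.map_append]
        congr 1
        refine List.map_congr_left fun i hi => ?_
        have := List.mem_range.1 hi
        exact (dig_prn hj (by omega)).symm
      rw [h4] at h
      exact htr _ _ h
  lt := fun _ hj => prn_lt hj

theorem p_TX (hc : ComputablePred T0) : ComputablePred (TX T0) := by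
  have h1 : Computable fun j : ℕ => pre j (len j - 1) :=
    c_tab (c_sub (c_lenj c_id) (c_const 1)) (c_dig (c_fst c_id) (c_succ (c_snd c_id)))
  exact computablePred_comp hc h1

theorem tx_nod (g : ℕ → ℕ) (n : ℕ) : TX T0 (nod g (n + 1)) ↔ T0 (seg (fun i => g (i + 1)) n) := by
  unfold TX
  rw [len_nod, Nat.add_sub_cancel]
  have : pre (nod g (n + 1)) n = seg (fun i => g (i + 1)) n := by
    unfold pre seg
    refine List.map_congr_left fun i hi => ?_
    have := List.mem_range.1 hi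
    exact dig_nod g (by omega)
  rw [this]

/-- the sequence starting with `e` and continuing along `X` -/
def Ge (X : ℕ → ℕ) (e i : ℕ) : ℕ := Nat.casesOn i e X

/-- the level one persistent nodes -/
def CX (T0 : List ℕ → Prop) (v : ℕ) : Prop :=
  (con (TX T0) prn).J v ≠ 0 ∧ len ((con (TX T0) prn).J v - 1) = 1 ∧ PN (con (TX T0) prn) v

theorem cx_iff {g : ℕ → ℕ} (hg : TP (con (TX T0) prn) g) {v : ℕ} :
    CX T0 v ↔ ∃ j, len j = 1 ∧ Pers (con (TX T0) prn) g v j := by
  constructor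
  · rintro ⟨h1, h2, h3⟩
    refine ⟨(con (TX T0) prn).J v - 1, h2, (pers_iff hg ?_).2 h3⟩
    omega
  · rintro ⟨j, hj, h⟩
    have h1 := h.1
    refine ⟨by omega, ?_, (pers_iff hg h1).1 h⟩
    rw [h1, Nat.add_sub_cancel]
    exact hj

theorem delta_CX (hc : ComputablePred T0) : Delta11 (CX T0) := by
  have hT := p_TX hc
  have hJ : Computable fun v : ℕ => (con (TX T0) prn).J v := con_J hT c_prn c_id
  have h1 : Delta11 fun v : ℕ => (con (TX T0) prn).J v ≠ 0 :=
    Delta11.of_computable (p_not (p_eq hJ (c_const 0)))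
  have h2 : Delta11 fun v : ℕ => len ((con (TX T0) prn).J v - 1) = 1 :=
    Delta11.of_computable (p_eq (c_lenj (c_sub hJ (c_const 1))) (c_const 1))
  have hJ1 : Computable fun p : ℕ × ℕ => (con (TX T0) prn).J p.1 - 1 :=
    c_sub (con_J hT c_prn (c_fst c_id)) (c_const 1)
  have hJ2 : Computable fun p : (ℕ × ℕ) × ℕ => (con (TX T0) prn).J p.1.1 - 1 :=
    c_sub (con_J hT c_prn (c_fst (c_fst c_id))) (c_const 1)
  have h3 : Delta11 fun v : ℕ => ∀ s, v < s → ¬ lft (con (TX T0) prn) s v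
      ((con (TX T0) prn).J v - 1) :=
    Delta11.all (P := fun p : ℕ × ℕ => p.1 < p.2 →
      ¬ lft (con (TX T0) prn) p.2 p.1 ((con (TX T0) prn).J p.1 - 1))
      (Delta11.of_computable (p_imp (p_lt (c_fst c_id) (c_snd c_id))
        (p_not (p_lft_con hT c_prn (c_snd c_id) (c_fst c_id) hJ1))))
  have h4 : Delta11 fun v : ℕ => ∀ N, ∃ s, N ≤ s ∧ agr (con (TX T0) prn) v s
      ((con (TX T0) prn).J v - 1) :=
    Delta11.all (P := fun p : ℕ × ℕ => ∃ s, p.2 ≤ s ∧ agr (con (TX T0) prn) p.1 s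
      ((con (TX T0) prn).J p.1 - 1)) (Delta11.ex (P := fun q : (ℕ × ℕ) × ℕ => q.1.2 ≤ q.2 ∧
        agr (con (TX T0) prn) q.1.1 q.2 ((con (TX T0) prn).J q.1.1 - 1))
        (Delta11.of_computable (p_and (p_le (c_snd (c_fst c_id)) (c_snd c_id))
          (p_agr_con hT c_prn (c_fst (c_fst c_id)) (c_snd c_id) hJ2))))
  exact h1.and (h2.and (h3.and h4))

/-- a twisted flow exists -/
theorem exists_tflow (htr : IsTr T0) (hnil : T0 []) {X : ℕ → ℕ}
    (hX : ∀ n, T0 (seg X n)) : ∃ t, TFlow (con (TX T0) prn).pa (CX T0) t := by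
  classical
  have hS : Spec (TX T0) prn (con (TX T0) prn) := con_spec _ _
  have hT := th_TX htr hnil
  obtain ⟨g, hg⟩ := exists_tp (d := con (TX T0) prn) hS.O_le
  set d := con (TX T0) prn with hd
  have hTe : ∀ e k, TX T0 (nod (Ge X e) (k + 1)) := fun e k => (tx_nod _ _).2 (hX k)
  have hw : ∀ e k, ∃ w, Pers d g w (nod (Ge X e) (k + 1)) :=
    fun e k => pers_exists hS hg _ (hTe e k)
  choose w hw using hw
  have hinj : ∀ e k e' k', w e k = w e' k' → e = e' ∧ k = k' := by
    intro e k e' k' h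
    have h1 := (hw e k).1
    have h2 := (hw e' k').1
    rw [h, h2] at h1
    have h3 : nod (Ge X e') (k' + 1) = nod (Ge X e) (k + 1) := by omega
    have h4 : k' + 1 = k + 1 := by rw [← len_nod (Ge X e') (k' + 1), h3, len_nod]
    have h5 : Ge X e' 0 = Ge X e 0 := by
      rw [← dig_nod (Ge X e') (show 0 < k' + 1 by omega), h3, dig_nod _ (by omega)]
    exact ⟨h5.symm, by omega⟩
  have hpa0 : ∀ e, 1 ≤ w e 0 ∧ d.pa (w e 0) = 0 := by
    intro e
    obtain ⟨h1, h2⟩ := (hw e 0).pa hS hT (nod_pos _ _)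
    rw [prn_nod, nod_zero] at h2
    exact ⟨h1, h2.uniq hS hT hg (pers_zero hS)⟩
  have hpa : ∀ e k, 1 ≤ w e (k + 1) ∧ d.pa (w e (k + 1)) = w e k := by
    intro e k
    obtain ⟨h1, h2⟩ := (hw e (k + 1)).pa hS hT (nod_pos _ _)
    rw [prn_nod] at h2
    exact ⟨h1, h2.uniq hS hT hg (hw e k)⟩
  have hpos : ∀ e k, 1 ≤ w e k := by
    intro e k
    cases k with
    | zero => exact (hpa0 e).1
    | succ k => exact (hpa e k).1
  let t : ℕ → ℕ := fun v => if h : ∃ p : ℕ × ℕ, w p.1 p.2 = v then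
    2 ^ w h.choose.1 (h.choose.2 + 1) else 0
  have ht1 : ∀ e k, t (w e k) = 2 ^ w e (k + 1) := by
    intro e k
    have hv : ∃ p : ℕ × ℕ, w p.1 p.2 = w e k := ⟨(e, k), rfl⟩
    show (if h : ∃ p : ℕ × ℕ, w p.1 p.2 = w e k then
      2 ^ w h.choose.1 (h.choose.2 + 1) else 0) = _
    rw [dif_pos hv]
    obtain ⟨h1, h2⟩ := hinj _ _ _ _ hv.choose_spec
    rw [h1, h2]
  have ht2 : ∀ v, (¬ ∃ p : ℕ × ℕ, w p.1 p.2 = v) → t v = 0 := fun v hv => dif_neg hv
  refine ⟨t, ?_, ?_⟩
  · intro v u hu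
    by_cases hv : ∃ p : ℕ × ℕ, w p.1 p.2 = v
    · obtain ⟨⟨e, k⟩, rfl⟩ := hv
      rw [ht1, Nat.testBit_two_pow] at hu
      have hu' : w e (k + 1) = u := by simpa using hu
      rw [← hu']
      exact hpa e k
    · rw [ht2 v hv] at hu
      simp at hu
  · intro u hu
    by_cases hv : ∃ p : ℕ × ℕ, w p.1 p.2 = u
    · obtain ⟨⟨e, k⟩, rfl⟩ := hv
      show ((t (d.pa (w e k))).testBit (w e k) = par (t (w e k)) ↔ ¬ CX T0 (w e k))
      rw [ht1, par_two_pow]
      cases k with
      | zero =>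
        have h1 : t 0 = 0 := by
          refine ht2 0 ?_
          rintro ⟨⟨e', k'⟩, h⟩
          have := hpos e' k'
          have h' : w e' k' = 0 := h
          omega
        rw [(hpa0 e).2, h1, Nat.zero_testBit]
        have h2 : CX T0 (w e 0) := (cx_iff hg).2 ⟨_, len_nod _ _, hw e 0⟩
        simp [h2]
      | succ k =>
        rw [(hpa e k).2, ht1, Nat.testBit_two_pow]
        have h2 : ¬ CX T0 (w e (k + 1)) := by
          rintro ⟨_, h3, _⟩
          have h4 := (hw e (k + 1)).1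
          have h3' : len (d.J (w e (k + 1)) - 1) = 1 := h3
          rw [h4, Nat.add_sub_cancel, len_nod] at h3'
          omega
        simp [h2]
    · rw [ht2 u hv]
      have h1 : ¬ CX T0 u := by
        intro h
        obtain ⟨j, hj, hj'⟩ := (cx_iff hg).1 h
        apply hv
        refine ⟨(dig j 0, 0), ?_⟩
        have h2 : j = nod (Ge X (dig j 0)) (len j) := nod_ext fun i hi => by
          have : i = 0 := by omega
          subst this
          rfl
        rw [hj] at h2
        rw [h2] at hj'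
        exact (hw _ _).uniq hS hT hg hj'
      have h2 : (t (d.pa u)).testBit u = false := by
        by_contra hc
        simp only [Bool.not_eq_false] at hc
        by_cases hv' : ∃ p : ℕ × ℕ, w p.1 p.2 = d.pa u
        · obtain ⟨⟨e, k⟩, h3⟩ := hv'
          have h3' : w e k = d.pa u := h3
          rw [← h3', ht1, Nat.testBit_two_pow] at hc
          exact hv ⟨(e, k + 1), by simpa using hc⟩
        · rw [ht2 _ hv'] at hc
          simp at hc
      rw [h2]
      simp [h1, par_zero]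

/-- the least element of a finite set -/
noncomputable def lb (X : ℕ) : ℕ := sInf {w | X = 0 ∨ X.testBit w = true}

theorem lb_ex (X : ℕ) : ∃ w, X = 0 ∨ X.testBit w = true := by
  by_contra hc
  push Not at hc
  exact (hc 0).1 (eq_zero_of fun u => by simpa using (hc u).2)

theorem lb_spec {X : ℕ} (h : par X = true) : X.testBit (lb X) = true := by
  have h1 : lb X ∈ {w | X = 0 ∨ X.testBit w = true} := Nat.sInf_mem (lb_ex X)
  rcases h1 with h1 | h1
  · rw [h1, par_zero] at h
    exact Bool.noConfusion h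
  · exact h1

theorem c_lb : Computable lb := by
  have h := c_least (P := fun X w : ℕ => X = 0 ∨ X.testBit w = true)
    (p_or (p_eq (c_fst c_id) (c_const 0)) (p_testBit (c_fst c_id) (c_snd c_id))) lb_ex
  exact h

/-- twisted flows compute paths -/
theorem path_of_tflow (htr : IsTr T0) (hnil : T0 []) {X : ℕ → ℕ}
    (hX : ∀ n, T0 (seg X n)) {t : ℕ → ℕ} (ht : TFlow (con (TX T0) prn).pa (CX T0) t) :
    ∃ u, ∀ n, T0 (seg (fun i => dig ((con (TX T0) prn).J
      ((fun v => lb (t v))^[i + 1] u) - 1) (i + 1)) n) := by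
  classical
  have hS : Spec (TX T0) prn (con (TX T0) prn) := con_spec _ _
  have hT := th_TX htr hnil
  obtain ⟨g, hg⟩ := exists_tp (d := con (TX T0) prn) hS.O_le
  set d := con (TX T0) prn with hd
  have hTe : ∀ e, TX T0 (nod (Ge X e) 1) := fun e => (tx_nod _ _).2 (hX 0)
  choose w hw using fun e => pers_exists hS hg _ (hTe e)
  have hinj : Function.Injective w := by
    intro e e' h
    have h1 := (hw e).1
    have h2 := (hw e').1
    rw [h, h2] at h1
    have h3 : nod (Ge X e') 1 = nod (Ge X e) 1 := by omega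
    have h5 : Ge X e' 0 = Ge X e 0 := by
      rw [← dig_nod (Ge X e') (show 0 < 1 by omega), h3, dig_nod _ (by omega)]
    exact h5.symm
  obtain ⟨_, ⟨e, rfl⟩, he⟩ := (Set.infinite_range_of_injective hinj).exists_gt (t 0)
  have hCX : CX T0 (w e) := (cx_iff hg).2 ⟨_, len_nod _ _, hw e⟩
  have hCpa : ∀ v, CX T0 v → 1 ≤ v ∧ d.pa v = 0 := by
    intro v hv
    obtain ⟨j, hj, hj'⟩ := (cx_iff hg).1 hv
    have hj1 : 1 ≤ j := by
      by_contra hc
      have : j = 0 := by omega
      rw [this, len_zero] at hj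
      omega
    obtain ⟨h1, h2⟩ := hj'.pa hS hT hj1
    have h3 : prn j = 0 := by
      have h4 := len_prn hj1
      have h5 : j = nod (Ge X (dig j 0)) (len j) := nod_ext fun i hi => by
        have : i = 0 := by omega
        subst this
        rfl
      rw [hj] at h5
      rw [h5, prn_nod, nod_zero]
    rw [h3] at h2
    exact ⟨h1, h2.uniq hS hT hg (pers_zero hS)⟩
  refine ⟨w e, ?_⟩
  set A : ℕ → ℕ := fun k => (fun v => lb (t v))^[k] (w e) with hA
  have hAs : ∀ k, A (k + 1) = lb (t (A k)) := fun k => Function.iterate_succ_apply' _ _ _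
  have hA0 : par (t (A 0)) = true := by
    show par (t (w e)) = true
    have h1 := ht.par (w e) (hCpa _ hCX).1
    have h2 : (t (d.pa (w e))).testBit (w e) = false := by
      rw [(hCpa _ hCX).2]
      exact testBit_large (by omega)
    have h1' : (t (d.pa (w e))).testBit (w e) = par (t (w e)) ↔ ¬ CX T0 (w e) := h1
    rw [h2] at h1'
    by_contra hc
    simp only [Bool.not_eq_true] at hc
    exact (h1'.1 hc.symm) hCX
  have hstep : ∀ k, 1 ≤ A k → par (t (A k)) = true →
      1 ≤ A (k + 1) ∧ d.pa (A (k + 1)) = A k ∧ par (t (A (k + 1))) = true := by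
    intro k h1 h2
    have h3 := lb_spec h2
    rw [← hAs] at h3
    obtain ⟨h4, h5⟩ := ht.child _ _ h3
    have h5' : d.pa (A (k + 1)) = A k := h5
    refine ⟨h4, h5', ?_⟩
    have h6 : (t (d.pa (A (k + 1)))).testBit (A (k + 1)) = par (t (A (k + 1))) ↔
        ¬ CX T0 (A (k + 1)) := ht.par _ h4
    have h7 : ¬ CX T0 (A (k + 1)) := by
      intro h
      have := (hCpa _ h).2
      omega
    rw [← h6.2 h7, h5', h3]
  have hall : ∀ k, 1 ≤ A k ∧ par (t (A k)) = true := by
    intro k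
    induction k with
    | zero => exact ⟨(hCpa _ hCX).1, hA0⟩
    | succ k ih =>
      obtain ⟨h1, _, h3⟩ := hstep k ih.1 ih.2
      exact ⟨h1, h3⟩
  let a : ℕ → ℕ := fun k => Nat.casesOn k 0 A
  have hP : IsPath (TX T0) prn fun k => d.J (a k) - 1 := by
    refine path_of_chain hS hT rfl fun k => ?_
    cases k with
    | zero => exact hCpa _ hCX
    | succ k =>
      obtain ⟨h1, h2, _⟩ := hstep k (hall k).1 (hall k).2
      exact ⟨h1, h2⟩
  obtain ⟨f, hf⟩ := path_nod hP
  have hfi : ∀ i, f (i + 1) = dig (d.J (A (i + 1)) - 1) (i + 1) := by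
    intro i
    have h1 : d.J (A (i + 1)) - 1 = nod f (i + 1 + 1) := hf (i + 1 + 1)
    rw [h1, dig_nod f (by omega)]
  intro n
  have h1 : TX T0 (nod f (n + 1)) := by
    rw [← hf]
    exact hP.mem n
  rw [tx_nod] at h1
  have h2 : (fun i => f (i + 1)) = fun i => dig (d.J (A (i + 1)) - 1) (i + 1) := funext hfi
  rw [h2] at h1
  exact h1

end

/-! ### hyperarithmetic functions -/

theorem delta_iter {F : ℕ → ℕ} (hF : Delta11 fun p : ℕ × ℕ => F p.1 = p.2) (u : ℕ) :
    Delta11 fun p : ℕ × ℕ => F^[p.1] u = p.2 := by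
  have h1 : Delta11 fun q : ((ℕ × ℕ) × List ℕ) × ℕ => q.2 < q.1.1.1 →
      F (gt q.1.2 q.2) = gt q.1.2 (q.2 + 1) := by
    have e1 : Computable fun q : ((ℕ × ℕ) × List ℕ) × ℕ => gt q.1.2 q.2 :=
      c_gt (c_snd (c_fst c_id)) (c_snd c_id)
    have e2 : Computable fun q : ((ℕ × ℕ) × List ℕ) × ℕ => gt q.1.2 (q.2 + 1) :=
      c_gt (c_snd (c_fst c_id)) (c_succ (c_snd c_id))
    have e3 : Computable fun q : ((ℕ × ℕ) × List ℕ) × ℕ => q.1.1.1 :=
      c_fst (c_fst (c_fst c_id))
    exact (Delta11.of_computable (p_lt (c_snd c_id) e3)).imp (hF.comp (c_pair e1 e2))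
  have h2 : Delta11 fun q : (ℕ × ℕ) × List ℕ => ∀ i, i < q.1.1 →
      F (gt q.2 i) = gt q.2 (i + 1) := Delta11.all h1
  have h3 : Delta11 fun q : (ℕ × ℕ) × List ℕ => gt q.2 0 = u :=
    Delta11.of_computable (p_eq (c_gt (c_snd c_id) (c_const 0)) (c_const u))
  have h4 : Delta11 fun q : (ℕ × ℕ) × List ℕ => gt q.2 q.1.1 = q.1.2 :=
    Delta11.of_computable (p_eq (c_gt (c_snd c_id) (c_fst (c_fst c_id)))
      (c_snd (c_fst c_id)))
  refine (Delta11.ex' (P := fun q : (ℕ × ℕ) × List ℕ => gt q.2 0 = u ∧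
    (∀ i, i < q.1.1 → F (gt q.2 i) = gt q.2 (i + 1)) ∧ gt q.2 q.1.1 = q.1.2)
    (h3.and (h2.and h4))).of_iff fun p => ?_
  constructor
  · intro h
    refine ⟨seg (fun i => F^[i] u) (p.1 + 1), ?_, fun i hi => ?_, ?_⟩
    · rw [gt_seg _ (by omega)]
      rfl
    · have hi' : i < p.1 := hi
      show F (gt (seg (fun i => F^[i] u) (p.1 + 1)) i) =
        gt (seg (fun i => F^[i] u) (p.1 + 1)) (i + 1)
      rw [gt_seg _ (by omega), gt_seg _ (by omega), Function.iterate_succ_apply']
    · show gt (seg (fun i => F^[i] u) (p.1 + 1)) p.1 = p.2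
      rw [gt_seg _ (by omega)]
      exact h
  · rintro ⟨s, h5, h6, h7⟩
    have h5' : gt s 0 = u := h5
    have h6' : ∀ i, i < p.1 → F (gt s i) = gt s (i + 1) := h6
    have h7' : gt s p.1 = p.2 := h7
    have key : ∀ i, i ≤ p.1 → gt s i = F^[i] u := by
      intro i
      induction i with
      | zero => intro _; exact h5'
      | succ i ih =>
        intro hi
        rw [Function.iterate_succ_apply', ← ih (by omega)]
        exact (h6' i (by omega)).symm
    rw [← key p.1 (le_refl _)]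
    exact h7'

/-- composition with computable functions -/
theorem delta_post {α β γ : Type} [Primcodable α] [Primcodable β] [Primcodable γ]
    {F : α → β} (hF : Delta11 fun p : α × β => F p.1 = p.2)
    {G : α × β → γ} (hG : Computable G) :
    Delta11 fun p : α × γ => G (p.1, F p.1) = p.2 := by
  classical
  have h1 : Delta11 fun q : (α × γ) × β => F q.1.1 = q.2 :=
    hF.comp (c_pair (c_fst (c_fst c_id)) (c_snd c_id))
  have h2 : Delta11 fun q : (α × γ) × β => G (q.1.1, q.2) = q.1.2 :=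
    Delta11.of_computable (eq_comp (hG.comp (c_pair (c_fst (c_fst c_id)) (c_snd c_id)))
      (c_snd (c_fst c_id)))
  refine (Delta11.ex' (P := fun q : (α × γ) × β => F q.1.1 = q.2 ∧ G (q.1.1, q.2) = q.1.2)
    (h1.and h2)).of_iff fun p => ?_
  constructor
  · intro h
    exact ⟨F p.1, rfl, h⟩
  · rintro ⟨y, h3, h4⟩
    have h3' : F p.1 = y := h3
    rw [h3']
    exact h4

theorem delta_path {T0 : List ℕ → Prop} (hc : ComputablePred T0) {F : ℕ → ℕ}
    (hF : Delta11 fun p : ℕ × ℕ => F p.1 = p.2) (u : ℕ) :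
    Delta11 fun p : ℕ × ℕ =>
      dig ((con (TX T0) prn).J (F^[p.1 + 1] u) - 1) (p.1 + 1) = p.2 := by
  have h3 := delta_iter hF u
  generalize hE : (fun k => F^[k] u) = E
  have hE' : ∀ k, F^[k] u = E k := fun k => congrFun hE k
  simp only [hE'] at h3 ⊢
  have h4 : Delta11 fun p : ℕ × ℕ => E (p.1 + 1) = p.2 :=
    h3.comp (c_pair (c_succ (c_fst c_id)) (c_snd c_id))
  have h5 : Computable fun q : ℕ × ℕ => dig ((con (TX T0) prn).J q.2 - 1) (q.1 + 1) :=
    c_dig (c_sub (con_J (p_TX hc) c_prn (c_snd c_id)) (c_const 1)) (c_succ (c_fst c_id))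
  exact delta_post (F := fun k => E (k + 1)) h4 h5

theorem delta_lb {pa : ℕ → ℕ} (hcpa : Computable pa) {E : ℕ → ℕ}
    (hE : Delta11 fun p : ℕ × ℕ => E p.1 = p.2) :
    Delta11 fun p : ℕ × ℕ => lb (el pa (E p.1)).unpair.2 = p.2 := by
  have h1 : Computable fun q : ℕ × ℕ => (el pa q.2).unpair.2 :=
    c_up2 ((c_el hcpa).comp (c_snd c_id))
  have h2 : Computable fun q : ℕ × ℕ => lb (el pa q.2).unpair.2 := c_lb.comp h1
  exact delta_post (F := E) hE (G := fun q : ℕ × ℕ => lb (el pa q.2).unpair.2) h2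

theorem main1b : ∃ ar : ℕ → ℕ, Computable ar ∧ ∃ A : Struct ar,
    IsComputable A ∧ CompCat A ∧ ¬ RelHypCat A := by
  obtain ⟨T0, hc, htr, ⟨X, hX⟩, hno⟩ := kleene
  have hnil : T0 [] := hX 0
  set pa := (con (TX T0) prn).pa with hpa
  have hcpa : Computable pa := con_pa (p_TX hc) c_prn
  refine ⟨ar2, Computable.const 2, toS (AZ pa), ?_, ?_, ?_⟩
  · obtain ⟨g, _, hg⟩ := exists_idx (β := Unit) (M := fun _ => AZ pa)
      (computablePred_comp (P := fun q : ℕ × ℕ × ℕ => AZ pa q.1 q.2.1 q.2.2) (az_comp hcpa)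
        (c_snd c_id))
    exact ⟨g (), hg ()⟩
  · -- computable categoricity
    have key : ∀ B : Struct ar2, IsComputable B → Iso (toS (AZ pa)) B →
        ∃ f : ℕ ≃ ℕ, IsIsoMap (toS (AZ pa)) B f ∧ Computable f := by
      rintro B ⟨e, he⟩ hB
      obtain ⟨h1, h2⟩ := eq_of_index he
      rw [h2] at hB ⊢
      obtain ⟨f, hf⟩ := iso_toS.1 hB
      have h0 : RedIso pa (SI e) f := by
        intro i x y hi
        have := hf i x y
        unfold AZ at this
        simpa [hi] using this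
      obtain ⟨k, hk, hkc⟩ : ∃ k : ℕ ≃ ℕ, RedIso pa (SI e) k ∧ Computable k :=
        cc (p_TX hc) c_prn (th_TX htr hnil) (comp_SI h1) h0
      refine ⟨k, fun i v => ?_, hkc⟩
      show AZ pa i (v 0) (v 1) ↔ SI e i (k (v 0)) (k (v 1))
      by_cases hi : i = 0
      · subst hi
        refine ⟨fun h => (h.1 rfl).elim, fun h => ?_⟩
        have := (hf 0 (f.symm (k (v 0))) (f.symm (k (v 1)))).2 (by simpa using h)
        exact (this.1 rfl).elim
      · rw [← hk i _ _ hi]
        unfold AZ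
        simp [hi]
    intro B C hB hC hAB hAC
    obtain ⟨f, hf, hfc⟩ := key B hB hAB
    obtain ⟨k, hk, hkc⟩ := key C hC hAC
    refine ⟨f.symm.trans k, fun i v => ?_, hkc.comp (computable_symm hfc)⟩
    have h1 := hf i fun j => f.symm (v j)
    have h2 := hk i fun j => f.symm (v j)
    simp only [Equiv.apply_symm_apply] at h1
    rw [← h1, h2]
    rfl
  · -- a copy without hyperarithmetic isomorphisms
    intro hrel
    obtain ⟨t, ht⟩ := exists_tflow htr hnil hX
    obtain ⟨f, hf, hfd⟩ := hrel (toS (TZ pa (CX T0))) ht.iso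
    have hD : Delta11 (Diag (toS (TZ pa (CX T0)))) :=
      diag_delta (tz_delta hcpa (delta_CX hc))
    have hfd' : Delta11 fun p : ℕ × ℕ => f p.1 = p.2 := delta_of_in hD hfd
    have hf' : ∀ i x y, AZ pa i x y ↔ TZ pa (CX T0) i (f x) (f y) :=
      fun i x y => hf i ![x, y]
    have ht' := tflow_of_iso hf'
    obtain ⟨u, hu⟩ := path_of_tflow htr hnil hX ht'
    refine hno _ ?_ hu
    -- the complexity of the path
    have h1 : Delta11 fun p : ℕ × ℕ => f (idx pa (Nat.pair p.1 0)) = p.2 :=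
      hfd'.comp (c_pair ((c_idx hcpa).comp (c_npair (c_fst c_id) (c_const 0))) (c_snd c_id))
    have h2 := delta_lb hcpa (E := fun v => f (idx pa (Nat.pair v 0))) h1
    exact delta_path hc h2 u

end Pool.Agent.Helper941.Hyp
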