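import Mathlib
import Pool.Agent.Helper941.Hyp.Cls

set_option autoImplicit false
set_option maxHeartbeats 400000

namespace Pool.Agent.Helper941.Hyp

open Encodable Denumerable Nat.Partrec Pool.Agent.Helper941 Pool.Agent.Helper941.IsoProb
open Pool.Agent.Helper941.Zeta Pool.Agent.Helper941.Dim

/-- the class of structures -/
def KK : Set (Struct ar2) :=
  {S | IsComputable S ∧ ∃ (u : ℕ) (b : Bool), Iso (toS (MS (PP u b))) S}

theorem kk_class : IsClass KK := by
  refine ⟨fun A hA => hA.1, ?_⟩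
  rintro A ⟨_, u, b, hA⟩ B hB hAB
  exact ⟨hB, u, b, hA.trans hAB⟩

theorem idx_kk (e : ℕ) : IndexSet KK e ↔ ∃ q : ℕ × Bool, Cls q.1 q.2 e := by
  constructor
  · rintro ⟨A, ⟨_, u, b, hA⟩, he⟩
    obtain ⟨h1, h2⟩ := eq_of_index he
    rw [h2] at hA
    rcases cls_of_iso h1 hA with h3 | ⟨_, h3⟩
    · exact ⟨(u, b), h3⟩
    · exact ⟨(u, !b), h3⟩
  · rintro ⟨⟨u, b⟩, h⟩
    exact ⟨toS (SI e), ⟨⟨e, idx_of h.1⟩, u, b, h.iso⟩, idx_of h.1⟩

theorem kk_hyp : HypClass KK := by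
  refine ⟨kk_class, ?_⟩
  have h : Delta11 fun e : ℕ => ∃ q : ℕ × Bool, Cls q.1 q.2 e :=
    Delta11.ex' (P := fun p : ℕ × ℕ × Bool => Cls p.2.1 p.2.2 p.1) delta_Cls
  exact h.of_iff idx_kk

/-- the isomorphism class of an index -/
theorem kk_cell {u : ℕ} {b : Bool} {y : ℕ} (hy : Cls u b y) (x : ℕ) :
    IsoRel KK (x, y) ↔ Cls u b x ∨ (Y u ∧ Cls u (!b) x) := by
  constructor
  · rintro ⟨A, hA, B, hB, hx, hy', hAB⟩
    obtain ⟨h1, h2⟩ := eq_of_index hx
    obtain ⟨h3, h4⟩ := eq_of_index hy'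
    rw [h2, h4] at hAB
    exact cls_of_iso h1 (hy.iso.trans hAB.symm)
  · intro h
    obtain ⟨h1, h2⟩ := cls_iff.2 h
    exact ⟨toS (SI x), ⟨⟨x, idx_of h1⟩, u, b, h2⟩, toS (SI y),
      ⟨⟨y, idx_of hy.1⟩, u, b, hy.iso⟩, idx_of h1, idx_of hy.1, h2.symm.trans hy.iso⟩

/-- every isomorphism class of `KK` is hyperarithmetic -/
theorem kk_cells {y : ℕ} (hy : IndexSet KK y) : Delta11 fun x => IsoRel KK (x, y) := by
  obtain ⟨⟨u, b⟩, h⟩ := (idx_kk y).1 hy
  have h1 : Delta11 fun x : ℕ => Cls u b x :=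
    delta_Cls.comp (f := fun x : ℕ => (x, u, b)) (c_pair c_id (c_const (u, b)))
  have h2 : Delta11 fun x : ℕ => Cls u (!b) x :=
    delta_Cls.comp (f := fun x : ℕ => (x, u, !b)) (c_pair c_id (c_const (u, !b)))
  by_cases hY : Y u
  · exact (h1.or h2).of_iff fun x => (kk_cell h x).trans (by simp [hY])
  · exact h1.of_iff fun x => (kk_cell h x).trans (by simp [hY])

theorem not_delta_rel : ¬ Delta11 (IsoRel KK) := by
  intro h
  have hP : ComputablePred fun q : (ℕ × Bool) × ℕ => PP q.1.1 q.1.2 q.2 :=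
    p_and (p_eq (c_up1 (c_snd c_id)) (c_fst (c_fst c_id)))
      (p_eqb (c_par (c_up2 (c_snd c_id))) (c_snd (c_fst c_id)))
  obtain ⟨g, hg, hgi⟩ := exists_idx (β := ℕ × Bool) (M := fun q => MS (PP q.1 q.2))
    (ms_comp (P := fun q : ℕ × Bool => PP q.1 q.2) hP)
  apply not_delta_XB
  have h1 : Delta11 fun u : ℕ => IsoRel KK (g (u, false), g (u, true)) :=
    h.comp (c_pair (hg.comp (c_pair c_id (c_const false)))
      (hg.comp (c_pair c_id (c_const true))))
  have h2 : Delta11 fun u : ℕ => 1 ≤ u ∧ pH u = 0 :=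
    Delta11.of_computable (p_and (p_le (c_const 1) c_id) (p_eq c_pH (c_const 0)))
  refine (h2.and h1).of_iff fun u => ?_
  have hmem : ∀ q : ℕ × Bool, toS (MS (PP q.1 q.2)) ∈ KK := fun q =>
    ⟨⟨g q, hgi q⟩, q.1, q.2, Iso.refl _⟩
  have key : IsoRel KK (g (u, false), g (u, true)) ↔ Y u := by
    rw [← pp_iso, ← iso_toS]
    constructor
    · rintro ⟨A, _, B, _, hx, hy, hAB⟩
      have e1 : A = toS (MS (PP u false)) := by
        rw [(eq_of_index hx).2, ← (eq_of_index (hgi (u, false))).2]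
      have e2 : B = toS (MS (PP u true)) := by
        rw [(eq_of_index hy).2, ← (eq_of_index (hgi (u, true))).2]
      rw [← e1, ← e2]
      exact hAB
    · intro h3
      exact ⟨_, hmem (u, false), _, hmem (u, true), hgi _, hgi _, h3⟩
  rw [key]
  unfold XB Y
  tauto

/-- the class of all computable structures in the language -/
def KA : Set (Struct ar2) := {S | IsComputable S}

theorem idx_ka (e : ℕ) : IndexSet KA e ↔ Idx e := by
  constructor
  · rintro ⟨A, _, he⟩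
    exact (eq_of_index he).1
  · intro h
    exact ⟨toS (SI e), ⟨e, idx_of h⟩, idx_of h⟩

theorem ka_hyp : HypClass KA :=
  ⟨⟨fun _ hA => hA, fun _ _ _ hB _ => hB⟩, delta_Idx.of_iff idx_ka⟩

theorem not_complete : ¬ HypRed KA KK := by
  rintro ⟨f, hf, h1, h2⟩
  have hP : ComputablePred fun q : ℕ × ℕ => q.2 = q.1 := p_eq (c_snd c_id) (c_fst c_id)
  obtain ⟨g, hg, hgi⟩ := exists_idx (β := ℕ) (M := fun c => MS fun p => p = c)
    (ms_comp (P := fun c : ℕ => fun p => p = c) hP)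
  have hidx : ∀ c, IndexSet KA (g c) := fun c => (idx_ka _).2 (eq_of_index (hgi c)).1
  apply not_delta_XA
  have h3 : Delta11 fun x => IsoRel KK (f x, f (g (Nat.pair 0 0))) :=
    Delta11.comp_hyp hf (kk_cells (h1 _ (hidx _)))
  have h4 : Computable fun u : ℕ => g (Nat.pair 0 (2 ^ u)) :=
    hg.comp (c_npair (c_const 0) (c_pow c_id))
  refine (h3.comp h4).of_iff fun u => ?_
  rw [← h2 _ _ (hidx _) (hidx _)]
  have key : IsoRel KA (g (Nat.pair 0 (2 ^ u)), g (Nat.pair 0 0)) ↔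
      Iso (toS (MS fun p => p = Nat.pair 0 0)) (toS (MS fun p => p = Nat.pair 0 (2 ^ u))) := by
    constructor
    · rintro ⟨A, _, B, _, hx, hy, hAB⟩
      have e1 : A = toS (MS fun p => p = Nat.pair 0 (2 ^ u)) := by
        rw [(eq_of_index hx).2, ← (eq_of_index (hgi (Nat.pair 0 (2 ^ u)))).2]
      have e2 : B = toS (MS fun p => p = Nat.pair 0 0) := by
        rw [(eq_of_index hy).2, ← (eq_of_index (hgi (Nat.pair 0 0))).2]
      rw [← e1, ← e2]
      exact hAB.symm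
    · intro h5
      exact ⟨_, ⟨_, hgi _⟩, _, ⟨_, hgi _⟩, hgi _, hgi _, h5.symm⟩
  rw [key, iso_toS, ms_iso]
  unfold XA
  refine exists_congr fun t => and_congr_right fun hF => ?_
  constructor
  · intro ht p _
    constructor
    · rintro rfl
      unfold sh
      rw [Nat.unpair_pair, ht, Nat.zero_xor]
    · intro h6
      rw [← sh_sh t p, h6]
      unfold sh
      rw [Nat.unpair_pair, ht, Nat.xor_self]
  · intro ht
    have h6 := (ht (Nat.pair 0 0) (valid_base _ 0)).1 rfl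
    unfold sh at h6
    rw [Nat.unpair_pair, Nat.zero_xor] at h6
    exact (Nat.pair_eq_pair.1 h6).2

theorem main39 : ∃ ar : ℕ → ℕ, Computable ar ∧ ∃ K : Set (Struct ar), HypClass K ∧
    ¬ Delta11 (IsoRel K) ∧ ¬ IsComplete K :=
  ⟨ar2, Computable.const 2, KK, kk_hyp, not_delta_rel,
    fun h => not_complete (h ar2 (Computable.const 2) KA ka_hyp)⟩

end Pool.Agent.Helper941.Hyp
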