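import Mathlib
import Pool.Agent.Helper941.Hyp.Defs

set_option autoImplicit false

namespace Pool.Agent.Helper941.Hyp

variable {ar : ℕ → ℕ}

/-- The finite tuples `a` and `b` (written as lists) satisfy the same quantifier-free formulas
in `A`. -/
def SameAtomic (A : Struct ar) (a b : List ℕ) : Prop :=
  a.length = b.length ∧
  (∀ i j, i < a.length → j < a.length → (a.getD i 0 = a.getD j 0 ↔ b.getD i 0 = b.getD j 0)) ∧
  ∀ i (v : Fin (ar i) → ℕ), (∀ k, v k < a.length) →
    (A i (fun k => a.getD (v k) 0) ↔ A i (fun k => b.getD (v k) 0))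

/-- The back-and-forth relations `a ≡^α b`: the tuples `a` and `b` satisfy the same
quantifier-free formulas and, for all `β < α`, for every tuple `c` there is a tuple `d`, and
for every tuple `d` there is a tuple `c`, with `a c ≡^β b d`. -/
def BF (A : Struct ar) (α : Ordinal.{0}) (a b : List ℕ) : Prop :=
  SameAtomic A a b ∧ ∀ β, ∀ _ : β < α,
    (∀ c : List ℕ, ∃ d : List ℕ, BF A β (a ++ c) (b ++ d)) ∧
    (∀ d : List ℕ, ∃ c : List ℕ, BF A β (a ++ c) (b ++ d))
termination_by α

/-- `f` is an automorphism of `A` -/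
def IsAut (A : Struct ar) (f : ℕ ≃ ℕ) : Prop := ∀ i v, A i v ↔ A i fun k => f (v k)

/-- some automorphism of `A` takes the tuple `a` to the tuple `b` -/
def SameOrbit (A : Struct ar) (a b : List ℕ) : Prop := ∃ f : ℕ ≃ ℕ, IsAut A f ∧ b = a.map f

/-- the Scott rank of the tuple `a` in `A`: the least `β` such that `a ≡^β b` implies that
some automorphism takes `a` to `b`, for all `b` -/
noncomputable def tupleRank (A : Struct ar) (a : List ℕ) : Ordinal.{0} :=
  sInf {β | ∀ b, BF A β a b → SameOrbit A a b}

/-- the Scott rank of `A`: the least ordinal greater than the ranks of all tuples of `A` -/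
noncomputable def scottRank (A : Struct ar) : Ordinal.{0} :=
  sInf {α | ∀ a, tupleRank A a < α}

/-- `ω₁ᶜᴷ`, the supremum of the order types of the computable well-orderings of `ω` -/
noncomputable def omega1CK : Ordinal.{0} :=
  sSup {α | ∃ (r : ℕ → ℕ → Prop) (_ : IsWellOrder ℕ r),
    ComputablePred (fun p : ℕ × ℕ => r p.1 p.2) ∧ Ordinal.type r = α}

/-- `A` has noncomputable (high) Scott rank: its Scott rank is `ω₁ᶜᴷ` or `ω₁ᶜᴷ + 1`. -/
def NoncomputableScottRank (A : Struct ar) : Prop :=
  scottRank A = omega1CK ∨ scottRank A = omega1CK + 1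

end Pool.Agent.Helper941.Hyp
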