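import Mathlib
import Pool.Agent.Helper941.Hyp.ScDefs

set_option autoImplicit false
set_option maxHeartbeats 400000

namespace Pool.Agent.Helper941.Hyp

variable {ar : ℕ → ℕ} {A : Struct ar}

theorem bf_iff {α : Ordinal.{0}} {a b : List ℕ} : BF A α a b ↔
    SameAtomic A a b ∧ ∀ β < α, (∀ c : List ℕ, ∃ d : List ℕ, BF A β (a ++ c) (b ++ d)) ∧
      (∀ d : List ℕ, ∃ c : List ℕ, BF A β (a ++ c) (b ++ d)) := by
  rw [BF]

theorem BF.atomic {α : Ordinal.{0}} {a b : List ℕ} (h : BF A α a b) : SameAtomic A a b :=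
  (bf_iff.1 h).1

theorem BF.length {α : Ordinal.{0}} {a b : List ℕ} (h : BF A α a b) : a.length = b.length :=
  h.atomic.1

theorem BF.mono {α β : Ordinal.{0}} {a b : List ℕ} (h : BF A α a b) (hβ : β ≤ α) :
    BF A β a b := by
  rw [bf_iff] at h ⊢
  exact ⟨h.1, fun γ hγ => h.2 γ (lt_of_lt_of_le hγ hβ)⟩

/-- back and forth with single elements -/
theorem BF.forth {α β : Ordinal.{0}} {a b : List ℕ} (h : BF A α a b) (hβ : β < α) (c : ℕ) :
    ∃ d : ℕ, BF A β (a ++ [c]) (b ++ [d]) := by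
  obtain ⟨d, hd⟩ := ((bf_iff.1 h).2 β hβ).1 [c]
  have h1 := hd.length
  have h2 := h.length
  simp only [List.length_append, List.length_singleton] at h1
  obtain ⟨x, rfl⟩ := List.length_eq_one_iff.1 (show d.length = 1 by omega)
  exact ⟨x, hd⟩

theorem BF.back {α β : Ordinal.{0}} {a b : List ℕ} (h : BF A α a b) (hβ : β < α) (d : ℕ) :
    ∃ c : ℕ, BF A β (a ++ [c]) (b ++ [d]) := by
  obtain ⟨c, hc⟩ := ((bf_iff.1 h).2 β hβ).2 [d]
  have h1 := hc.length
  have h2 := h.length
  simp only [List.length_append, List.length_singleton] at h1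
  obtain ⟨x, rfl⟩ := List.length_eq_one_iff.1 (show c.length = 1 by omega)
  exact ⟨x, hc⟩

theorem getD_map (f : ℕ → ℕ) {a : List ℕ} {i : ℕ} (hi : i < a.length) :
    (a.map f).getD i 0 = f (a.getD i 0) := by
  rw [List.getD_eq_getElem _ _ (by simpa using hi), List.getD_eq_getElem _ _ hi]
  simp

theorem IsAut.symm {f : ℕ ≃ ℕ} (h : IsAut A f) : IsAut A f.symm := by
  intro i v
  rw [h i fun k => f.symm (v k)]
  simp

theorem sameAtomic_of_aut {f : ℕ ≃ ℕ} (h : IsAut A f) (a : List ℕ) :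
    SameAtomic A a (a.map f) := by
  refine ⟨by simp, fun i j hi hj => ?_, fun i v hv => ?_⟩
  · rw [getD_map f hi, getD_map f hj, f.injective.eq_iff]
  · rw [h i]
    have : (fun k => f (a.getD (v k) 0)) = fun k => (a.map f).getD (v k) 0 :=
      funext fun k => (getD_map f (hv k)).symm
    rw [this]

theorem bf_of_aut {f : ℕ ≃ ℕ} (h : IsAut A f) (α : Ordinal.{0}) :
    ∀ a : List ℕ, BF A α a (a.map f) := by
  induction α using WellFoundedLT.induction with
  | ind α ih =>
    intro a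
    rw [bf_iff]
    refine ⟨sameAtomic_of_aut h a, fun β hβ => ⟨fun c => ⟨c.map f, ?_⟩,
      fun d => ⟨d.map f.symm, ?_⟩⟩⟩
    · rw [← List.map_append]
      exact ih β hβ _
    · have : a.map f ++ d = (a ++ d.map f.symm).map f := by
        rw [List.map_append, List.map_map]
        simp
      rw [this]
      exact ih β hβ _

theorem SameOrbit.bf {a b : List ℕ} (h : SameOrbit A a b) (α : Ordinal.{0}) :
    BF A α a b := by
  obtain ⟨f, hf, rfl⟩ := h
  exact bf_of_aut hf α a

/-- a back-and-forth system gives an automorphism -/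
theorem bf_auto {S : ℕ → List ℕ → List ℕ → Prop}
    (h0 : ∀ n a b, S n a b → SameAtomic A a b)
    (h1 : ∀ n a b, S n a b → ∀ c : ℕ, ∃ d : ℕ, S (n + 1) (a ++ [c]) (b ++ [d]))
    (h2 : ∀ n a b, S n a b → ∀ d : ℕ, ∃ c : ℕ, S (n + 1) (a ++ [c]) (b ++ [d]))
    {a b : List ℕ} (h : S 0 a b) : SameOrbit A a b := by
  have step : ∀ n a b, ∃ x y, S n a b → (S (n + 1) (a ++ [x]) (b ++ [y]) ∧
      (n % 2 = 0 → x = n / 2) ∧ (n % 2 = 1 → y = n / 2)) := by
    intro n a b
    by_cases hS : S n a b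
    · by_cases hn : n % 2 = 0
      · obtain ⟨d, hd⟩ := h1 n a b hS (n / 2)
        exact ⟨n / 2, d, fun _ => ⟨hd, fun _ => rfl, fun h => by omega⟩⟩
      · obtain ⟨c, hc⟩ := h2 n a b hS (n / 2)
        exact ⟨c, n / 2, fun _ => ⟨hc, fun h => (hn h).elim, fun _ => rfl⟩⟩
    · exact ⟨0, 0, fun h => (hS h).elim⟩
  choose X Y hXY using step
  let s : ℕ → List ℕ × List ℕ := fun n => Nat.rec (a, b)
    (fun n p => (p.1 ++ [X n p.1 p.2], p.2 ++ [Y n p.1 p.2])) n
  have hs : ∀ n, S n (s n).1 (s n).2 := by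
    intro n
    induction n with
    | zero => exact h
    | succ n ih => exact (hXY n _ _ ih).1
  have hsucc : ∀ n, (s (n + 1)).1 = (s n).1 ++ [X n (s n).1 (s n).2] ∧
      (s (n + 1)).2 = (s n).2 ++ [Y n (s n).1 (s n).2] := fun n => ⟨rfl, rfl⟩
  have hlen1 : ∀ n, (s n).1.length = a.length + n := by
    intro n
    induction n with
    | zero => rfl
    | succ n ih => rw [(hsucc n).1, List.length_append, ih]; simp; omega
  have hlen : a.length = b.length := (h0 0 a b h).1
  have hlen2 : ∀ n, (s n).2.length = a.length + n := by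
    intro n
    rw [← (h0 n _ _ (hs n)).1, hlen1]
  -- the limit sequences
  let U : ℕ → ℕ := fun p => (s (p + 1)).1.getD p 0
  let V : ℕ → ℕ := fun p => (s (p + 1)).2.getD p 0
  have hU : ∀ n p, p < a.length + n → ∀ m, (s (n + m)).1.getD p 0 = (s n).1.getD p 0 := by
    intro n p hp m
    induction m with
    | zero => rfl
    | succ m ih =>
      rw [← Nat.add_assoc, (hsucc _).1, List.getD_append _ _ _ _ (by rw [hlen1]; omega), ih]
  have hV : ∀ n p, p < a.length + n → ∀ m, (s (n + m)).2.getD p 0 = (s n).2.getD p 0 := by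
    intro n p hp m
    induction m with
    | zero => rfl
    | succ m ih =>
      rw [← Nat.add_assoc, (hsucc _).2, List.getD_append _ _ _ _ (by rw [hlen2]; omega), ih]
  have hU' : ∀ n p, p < a.length + n → (s n).1.getD p 0 = U p := by
    intro n p hp
    have e1 := hU n p hp (p + 1)
    have e2 := hU (p + 1) p (by omega) n
    rw [← e1, Nat.add_comm n]
    exact e2
  have hV' : ∀ n p, p < a.length + n → (s n).2.getD p 0 = V p := by
    intro n p hp
    have e1 := hV n p hp (p + 1)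
    have e2 := hV (p + 1) p (by omega) n
    rw [← e1, Nat.add_comm n]
    exact e2
  have hUV : ∀ p q, U p = U q ↔ V p = V q := by
    intro p q
    have hp : p < a.length + (p + q + 1) := by omega
    have hq : q < a.length + (p + q + 1) := by omega
    have hl := hlen1 (p + q + 1)
    have := (h0 _ _ _ (hs (p + q + 1))).2.1 p q (by omega) (by omega)
    rwa [hU' _ _ hp, hU' _ _ hq, hV' _ _ hp, hV' _ _ hq] at this
  have hUs : ∀ x, ∃ p, U p = x := by
    intro x
    refine ⟨a.length + 2 * x, ?_⟩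
    rw [← hU' (2 * x + 1) _ (by omega), (hsucc (2 * x)).1,
      List.getD_append_right _ _ _ _ (by rw [hlen1 (2 * x)]), hlen1 (2 * x)]
    have := (hXY (2 * x) _ _ (hs (2 * x))).2.1 (by omega)
    rw [this]
    simp
  have hVs : ∀ x, ∃ p, V p = x := by
    intro x
    refine ⟨a.length + (2 * x + 1), ?_⟩
    rw [← hV' (2 * x + 1 + 1) _ (by omega), (hsucc (2 * x + 1)).2,
      List.getD_append_right _ _ _ _ (by rw [hlen2 (2 * x + 1)]), hlen2 (2 * x + 1)]
    have := (hXY (2 * x + 1) _ _ (hs (2 * x + 1))).2.2 (by omega)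
    rw [this]
    simp
    omega
  choose P hP using hUs
  choose Q hQ using hVs
  have e1 : ∀ p, V (P (U p)) = V p := fun p => (hUV _ _).1 (hP _)
  have e2 : ∀ p, U (Q (V p)) = U p := fun p => (hUV _ _).2 (hQ _)
  let f : ℕ ≃ ℕ := ⟨fun x => V (P x), fun y => U (Q y), fun x => by
    show U (Q (V (P x))) = x
    rw [e2, hP], fun y => by
    show V (P (U (Q y))) = y
    rw [e1, hQ]⟩
  have hf : ∀ p, f (U p) = V p := e1
  refine ⟨f, fun i v => ?_, ?_⟩
  · -- all elements of `v` are listed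
    obtain ⟨N, hN⟩ : ∃ N, ∀ k, P (v k) < N := by
      refine ⟨∑ k, (P (v k) + 1), fun k => ?_⟩
      have h5 : P (v k) + 1 ≤ ∑ k, (P (v k) + 1) :=
        Finset.single_le_sum (f := fun k => P (v k) + 1) (fun _ _ => Nat.zero_le _)
          (Finset.mem_univ k)
      omega
    have h3 := (h0 _ _ _ (hs N)).2.2 i (fun k => P (v k)) (fun k => by
      have hl := hlen1 N
      have := hN k
      show P (v k) < _
      omega)
    have h4 : (fun k => (s N).1.getD (P (v k)) 0) = v := by
      funext k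
      rw [hU' N _ (by have := hN k; omega), hP]
    have h5 : (fun k => (s N).2.getD (P (v k)) 0) = fun k => f (v k) := by
      funext k
      rw [hV' N _ (by have := hN k; omega)]
      rfl
    rw [h4, h5] at h3
    exact h3
  · refine List.ext_getElem (by rw [List.length_map, hlen]) fun n hn hn' => ?_
    rw [← List.getD_eq_getElem b 0 hn, ← List.getD_eq_getElem _ 0 hn',
      getD_map f (by omega)]
    have e3 : a.getD n 0 = U n := hU' 0 n (by omega)
    have e4 : b.getD n 0 = V n := hV' 0 n (by omega)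
    rw [e3, e4, hf]

/-- tuples which are equivalent at all levels are in the same orbit -/
theorem sameOrbit_of_all {a b : List ℕ} (h : ∀ α, BF A α a b) (β : Ordinal.{0})
    (hβ : ∀ a b, BF A β a b → ∀ α, BF A α a b) : SameOrbit A a b := by
  refine bf_auto (S := fun _ a b => ∀ α, BF A α a b) (fun _ a b h => (h 0).atomic)
    (fun _ a b h c => ?_) (fun _ a b h d => ?_) h
  · obtain ⟨d, hd⟩ := (h (Order.succ β)).forth (Order.lt_succ β) c
    exact ⟨d, hβ _ _ hd⟩
  · obtain ⟨c, hc⟩ := (h (Order.succ β)).back (Order.lt_succ β) d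
    exact ⟨c, hβ _ _ hc⟩

theorem exists_stable (A : Struct ar) : ∃ β : Ordinal.{0}, ∀ a b, BF A β a b →
    ∀ α, BF A α a b := by
  classical
  have h : ∀ p : List ℕ × List ℕ, ∃ α : Ordinal.{0}, (∃ α, ¬ BF A α p.1 p.2) →
      ¬ BF A α p.1 p.2 := by
    intro p
    by_cases hp : ∃ α, ¬ BF A α p.1 p.2
    · obtain ⟨α, hα⟩ := hp
      exact ⟨α, fun _ => hα⟩
    · exact ⟨0, fun h' => (hp h').elim⟩
  choose F hF using h
  refine ⟨⨆ p, F p, fun a b hab α => ?_⟩
  by_contra hc
  have h1 := hF (a, b) ⟨α, hc⟩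
  exact h1 (hab.mono (Ordinal.le_iSup F (a, b)))

theorem tupleRank_set_nonempty (A : Struct ar) (a : List ℕ) :
    {β : Ordinal.{0} | ∀ b, BF A β a b → SameOrbit A a b}.Nonempty := by
  obtain ⟨β, hβ⟩ := exists_stable A
  exact ⟨β, fun b hb => sameOrbit_of_all (hβ a b hb) β hβ⟩

theorem tupleRank_spec (A : Struct ar) (a b : List ℕ) :
    BF A (tupleRank A a) a b ↔ SameOrbit A a b :=
  ⟨fun h => csInf_mem (tupleRank_set_nonempty A a) b h, fun h => h.bf _⟩

theorem tupleRank_le {a : List ℕ} {β : Ordinal.{0}} (h : ∀ b, BF A β a b → SameOrbit A a b) :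
    tupleRank A a ≤ β := csInf_le' h

theorem scottRank_set_nonempty (A : Struct ar) :
    {α : Ordinal.{0} | ∀ a, tupleRank A a < α}.Nonempty := by
  refine ⟨Order.succ (⨆ a, tupleRank A a), fun a => ?_⟩
  exact Order.lt_succ_of_le (Ordinal.le_iSup (tupleRank A) a)

theorem lt_scottRank (A : Struct ar) (a : List ℕ) : tupleRank A a < scottRank A :=
  csInf_mem (scottRank_set_nonempty A) a

theorem scottRank_le {α : Ordinal.{0}} (h : ∀ a, tupleRank A a < α) : scottRank A ≤ α :=
  csInf_le' h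

end Pool.Agent.Helper941.Hyp
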