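import Mathlib
import Pool.Agent.Helper941.Hyp.ScBF
import Pool.Agent.Helper941.Hyp.SigF
import Pool.Agent.Helper941.Hyp.Ind

set_option autoImplicit false
set_option maxHeartbeats 400000

namespace Pool.Agent.Helper941.Hyp

open Encodable Denumerable Nat.Partrec Pool.Agent.Helper941 Pool.Agent.Helper941.IsoProb
open Pool.Agent.Helper941.Zeta Pool.Agent.Helper941.Dim

theorem sameAtomic_iff (B : Str) (a b : List ℕ) : SameAtomic (toS B) a b ↔
    a.length = b.length ∧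
    (∀ i < a.length, ∀ j < a.length, (gt a i = gt a j ↔ gt b i = gt b j)) ∧
    ∀ i, ∀ x < a.length, ∀ y < a.length, (B i (gt a x) (gt a y) ↔ B i (gt b x) (gt b y)) := by
  unfold SameAtomic
  refine and_congr_right fun _ => and_congr ?_ ?_
  · constructor
    · intro h i hi j hj
      exact h i j hi hj
    · intro h i j hi hj
      exact h i hi j hj
  · constructor
    · intro h i x hx y hy
      exact h i ![x, y] (fun k => by fin_cases k; exacts [hx, hy])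
    · intro h i v hv
      exact h i (v 0) (hv 0) (v 1) (hv 1)

variable {B : Str}

theorem delta_SA (hB : IsComp B) :
    Delta11 fun p : List ℕ × List ℕ => SameAtomic (toS B) p.1 p.2 := by
  have hlen1 : Computable fun p : List ℕ × List ℕ => p.1.length :=
    Computable.list_length.comp (c_fst c_id)
  have hlen2 : Computable fun p : List ℕ × List ℕ => p.2.length :=
    Computable.list_length.comp (c_snd c_id)
  have h1 : Delta11 fun p : List ℕ × List ℕ => p.1.length = p.2.length :=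
    Delta11.of_computable (p_eq hlen1 hlen2)
  have h2 : Delta11 fun p : List ℕ × List ℕ => ∀ i < p.1.length, ∀ j < p.1.length,
      (gt p.1 i = gt p.1 j ↔ gt p.2 i = gt p.2 j) := by
    refine Delta11.of_computable ?_
    have e1 : Computable fun q : ((List ℕ × List ℕ) × ℕ) × ℕ => gt q.1.1.1 q.1.2 :=
      c_gt (c_fst (c_fst (c_fst c_id))) (c_snd (c_fst c_id))
    have e2 : Computable fun q : ((List ℕ × List ℕ) × ℕ) × ℕ => gt q.1.1.1 q.2 :=
      c_gt (c_fst (c_fst (c_fst c_id))) (c_snd c_id)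
    have e3 : Computable fun q : ((List ℕ × List ℕ) × ℕ) × ℕ => gt q.1.1.2 q.1.2 :=
      c_gt (c_snd (c_fst (c_fst c_id))) (c_snd (c_fst c_id))
    have e4 : Computable fun q : ((List ℕ × List ℕ) × ℕ) × ℕ => gt q.1.1.2 q.2 :=
      c_gt (c_snd (c_fst (c_fst c_id))) (c_snd c_id)
    have e5 : ComputablePred fun q : ((List ℕ × List ℕ) × ℕ) × ℕ =>
        (gt q.1.1.1 q.1.2 = gt q.1.1.1 q.2 ↔ gt q.1.1.2 q.1.2 = gt q.1.1.2 q.2) :=
      p_iff (p_eq e1 e2) (p_eq e3 e4)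
    have e6 : ComputablePred fun q : (List ℕ × List ℕ) × ℕ => ∀ j < q.1.1.length,
        (gt q.1.1 q.2 = gt q.1.1 j ↔ gt q.1.2 q.2 = gt q.1.2 j) :=
      p_ball (hlen1.comp (c_fst c_id)) e5
    exact p_ball hlen1 e6
  have h3 : Delta11 fun p : List ℕ × List ℕ => ∀ i, ∀ x < p.1.length, ∀ y < p.1.length,
      (B i (gt p.1 x) (gt p.1 y) ↔ B i (gt p.2 x) (gt p.2 y)) := by
    refine Delta11.all (P := fun q : (List ℕ × List ℕ) × ℕ => ∀ x < q.1.1.length,
      ∀ y < q.1.1.length, (B q.2 (gt q.1.1 x) (gt q.1.1 y) ↔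
        B q.2 (gt q.1.2 x) (gt q.1.2 y))) ?_
    refine Delta11.of_computable ?_
    have e0 : Computable fun q : (((List ℕ × List ℕ) × ℕ) × ℕ) × ℕ => q.1.1.2 :=
      c_snd (c_fst (c_fst c_id))
    have e1 : Computable fun q : (((List ℕ × List ℕ) × ℕ) × ℕ) × ℕ =>
        gt q.1.1.1.1 q.1.2 :=
      c_gt (c_fst (c_fst (c_fst (c_fst c_id)))) (c_snd (c_fst c_id))
    have e2 : Computable fun q : (((List ℕ × List ℕ) × ℕ) × ℕ) × ℕ => gt q.1.1.1.1 q.2 :=
      c_gt (c_fst (c_fst (c_fst (c_fst c_id)))) (c_snd c_id)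
    have e3 : Computable fun q : (((List ℕ × List ℕ) × ℕ) × ℕ) × ℕ =>
        gt q.1.1.1.2 q.1.2 :=
      c_gt (c_snd (c_fst (c_fst (c_fst c_id)))) (c_snd (c_fst c_id))
    have e4 : Computable fun q : (((List ℕ × List ℕ) × ℕ) × ℕ) × ℕ => gt q.1.1.1.2 q.2 :=
      c_gt (c_snd (c_fst (c_fst (c_fst c_id)))) (c_snd c_id)
    have e5 : ComputablePred fun q : (((List ℕ × List ℕ) × ℕ) × ℕ) × ℕ =>
        (B q.1.1.2 (gt q.1.1.1.1 q.1.2) (gt q.1.1.1.1 q.2) ↔
          B q.1.1.2 (gt q.1.1.1.2 q.1.2) (gt q.1.1.1.2 q.2)) :=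
      p_iff (computablePred_comp hB (c_pair e0 (c_pair e1 e2)))
        (computablePred_comp hB (c_pair e0 (c_pair e3 e4)))
    have e6 : ComputablePred fun q : ((List ℕ × List ℕ) × ℕ) × ℕ => ∀ y < q.1.1.1.length,
        (B q.1.2 (gt q.1.1.1 q.2) (gt q.1.1.1 y) ↔
          B q.1.2 (gt q.1.1.2 q.2) (gt q.1.1.2 y)) :=
      p_ball (hlen1.comp (c_fst (c_fst c_id))) e5
    exact p_ball (hlen1.comp (c_fst c_id)) e6
  exact (h1.and (h2.and h3)).of_iff fun p => sameAtomic_iff B p.1 p.2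

/-- one step of the back-and-forth recursion along the relation `R` -/
def eqs (B : Str) (R : ℕ → ℕ → Prop) (g : ℕ → ℕ) (q : ℕ × List ℕ × List ℕ) : Prop :=
  SameAtomic (toS B) q.2.1 q.2.2 ∧ ∀ y, R y q.1 →
    (∀ c : List ℕ, ∃ d : List ℕ, g (encode (y, q.2.1 ++ c, q.2.2 ++ d)) = 1) ∧
    ∀ d : List ℕ, ∃ c : List ℕ, g (encode (y, q.2.1 ++ c, q.2.2 ++ d)) = 1

theorem c_app {α : Type} [Primcodable α] {f g : α → List ℕ} (hf : Computable f)
    (hg : Computable g) : Computable fun a => f a ++ g a :=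
  (Primrec.list_append.to_comp).comp hf hg

theorem delF_eqs {β : Type} [Primcodable β] (hB : IsComp B) {R : β → ℕ → ℕ → Prop}
    (hR : ComputablePred fun p : β × ℕ × ℕ => R p.1 p.2.1 p.2.2) :
    DelF fun g (p : β × ℕ × List ℕ × List ℕ) => eqs B (R p.1) g p.2 := by
  have h1 : DelF fun _ (p : β × ℕ × List ℕ × List ℕ) => SameAtomic (toS B) p.2.2.1 p.2.2.2 :=
    DelF.of_delta ((delta_SA hB).comp (c_snd (c_snd c_id)))
  have h2 : DelF fun _ (p : (β × ℕ × List ℕ × List ℕ) × ℕ) => R p.1.1 p.2 p.1.2.1 :=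
    DelF.of_computable (computablePred_comp hR (c_pair (c_fst (c_fst c_id))
      (c_pair (c_snd c_id) (c_fst (c_snd (c_fst c_id))))))
  have h3 : DelF fun (g : ℕ → ℕ) (p : (β × ℕ × List ℕ × List ℕ) × ℕ) =>
      ∀ c : List ℕ, ∃ d : List ℕ, g (encode (p.2, p.1.2.2.1 ++ c, p.1.2.2.2 ++ d)) = 1 := by
    refine DelF.all' (P := fun (g : ℕ → ℕ)
      (p : ((β × ℕ × List ℕ × List ℕ) × ℕ) × List ℕ) =>
      ∃ d : List ℕ, g (encode (p.1.2, p.1.1.2.2.1 ++ p.2, p.1.1.2.2.2 ++ d)) = 1) ?_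
    refine DelF.ex' (P := fun (g : ℕ → ℕ)
      (p : (((β × ℕ × List ℕ × List ℕ) × ℕ) × List ℕ) × List ℕ) =>
      g (encode (p.1.1.2, p.1.1.1.2.2.1 ++ p.1.2, p.1.1.1.2.2.2 ++ p.2)) = 1) ?_
    have e1 : Computable fun p : (((β × ℕ × List ℕ × List ℕ) × ℕ) × List ℕ) × List ℕ =>
        p.1.1.2 := c_snd (c_fst (c_fst c_id))
    have e2 : Computable fun p : (((β × ℕ × List ℕ × List ℕ) × ℕ) × List ℕ) × List ℕ =>
        p.1.1.1.2.2.1 := c_fst (c_snd (c_snd (c_fst (c_fst (c_fst c_id)))))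
    have e3 : Computable fun p : (((β × ℕ × List ℕ × List ℕ) × ℕ) × List ℕ) × List ℕ =>
        p.1.1.1.2.2.2 := c_snd (c_snd (c_snd (c_fst (c_fst (c_fst c_id)))))
    have e4 : Computable fun p : (((β × ℕ × List ℕ × List ℕ) × ℕ) × List ℕ) × List ℕ =>
        p.1.2 := c_snd (c_fst c_id)
    have e5 : Computable fun p : (((β × ℕ × List ℕ × List ℕ) × ℕ) × List ℕ) × List ℕ =>
        p.2 := c_snd c_id
    exact DelF.atom (x := fun p : (((β × ℕ × List ℕ × List ℕ) × ℕ) × List ℕ) × List ℕ =>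
      encode (p.1.1.2, p.1.1.1.2.2.1 ++ p.1.2, p.1.1.1.2.2.2 ++ p.2))
      (Computable.encode.comp (c_pair e1 (c_pair (c_app e2 e4) (c_app e3 e5))))
      (P := fun z => z.2 = 1) (p_eq (c_snd c_id) (c_const 1))
  have h4 : DelF fun (g : ℕ → ℕ) (p : (β × ℕ × List ℕ × List ℕ) × ℕ) =>
      ∀ d : List ℕ, ∃ c : List ℕ, g (encode (p.2, p.1.2.2.1 ++ c, p.1.2.2.2 ++ d)) = 1 := by
    refine DelF.all' (P := fun (g : ℕ → ℕ)
      (p : ((β × ℕ × List ℕ × List ℕ) × ℕ) × List ℕ) =>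
      ∃ c : List ℕ, g (encode (p.1.2, p.1.1.2.2.1 ++ c, p.1.1.2.2.2 ++ p.2)) = 1) ?_
    refine DelF.ex' (P := fun (g : ℕ → ℕ)
      (p : (((β × ℕ × List ℕ × List ℕ) × ℕ) × List ℕ) × List ℕ) =>
      g (encode (p.1.1.2, p.1.1.1.2.2.1 ++ p.2, p.1.1.1.2.2.2 ++ p.1.2)) = 1) ?_
    have e1 : Computable fun p : (((β × ℕ × List ℕ × List ℕ) × ℕ) × List ℕ) × List ℕ =>
        p.1.1.2 := c_snd (c_fst (c_fst c_id))
    have e2 : Computable fun p : (((β × ℕ × List ℕ × List ℕ) × ℕ) × List ℕ) × List ℕ =>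
        p.1.1.1.2.2.1 := c_fst (c_snd (c_snd (c_fst (c_fst (c_fst c_id)))))
    have e3 : Computable fun p : (((β × ℕ × List ℕ × List ℕ) × ℕ) × List ℕ) × List ℕ =>
        p.1.1.1.2.2.2 := c_snd (c_snd (c_snd (c_fst (c_fst (c_fst c_id)))))
    have e4 : Computable fun p : (((β × ℕ × List ℕ × List ℕ) × ℕ) × List ℕ) × List ℕ =>
        p.1.2 := c_snd (c_fst c_id)
    have e5 : Computable fun p : (((β × ℕ × List ℕ × List ℕ) × ℕ) × List ℕ) × List ℕ =>
        p.2 := c_snd c_id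
    exact DelF.atom (x := fun p : (((β × ℕ × List ℕ × List ℕ) × ℕ) × List ℕ) × List ℕ =>
      encode (p.1.1.2, p.1.1.1.2.2.1 ++ p.2, p.1.1.1.2.2.2 ++ p.1.2))
      (Computable.encode.comp (c_pair e1 (c_pair (c_app e2 e5) (c_app e3 e4))))
      (P := fun z => z.2 = 1) (p_eq (c_snd c_id) (c_const 1))
  have h5 : DelF fun (g : ℕ → ℕ) (p : β × ℕ × List ℕ × List ℕ) => ∀ y, R p.1 y p.2.1 →
      (∀ c : List ℕ, ∃ d : List ℕ, g (encode (y, p.2.2.1 ++ c, p.2.2.2 ++ d)) = 1) ∧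
      ∀ d : List ℕ, ∃ c : List ℕ, g (encode (y, p.2.2.1 ++ c, p.2.2.2 ++ d)) = 1 :=
    DelF.all (P := fun (g : ℕ → ℕ) (p : (β × ℕ × List ℕ × List ℕ) × ℕ) =>
      R p.1.1 p.2 p.1.2.1 →
      (∀ c : List ℕ, ∃ d : List ℕ, g (encode (p.2, p.1.2.2.1 ++ c, p.1.2.2.2 ++ d)) = 1) ∧
      ∀ d : List ℕ, ∃ c : List ℕ, g (encode (p.2, p.1.2.2.1 ++ c, p.1.2.2.2 ++ d)) = 1)
      (h2.imp (h3.and h4))
  exact h1.and h5

/-- `g` codes the back-and-forth relations along `R` -/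
def Sol (B : Str) (R : ℕ → ℕ → Prop) (g : ℕ → ℕ) : Prop :=
  ∀ q : ℕ × List ℕ × List ℕ, g (encode q) = 1 ↔ eqs B R g q

theorem delF_val {α : Type} [Primcodable α] {x : α → ℕ} (hx : Computable x) :
    DelF fun (g : ℕ → ℕ) (a : α) => g (x a) = 1 :=
  DelF.atom hx (P := fun z : α × ℕ => z.2 = 1) (p_eq (c_snd c_id) (c_const 1))

theorem delF_Sol {α : Type} [Primcodable α] (hB : IsComp B) {R : ℕ → ℕ → Prop}
    (hR : ComputablePred fun p : ℕ × ℕ => R p.1 p.2) :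
    DelF fun (g : ℕ → ℕ) (_ : α) => Sol B R g := by
  have h1 : DelF fun (g : ℕ → ℕ) (p : α × ℕ × List ℕ × List ℕ) => g (encode p.2) = 1 :=
    delF_val (Computable.encode.comp (c_snd c_id))
  have h2 : DelF fun (g : ℕ → ℕ) (p : α × ℕ × List ℕ × List ℕ) => eqs B R g p.2 :=
    delF_eqs (β := α) (R := fun _ => R) hB (computablePred_comp hR (c_snd c_id))
  exact DelF.all' (P := fun (g : ℕ → ℕ) (p : α × ℕ × List ℕ × List ℕ) =>
    g (encode p.2) = 1 ↔ eqs B R g p.2) (h1.iff h2)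

/-- the solution -/
theorem sol_iff {R : ℕ → ℕ → Prop} [hR : IsWellOrder ℕ R] {g : ℕ → ℕ} (hg : Sol B R g) (x : ℕ) :
    ∀ a b : List ℕ, g (encode (x, a, b)) = 1 ↔ BF (toS B) (Ordinal.typein R x) a b := by
  induction x using hR.wf.induction with
  | h x ih =>
    intro a b
    rw [hg (x, a, b), bf_iff]
    refine and_congr_right fun _ => ?_
    constructor
    · intro h β hβ
      obtain ⟨y, rfl⟩ := Ordinal.typein_surj R (hβ.trans (Ordinal.typein_lt_type R x))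
      have hy : R y x := (Ordinal.typein_lt_typein R).1 hβ
      obtain ⟨h1, h2⟩ := h y hy
      refine ⟨fun c => ?_, fun d => ?_⟩
      · obtain ⟨d, hd⟩ := h1 c
        exact ⟨d, (ih y hy _ _).1 hd⟩
      · obtain ⟨c, hc⟩ := h2 d
        exact ⟨c, (ih y hy _ _).1 hc⟩
    · intro h y hy
      obtain ⟨h1, h2⟩ := h _ ((Ordinal.typein_lt_typein R).2 hy)
      refine ⟨fun c => ?_, fun d => ?_⟩
      · obtain ⟨d, hd⟩ := h1 c
        exact ⟨d, (ih y hy _ _).2 hd⟩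
      · obtain ⟨c, hc⟩ := h2 d
        exact ⟨c, (ih y hy _ _).2 hc⟩

open Classical in
/-- the characteristic function of the back-and-forth relations along `R` -/
noncomputable def theG (B : Str) (R : ℕ → ℕ → Prop) [IsWellOrder ℕ R] (n : ℕ) : ℕ :=
  if BF (toS B) (Ordinal.typein R (ofNat (ℕ × List ℕ × List ℕ) n).1)
    (ofNat (ℕ × List ℕ × List ℕ) n).2.1 (ofNat (ℕ × List ℕ × List ℕ) n).2.2 then 1 else 0

theorem theG_iff {R : ℕ → ℕ → Prop} [IsWellOrder ℕ R] (x : ℕ) (a b : List ℕ) :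
    theG B R (encode (x, a, b)) = 1 ↔ BF (toS B) (Ordinal.typein R x) a b := by
  unfold theG
  rw [ofNat_encode]
  simp

theorem sol_theG {R : ℕ → ℕ → Prop} [IsWellOrder ℕ R] : Sol B R (theG B R) := by
  rintro ⟨x, a, b⟩
  rw [theG_iff, bf_iff]
  refine and_congr_right fun _ => ?_
  constructor
  · intro h y hy
    obtain ⟨h1, h2⟩ := h _ ((Ordinal.typein_lt_typein R).2 hy)
    refine ⟨fun c => ?_, fun d => ?_⟩
    · obtain ⟨d, hd⟩ := h1 c
      exact ⟨d, (theG_iff _ _ _).2 hd⟩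
    · obtain ⟨c, hc⟩ := h2 d
      exact ⟨c, (theG_iff _ _ _).2 hc⟩
  · intro h β hβ
    obtain ⟨y, rfl⟩ := Ordinal.typein_surj R (hβ.trans (Ordinal.typein_lt_type R x))
    obtain ⟨h1, h2⟩ := h y ((Ordinal.typein_lt_typein R).1 hβ)
    refine ⟨fun c => ?_, fun d => ?_⟩
    · obtain ⟨d, hd⟩ := h1 c
      exact ⟨d, (theG_iff _ _ _).1 hd⟩
    · obtain ⟨c, hc⟩ := h2 d
      exact ⟨c, (theG_iff _ _ _).1 hc⟩

/-- the back-and-forth relations at computable levels are hyperarithmetic -/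
theorem delta_BF (hB : IsComp B) {R : ℕ → ℕ → Prop} [IsWellOrder ℕ R]
    (hR : ComputablePred fun p : ℕ × ℕ => R p.1 p.2) (x : ℕ) :
    Delta11 fun p : List ℕ × List ℕ => BF (toS B) (Ordinal.typein R x) p.1 p.2 := by
  have hv : DelF fun (g : ℕ → ℕ) (p : List ℕ × List ℕ) => g (encode (x, p.1, p.2)) = 1 :=
    delF_val (Computable.encode.comp (c_pair (c_const x) c_id))
  have hs : DelF fun (g : ℕ → ℕ) (_ : List ℕ × List ℕ) => Sol B R g := delF_Sol hB hR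
  constructor
  · refine (hs.and hv).1.exf.of_iff fun p => ?_
    constructor
    · intro h
      exact ⟨theG B R, sol_theG, (theG_iff _ _ _).2 h⟩
    · rintro ⟨g, hg, h⟩
      exact (sol_iff hg x _ _).1 h
  · refine (hs.and hv.not).1.exf.of_iff fun p => ?_
    constructor
    · intro h
      exact ⟨theG B R, sol_theG, fun h' => h ((theG_iff _ _ _).1 h')⟩
    · rintro ⟨g, hg, h⟩ h'
      exact h ((sol_iff hg x _ _).2 h')

end Pool.Agent.Helper941.Hyp
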