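import Mathlib
import Pool.Agent.Helper941.Hyp.ScSig
import Pool.Agent.Helper941.Hyp.KB

set_option autoImplicit false
set_option maxHeartbeats 400000

namespace Pool.Agent.Helper941.Hyp

open Encodable Denumerable Nat.Partrec Pool.Agent.Helper941 Pool.Agent.Helper941.IsoProb
open Pool.Agent.Helper941.Zeta Pool.Agent.Helper941.Dim

theorem omega1CK_bdd : BddAbove {α : Ordinal.{0} | ∃ (r : ℕ → ℕ → Prop) (_ : IsWellOrder ℕ r),
    ComputablePred (fun p : ℕ × ℕ => r p.1 p.2) ∧ Ordinal.type r = α} := by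
  classical
  have h : {α : Ordinal.{0} | ∃ (r : ℕ → ℕ → Prop) (_ : IsWellOrder ℕ r),
      ComputablePred (fun p : ℕ × ℕ => r p.1 p.2) ∧ Ordinal.type r = α} ⊆
      Set.range fun r : {r : ℕ → ℕ → Prop // IsWellOrder ℕ r} =>
        haveI := r.2; Ordinal.type r.1 := by
    rintro α ⟨r, hr, _, rfl⟩
    exact ⟨⟨r, hr⟩, rfl⟩
  exact (Ordinal.bddAbove_of_small).mono h

theorem type_le_omega1CK {R : ℕ → ℕ → Prop} [h : IsWellOrder ℕ R]
    (hR : ComputablePred fun p : ℕ × ℕ => R p.1 p.2) : Ordinal.type R ≤ omega1CK :=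
  le_csSup omega1CK_bdd ⟨R, h, hR, rfl⟩

/-- the natural ordering of `ω` -/
theorem exists_lt_type {α : Ordinal.{0}} (h : α < omega1CK) :
    ∃ (R : ℕ → ℕ → Prop) (_ : IsWellOrder ℕ R),
      ComputablePred (fun p : ℕ × ℕ => R p.1 p.2) ∧ α < Ordinal.type R := by
  have hne : {α : Ordinal.{0} | ∃ (r : ℕ → ℕ → Prop) (_ : IsWellOrder ℕ r),
      ComputablePred (fun p : ℕ × ℕ => r p.1 p.2) ∧ Ordinal.type r = α}.Nonempty :=
    ⟨_, (· < ·), inferInstance, p_lt (c_fst c_id) (c_snd c_id), rfl⟩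
  obtain ⟨_, ⟨R, hR, hc, rfl⟩, hlt⟩ := exists_lt_of_lt_csSup hne h
  exact ⟨R, hR, hc, hlt⟩

variable {B : Str}

theorem sigma_W (hB : IsComp B) (a b : List ℕ) : Sigma11 fun e : ℕ =>
    ∃ g : ℕ → ℕ, (∀ q, g (encode q) = 1 → eqs B (ordE e) g q) ∧
      ∀ x : ℕ, g (encode (x, a, b)) = 1 := by
  have h1 : DelF fun (g : ℕ → ℕ) (p : ℕ × ℕ × List ℕ × List ℕ) => g (encode p.2) = 1 :=
    delF_val (Computable.encode.comp (c_snd c_id))
  have h2 : DelF fun (g : ℕ → ℕ) (p : ℕ × ℕ × List ℕ × List ℕ) => eqs B (ordE p.1) g p.2 :=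
    delF_eqs (β := ℕ) (R := ordE) hB p_ordE
  have h3 : DelF fun (g : ℕ → ℕ) (e : ℕ) => ∀ q, g (encode q) = 1 → eqs B (ordE e) g q :=
    DelF.all' (P := fun (g : ℕ → ℕ) (p : ℕ × ℕ × List ℕ × List ℕ) =>
      g (encode p.2) = 1 → eqs B (ordE p.1) g p.2) (h1.imp h2)
  have h4 : DelF fun (g : ℕ → ℕ) (p : ℕ × ℕ) => g (encode (p.2, a, b)) = 1 :=
    delF_val (Computable.encode.comp (c_pair (c_snd c_id) (c_const (a, b))))
  have h5 : DelF fun (g : ℕ → ℕ) (_ : ℕ) => ∀ x : ℕ, g (encode (x, a, b)) = 1 :=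
    DelF.all (P := fun (g : ℕ → ℕ) (p : ℕ × ℕ) => g (encode (p.2, a, b)) = 1) h4
  exact (h3.and h5).1.exf

/-- back-and-forth equivalence below `ω₁ᶜᴷ` implies automorphism -/
theorem nadel (hB : IsComp B) {a b : List ℕ} (h : BF (toS B) omega1CK a b) :
    SameOrbit (toS B) a b := by
  classical
  have hex : ∃ e, UU1 e e ∧ ∃ g : ℕ → ℕ, (∀ q, g (encode q) = 1 → eqs B (ordE e) g q) ∧
      ∀ x : ℕ, g (encode (x, a, b)) = 1 := by
    by_contra hc
    push Not at hc
    apply not_sigma_diag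
    refine (sigma_W hB a b).of_iff fun e => ?_
    constructor
    · intro he
      have := ordE_wo he
      have hR : ComputablePred fun p : ℕ × ℕ => ordE e p.1 p.2 :=
        computablePred_comp p_ordE (c_pair (c_const e) c_id)
      refine ⟨theG B (ordE e), fun q hq => (sol_theG q).1 hq, fun x => ?_⟩
      rw [theG_iff]
      exact h.mono ((Ordinal.typein_lt_type _ x).le.trans (type_le_omega1CK hR))
    · rintro ⟨g, h1, h2⟩ he
      obtain ⟨x, hx⟩ := hc e he g h1
      exact hx (h2 x)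
  obtain ⟨e, he, g, h1, h2⟩ := hex
  obtain ⟨x, hx⟩ := ordE_desc he
  refine bf_auto (S := fun n a b => g (encode (x n, a, b)) = 1) ?_ ?_ ?_ (h2 (x 0))
  · intro n a b hS
    exact (h1 _ hS).1
  · intro n a b hS c
    obtain ⟨d, hd⟩ := ((h1 _ hS).2 _ (hx n)).1 [c]
    have e1 := (h1 _ hS).1.1
    have e2 := (h1 _ hd).1.1
    simp only [List.length_append, List.length_singleton] at e1 e2
    obtain ⟨y, rfl⟩ := List.length_eq_one_iff.1 (show d.length = 1 by omega)
    exact ⟨y, hd⟩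
  · intro n a b hS d
    obtain ⟨c, hc⟩ := ((h1 _ hS).2 _ (hx n)).2 [d]
    have e1 := (h1 _ hS).1.1
    have e2 := (h1 _ hc).1.1
    simp only [List.length_append, List.length_singleton] at e1 e2
    obtain ⟨y, rfl⟩ := List.length_eq_one_iff.1 (show c.length = 1 by omega)
    exact ⟨y, hc⟩

/-- the Scott rank of a computable structure is at most `ω₁ᶜᴷ + 1` -/
theorem scottRank_le_omega (hB : IsComp B) : scottRank (toS B) ≤ omega1CK + 1 := by
  refine scottRank_le fun a => ?_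
  have h : tupleRank (toS B) a ≤ omega1CK := tupleRank_le fun b hb => nadel hB hb
  exact lt_of_le_of_lt h (Order.lt_succ _)

theorem noncomputable_iff (hB : IsComp B) :
    NoncomputableScottRank (toS B) ↔ omega1CK ≤ scottRank (toS B) := by
  unfold NoncomputableScottRank
  constructor
  · rintro (h | h)
    · exact h.ge
    · rw [h]; exact (Order.lt_succ _).le
  · intro h
    rcases eq_or_lt_of_le h with h1 | h1
    · exact Or.inl h1.symm
    · exact Or.inr (le_antisymm (scottRank_le_omega hB) (Order.succ_le_of_lt h1))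

end Pool.Agent.Helper941.Hyp
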