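import Mathlib
import Pool.Agent.Helper941.Hyp.Cls
import Pool.Agent.Helper941.Hyp.Nadel

set_option autoImplicit false
set_option maxHeartbeats 400000

namespace Pool.Agent.Helper941.Hyp

open Encodable Denumerable Nat.Partrec Pool.Agent.Helper941 Pool.Agent.Helper941.IsoProb
open Pool.Agent.Helper941.Zeta Pool.Agent.Helper941.Dim

/-- the structure with empty relation `0` -/
abbrev NS : Str := MS fun _ => False

theorem ns_zero {x y : ℕ} : ¬ NS 0 x y := by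
  show ¬ MS _ 0 x y
  rw [ms_zero]
  exact fun h => h.2

theorem ns_ne {i x y : ℕ} (hi : i ≠ 0) :
    NS i x y ↔ Rel pH false i (el pH x) (el pH y) := ms_ne hi

theorem ns_comp : IsComp NS := by
  have h : ComputablePred fun _ : Unit × ℕ => False :=
    ComputablePred.computable_iff.2 ⟨fun _ => false, Computable.const _, by funext a; simp⟩
  have h1 := ms_comp (β := Unit) (P := fun _ _ => False) h
  exact computablePred_comp (P := fun q : Unit × ℕ × ℕ × ℕ => MS (fun _ => False) q.2.1 q.2.2.1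
    q.2.2.2) h1 (f := fun q : ℕ × ℕ × ℕ => ((), q)) (c_pair (c_const ()) c_id)

/-- flows give automorphisms -/
theorem flow_aut {t : ℕ → ℕ} (hF : Flow pH t) : ∃ f : ℕ ≃ ℕ, IsAut (toS NS) f ∧
    ∀ x, el pH (f x) = sh t (el pH x) := by
  have h0 : PIso pH (As pH false) (idx pH) := by
    refine ⟨fun i p q _ hp hq => ?_, fun p q hp hq h => ?_, fun z => ?_⟩
    · show _ ↔ Rel pH false i (el pH (idx pH p)) (el pH (idx pH q))
      rw [el_idx hp, el_idx hq]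
    · rw [← el_idx hp, h, el_idx hq]
    · exact ⟨el pH z, el_valid _ z, idx_el _ z⟩
  obtain ⟨f, h1, h2⟩ := (h0.shift hF).toIso
  have h3 : ∀ x, el pH (f x) = sh t (el pH x) := by
    intro x
    rw [h2, el_idx (sh_valid hF (el_valid _ x))]
  refine ⟨f, fun i v => ?_, h3⟩
  show NS i (v 0) (v 1) ↔ NS i (f (v 0)) (f (v 1))
  by_cases hi : i = 0
  · subst hi
    exact ⟨fun h => (ns_zero h).elim, fun h => (ns_zero h).elim⟩
  · rw [ns_ne hi, ns_ne hi]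
    exact h1 i _ _ hi

/-- the orbits of the elements of the sort of the root -/
theorem orbit_iff (u : ℕ) : XA u ↔ (1 ≤ u ∧ pH u = 0) ∧
    SameOrbit (toS NS) [idx pH (Nat.pair 0 0)] [idx pH (Nat.pair 0 (2 ^ u))] := by
  have hv : 1 ≤ u ∧ pH u = 0 → Valid pH (Nat.pair 0 (2 ^ u)) := by
    intro h w hw
    rw [Nat.unpair_pair] at hw ⊢
    rw [Nat.testBit_two_pow] at hw
    have : u = w := by simpa using hw
    rw [← this]
    exact h
  constructor
  · rintro ⟨t, hF, ht⟩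
    have h1 := hF.child 0 u (by rw [ht, Nat.testBit_two_pow]; simp)
    refine ⟨h1, ?_⟩
    obtain ⟨f, hf, hf'⟩ := flow_aut hF
    refine ⟨f, hf, ?_⟩
    have h2 : f (idx pH (Nat.pair 0 0)) = idx pH (Nat.pair 0 (2 ^ u)) := by
      rw [← idx_el pH (f _), hf', el_idx (valid_base _ 0)]
      unfold sh
      rw [Nat.unpair_pair, Nat.zero_xor, ht]
    simp [h2]
  · rintro ⟨h1, f, hf, hf'⟩
    have h2 : f (idx pH (Nat.pair 0 0)) = idx pH (Nat.pair 0 (2 ^ u)) := by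
      simpa using hf'.symm
    have h3 : RedIso pH (As pH false) f := by
      intro i x y hi
      have := hf i ![x, y]
      have h4 : NS i x y ↔ NS i (f x) (f y) := this
      rw [ns_ne hi, ns_ne hi] at h4
      exact h4
    obtain ⟨t, hF, ht⟩ := aut_shift h3
    refine ⟨t, hF, ?_⟩
    have h4 := ht (idx pH (Nat.pair 0 0))
    rw [h2, el_idx (hv h1), el_idx (valid_base _ 0)] at h4
    unfold sh at h4
    rw [Nat.unpair_pair, Nat.zero_xor] at h4
    exact (Nat.pair_eq_pair.1 h4).2.symm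

/-- the Scott rank of the structure is not a computable ordinal -/
theorem omega_le_rank : omega1CK ≤ scottRank (toS NS) := by
  by_contra hc
  push Not at hc
  obtain ⟨R, hR, hRc, hlt⟩ := exists_lt_type hc
  obtain ⟨x, hx⟩ := Ordinal.typein_surj R
    ((lt_scottRank (toS NS) [idx pH (Nat.pair 0 0)]).trans hlt)
  apply not_delta_XA
  have h1 : Delta11 fun p : List ℕ × List ℕ =>
      BF (toS NS) (Ordinal.typein R x) p.1 p.2 := delta_BF ns_comp hRc x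
  rw [hx] at h1
  have h2 : Computable fun u : ℕ => [idx pH (Nat.pair 0 (2 ^ u))] :=
    Computable.list_cons.comp ((c_idx c_pH).comp (c_npair (c_const 0) (c_pow c_id)))
      (c_const [])
  have h3 : Delta11 fun u : ℕ => 1 ≤ u ∧ pH u = 0 :=
    Delta11.of_computable (p_and (p_le (c_const 1) c_id) (p_eq c_pH (c_const 0)))
  have h4 := h3.and (h1.comp (c_pair (c_const [idx pH (Nat.pair 0 0)]) h2))
  refine h4.of_iff fun u => ?_
  rw [orbit_iff, ← tupleRank_spec]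

theorem high_NS : NoncomputableScottRank (toS NS) :=
  (noncomputable_iff ns_comp).2 omega_le_rank

/-! ### the class -/

def KN : Set (Struct ar2) := {S | IsComputable S ∧ Iso (toS NS) S}

theorem kn_class : IsClass KN :=
  ⟨fun _ hA => hA.1, fun _ hA _ hB hAB => ⟨hB, hA.2.trans hAB⟩⟩

theorem ns_isComputable : IsComputable (toS NS) := by
  obtain ⟨g, _, hg⟩ := exists_idx (β := Unit) (M := fun _ => NS)
    (computablePred_comp (P := fun q : ℕ × ℕ × ℕ => NS q.1 q.2.1 q.2.2) ns_comp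
      (c_snd c_id))
  exact ⟨g (), hg ()⟩

/-- `k` is an index of an isomorphism of the reducts -/
def ClsQ (e k : ℕ) : Prop :=
  (∀ x, ∃ y, EvE k x y) ∧ (∀ y, ∃ x, EvE k x y) ∧
  (∀ q : ℕ × ℕ × ℕ, EvE k q.1 q.2.2 → EvE k q.2.1 q.2.2 → q.1 = q.2.1) ∧
  (∀ q : ℕ × ℕ × ℕ × ℕ × ℕ, EvE k q.2.1 q.2.2.2.1 → EvE k q.2.2.1 q.2.2.2.2 → q.1 ≠ 0 →
    (Rel pH false q.1 (el pH q.2.1) (el pH q.2.2.1) ↔ SI e q.1 q.2.2.2.1 q.2.2.2.2))

theorem idx_kn (e : ℕ) : IndexSet KN e ↔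
    Idx e ∧ (∀ q : ℕ × ℕ, ¬ SI e 0 q.1 q.2) ∧ ∃ k, ClsQ e k := by
  constructor
  · rintro ⟨A, ⟨_, hA⟩, he⟩
    obtain ⟨h1, h2⟩ := eq_of_index he
    rw [h2] at hA
    obtain ⟨f, hf⟩ := iso_toS.1 hA
    have h0 : RedIso pH (SI e) f := by
      intro i x y hi
      have := hf i x y
      rw [ns_ne hi] at this
      exact this
    obtain ⟨k, hk, hkc⟩ : ∃ k : ℕ ≃ ℕ, RedIso pH (SI e) k ∧ Computable k :=
      cc p_HT c_prn th_HT (comp_SI h1) h0
    refine ⟨h1, fun q hq => ?_, ?_⟩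
    · have h3 := (hf 0 (f.symm q.1) (f.symm q.2)).2 (by simpa using hq)
      exact ns_zero h3
    · obtain ⟨c, hc⟩ := Code.exists_code.1 (Partrec.nat_iff.1 hkc.partrec)
      have hev : ∀ x y, EvE (encode c) x y ↔ k x = y := by
        intro x y
        unfold EvE
        rw [ofNat_encode, hc]
        exact Part.some_inj
      refine ⟨encode c, fun x => ⟨k x, (hev _ _).2 rfl⟩,
        fun y => ⟨k.symm y, (hev _ _).2 (by simp)⟩, fun q hq1 hq2 => ?_,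
        fun q hq1 hq2 hq3 => ?_⟩
      · rw [hev] at hq1 hq2
        exact k.injective (hq1.trans hq2.symm)
      · rw [hev] at hq1 hq2
        rw [← hq1, ← hq2]
        exact hk _ _ _ hq3
  · rintro ⟨h1, h2, k, h3, h4, h5, h6⟩
    choose f hf using h3
    have hbij : Function.Bijective f := by
      constructor
      · intro x y hxy
        refine h5 (x, y, f x) (hf x) ?_
        show EvE k y (f x)
        rw [hxy]
        exact hf y
      · intro y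
        obtain ⟨x, hx⟩ := h4 y
        refine ⟨x, ?_⟩
        exact Part.some_inj.1 ((hf x).symm.trans hx)
    refine ⟨toS (SI e), ⟨⟨e, idx_of h1⟩, iso_toS.2 ⟨Equiv.ofBijective f hbij,
      fun i x y => ?_⟩⟩, idx_of h1⟩
    by_cases hi : i = 0
    · subst hi
      exact ⟨fun h => (ns_zero h).elim, fun h => (h2 (f x, f y) h).elim⟩
    · rw [ns_ne hi]
      exact h6 (i, x, y, f x, f y) (hf x) (hf y) hi

theorem delta_ClsQ : Delta11 fun r : ℕ × ℕ => ClsQ r.1 r.2 := by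
  have hel : Computable (el pH) := c_el c_pH
  have h3 : Delta11 fun r : ℕ × ℕ => ∀ x, ∃ y, EvE r.2 x y :=
    Delta11.all (P := fun s : (ℕ × ℕ) × ℕ => ∃ y, EvE s.1.2 s.2 y)
      (Delta11.ex (P := fun s : ((ℕ × ℕ) × ℕ) × ℕ => EvE s.1.1.2 s.1.2 s.2)
        (delta_EvE (c_snd (c_fst (c_fst c_id))) (c_snd (c_fst c_id)) (c_snd c_id)))
  have h4 : Delta11 fun r : ℕ × ℕ => ∀ y, ∃ x, EvE r.2 x y :=
    Delta11.all (P := fun s : (ℕ × ℕ) × ℕ => ∃ x, EvE s.1.2 x s.2)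
      (Delta11.ex (P := fun s : ((ℕ × ℕ) × ℕ) × ℕ => EvE s.1.1.2 s.2 s.1.2)
        (delta_EvE (c_snd (c_fst (c_fst c_id))) (c_snd c_id) (c_snd (c_fst c_id))))
  have h5 : Delta11 fun r : ℕ × ℕ => ∀ q : ℕ × ℕ × ℕ,
      EvE r.2 q.1 q.2.2 → EvE r.2 q.2.1 q.2.2 → q.1 = q.2.1 := by
    refine Delta11.all' (P := fun s : (ℕ × ℕ) × ℕ × ℕ × ℕ =>
      EvE s.1.2 s.2.1 s.2.2.2 → EvE s.1.2 s.2.2.1 s.2.2.2 → s.2.1 = s.2.2.1) ?_
    have hk : Computable fun s : (ℕ × ℕ) × ℕ × ℕ × ℕ => s.1.2 := c_snd (c_fst c_id)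
    have ha : Computable fun s : (ℕ × ℕ) × ℕ × ℕ × ℕ => s.2.1 := c_fst (c_snd c_id)
    have hb : Computable fun s : (ℕ × ℕ) × ℕ × ℕ × ℕ => s.2.2.1 :=
      c_fst (c_snd (c_snd c_id))
    have hc : Computable fun s : (ℕ × ℕ) × ℕ × ℕ × ℕ => s.2.2.2 :=
      c_snd (c_snd (c_snd c_id))
    exact (delta_EvE hk ha hc).imp ((delta_EvE hk hb hc).imp
      (Delta11.of_computable (p_eq ha hb)))
  have h6 : Delta11 fun r : ℕ × ℕ => ∀ q : ℕ × ℕ × ℕ × ℕ × ℕ,
      EvE r.2 q.2.1 q.2.2.2.1 → EvE r.2 q.2.2.1 q.2.2.2.2 → q.1 ≠ 0 →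
      (Rel pH false q.1 (el pH q.2.1) (el pH q.2.2.1) ↔
        SI r.1 q.1 q.2.2.2.1 q.2.2.2.2) := by
    refine Delta11.all' (P := fun s : (ℕ × ℕ) × ℕ × ℕ × ℕ × ℕ × ℕ =>
      EvE s.1.2 s.2.2.1 s.2.2.2.2.1 → EvE s.1.2 s.2.2.2.1 s.2.2.2.2.2 → s.2.1 ≠ 0 →
      (Rel pH false s.2.1 (el pH s.2.2.1) (el pH s.2.2.2.1) ↔
        SI s.1.1 s.2.1 s.2.2.2.2.1 s.2.2.2.2.2)) ?_
    have hk : Computable fun s : (ℕ × ℕ) × ℕ × ℕ × ℕ × ℕ × ℕ => s.1.2 := c_snd (c_fst c_id)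
    have he : Computable fun s : (ℕ × ℕ) × ℕ × ℕ × ℕ × ℕ × ℕ => s.1.1 := c_fst (c_fst c_id)
    have hi : Computable fun s : (ℕ × ℕ) × ℕ × ℕ × ℕ × ℕ × ℕ => s.2.1 := c_fst (c_snd c_id)
    have hx : Computable fun s : (ℕ × ℕ) × ℕ × ℕ × ℕ × ℕ × ℕ => s.2.2.1 :=
      c_fst (c_snd (c_snd c_id))
    have hy : Computable fun s : (ℕ × ℕ) × ℕ × ℕ × ℕ × ℕ × ℕ => s.2.2.2.1 :=
      c_fst (c_snd (c_snd (c_snd c_id)))
    have hx' : Computable fun s : (ℕ × ℕ) × ℕ × ℕ × ℕ × ℕ × ℕ => s.2.2.2.2.1 :=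
      c_fst (c_snd (c_snd (c_snd (c_snd c_id))))
    have hy' : Computable fun s : (ℕ × ℕ) × ℕ × ℕ × ℕ × ℕ × ℕ => s.2.2.2.2.2 :=
      c_snd (c_snd (c_snd (c_snd (c_snd c_id))))
    have hR : ComputablePred fun s : (ℕ × ℕ) × ℕ × ℕ × ℕ × ℕ × ℕ =>
        Rel pH false s.2.1 (el pH s.2.2.1) (el pH s.2.2.2.1) :=
      computablePred_comp (P := fun q : ℕ × ℕ × ℕ => Rel pH false q.1 q.2.1 q.2.2)
        (p_rel c_pH false) (c_pair hi (c_pair (hel.comp hx) (hel.comp hy)))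
    exact (delta_EvE hk hx hx').imp ((delta_EvE hk hy hy').imp
      ((Delta11.of_computable (p_not (p_eq hi (c_const 0)))).imp
        ((Delta11.of_computable hR).iff (delta_SI he hi hx' hy'))))
  exact h3.and (h4.and (h5.and h6))

theorem kn_hyp : HypClass KN := by
  refine ⟨kn_class, ?_⟩
  have h2 : Delta11 fun e : ℕ => ∀ q : ℕ × ℕ, ¬ SI e 0 q.1 q.2 :=
    Delta11.all' (P := fun r : ℕ × ℕ × ℕ => ¬ SI r.1 0 r.2.1 r.2.2)
      (delta_SI (c_fst c_id) (c_const 0) (c_fst (c_snd c_id)) (c_snd (c_snd c_id))).not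
  have h3 : Delta11 fun e : ℕ => ∃ k, ClsQ e k := delta_ClsQ.ex
  exact (delta_Idx.and (h2.and h3)).of_iff idx_kn

theorem main91 : ∃ ar : ℕ → ℕ, Computable ar ∧ ∃ K : Set (Struct ar), HypClass K ∧
    ∃ A ∈ K, NoncomputableScottRank A ∧ ∀ B ∈ K, NoncomputableScottRank B → Iso A B :=
  ⟨ar2, Computable.const 2, KN, kn_hyp, toS NS, ⟨ns_isComputable, Iso.refl _⟩, high_NS,
    fun _ hB _ => hB.2⟩

end Pool.Agent.Helper941.Hyp
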